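import Pool.Agent.Helper72.TV.Twist

/-! # TV-FieldPar

The parameters of words of length at most `2 d²` generate the same field as the parameters of
all group elements.

Plan. `≤` is `words_subset_closure`. For the other direction let
`E = adjoin k {par v φ w | w ∈ Words S (2 d²)}`. `K` is a finite field, so `K / E` is Galois
(`GaloisField`/`IsGalois` instance for finite fields: `IsGalois E K` by `inferInstance` for
`Finite K`, or `IsGalois` from separable + normal; `E` is a field with `Algebra E K`). An element
`y : K` lies in `E` iff every `σ : K ≃ₐ[E] K` fixes it (`IsGalois.mem_bot_iff_fixed` or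
`IsGalois.tfae` / `IntermediateField.fixedField`); for `y = par v φ g`, `g ∈ closure S`, use
`twist` (module Twist, may be still sorried) with `σ` as ring homomorphism: it fixes all
`par v φ w`, `w` short, because these lie in `E`.
-/

namespace Pool.Agent.Helper72.TV

open Matrix Module

theorem adjoin_par {k K : Type*} [Field k] [Field K] [Finite K] [Algebra k K] {d : ℕ}
    (S : Set (Matrix.SpecialLinearGroup (Fin d) K)) (v φ : Fin d → K) :
    IntermediateField.adjoin k {y : K | ∃ w ∈ Words S (2 * d ^ 2), par v φ w = y} =
      IntermediateField.adjoin k {y : K | ∃ g ∈ Subgroup.closure S, par v φ g = y} := by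
  apply le_antisymm
  · apply IntermediateField.adjoin.mono
    rintro y ⟨w, hw, rfl⟩
    exact ⟨w, words_subset_closure _ hw, rfl⟩
  · rw [IntermediateField.adjoin_le_iff]
    rintro y ⟨g, hg, rfl⟩
    set E : IntermediateField k K :=
      IntermediateField.adjoin k {y : K | ∃ w ∈ Words S (2 * d ^ 2), par v φ w = y} with hE
    have hfix : ∀ f : Gal(K/E), f (par v φ g) = par v φ g := by
      intro f
      have h1 : ∀ w ∈ Words S (2 * d ^ 2), (f : K →+* K) (par v φ w) = par v φ w := by
        intro w hw
        have hmem : par v φ w ∈ E :=
          IntermediateField.subset_adjoin k _ ⟨w, hw, rfl⟩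
        have h2 : f (algebraMap E K ⟨par v φ w, hmem⟩) = algebraMap E K ⟨par v φ w, hmem⟩ :=
          f.commutes _
        exact h2
      exact twist (f : K →+* K) S v φ h1 g hg
    have hbot := (IsGalois.mem_bot_iff_fixed (F := E) (E := K) (par v φ g)).2 hfix
    rw [IntermediateField.mem_bot] at hbot
    obtain ⟨z, hz⟩ := hbot
    have hz' : (z : K) = par v φ g := hz
    rw [← hz']
    exact z.2

end Pool.Agent.Helper72.TV
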