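import Mathlib

/-! # TV-ElemGen

Bounded elementary generation of `SL_d` over a field, uniformly in the field.

Plan. Prove for every `d` a bound `N d` by induction. `d = 0`: `M = 1` (`Subsingleton`). Step `d → d + 1`, for
`M : Matrix (Fin (d+1)) (Fin (d+1)) K` with `det M = 1`: if `d = 0`, `M = 1`. If `d ≥ 1`:
the last column of `M` is nonzero. Using at most two transvections on the left make the entry
`(last, last)` equal to `1`: if some `M i last ≠ 0` with `i ≠ last`, add a multiple of row `i` to the last row
(one transvection); otherwise `M last last ≠ 0` is the only nonzero entry of the last column: add the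
last row to row `0` first, then proceed as before. Then clear the rest of the last column by `d`
transvections on the left, and the rest of the last row by `d` transvections on the right. The result is
block diagonal `diag(M', 1)` with `det M' = 1` (`Matrix.det_fromBlocks...` or `det_succ_row`), and `M'` is by
induction a product of at most `N d` transvections, which embed as transvections of size `d + 1` via
`Fin.castSucc`. Transvections are invertible: `(transvection i j c)⁻¹ = transvection i j (-c)`. So
`N (d+1) = N d + 2 d + 2` works. It may be convenient to use the index type `Fin d ⊕ Unit`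
(`Matrix.Pivot` in Mathlib, file `Mathlib/LinearAlgebra/Matrix/Transvection.lean`, has
`Matrix.TransvectionStruct.sumInl`, `reindexEquiv` and the products `listTransvecCol`, `listTransvecRow` whose
lengths are known) and `Fintype.equivFin` / `finSumFinEquiv`.
-/

namespace Pool.Agent.Helper72.TV

open Matrix Module

private def TP {ι K : Type} [DecidableEq ι] [Fintype ι] [Field K] (N : ℕ) (M : Matrix ι ι K) : Prop :=
  ∃ l : List (TransvectionStruct ι K), l.length ≤ N ∧
    M = (l.map TransvectionStruct.toMatrix).prod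

private theorem tp_one {ι K : Type} [DecidableEq ι] [Fintype ι] [Field K] :
    TP 0 (1 : Matrix ι ι K) := ⟨[], by simp, by simp⟩

private theorem tp_mono {ι K : Type} [DecidableEq ι] [Fintype ι] [Field K] {N N' : ℕ}
    {M : Matrix ι ι K} (h : TP N M) (hN : N ≤ N') : TP N' M := by
  obtain ⟨l, hl, h⟩ := h
  exact ⟨l, hl.trans hN, h⟩

private theorem tp_mul {ι K : Type} [DecidableEq ι] [Fintype ι] [Field K] {N N' : ℕ}
    {M M' : Matrix ι ι K} (h : TP N M) (h' : TP N' M') : TP (N + N') (M * M') := by
  obtain ⟨l, hl, rfl⟩ := h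
  obtain ⟨l', hl', rfl⟩ := h'
  exact ⟨l ++ l', by rw [List.length_append]; omega, by rw [List.map_append, List.prod_append]⟩

private theorem tp_trans {ι K : Type} [DecidableEq ι] [Fintype ι] [Field K] {i j : ι} (h : i ≠ j)
    (c : K) : TP 1 (transvection i j c) :=
  ⟨[⟨i, j, h, c⟩], by simp, by simp⟩

private theorem tp_transpose {ι K : Type} [DecidableEq ι] [Fintype ι] [Field K] {N : ℕ}
    {M : Matrix ι ι K} (h : TP N M) : TP N Mᵀ := by
  obtain ⟨l, hl, rfl⟩ := h
  refine ⟨(l.map (fun t => (⟨t.j, t.i, t.hij.symm, t.c⟩ : TransvectionStruct ι K))).reverse,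
    by simpa using hl, ?_⟩
  rw [Matrix.transpose_list_prod, List.map_map, List.map_reverse, List.map_map]
  congr 2
  apply List.map_congr_left
  intro t _
  simp [TransvectionStruct.toMatrix, transvection, Matrix.transpose_add]

private theorem tp_reindex {ι κ K : Type} [DecidableEq ι] [Fintype ι] [DecidableEq κ] [Fintype κ]
    [Field K] {N : ℕ} {M : Matrix ι ι K} (e : ι ≃ κ) (h : TP N M) :
    TP N (reindexAlgEquiv K _ e M) := by
  obtain ⟨l, hl, rfl⟩ := h
  refine ⟨l.map (TransvectionStruct.reindexEquiv e), by simpa using hl, ?_⟩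
  rw [List.map_map]
  exact (TransvectionStruct.toMatrix_reindexEquiv_prod e l).symm

private theorem tp_sum {ι κ K : Type} [DecidableEq ι] [Fintype ι] [DecidableEq κ] [Fintype κ]
    [Field K] {N : ℕ} {M : Matrix ι ι K} (h : TP N M) :
    TP N (fromBlocks M 0 0 (1 : Matrix κ κ K)) := by
  obtain ⟨l, hl, rfl⟩ := h
  refine ⟨l.map (TransvectionStruct.sumInl κ), by simpa using hl, ?_⟩
  have h := TransvectionStruct.sumInl_toMatrix_prod_mul (p := κ) (1 : Matrix ι ι K) l 1
  rw [fromBlocks_one, mul_one, mul_one] at h
  rw [List.map_map]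
  exact h.symm

private theorem tp_upper {K : Type} [Field K] {d : ℕ} (c : Fin d → K) (s : Finset (Fin d)) :
    TP s.card (fromBlocks (1 : Matrix (Fin d) (Fin d) K)
      (Matrix.of fun i (_ : Unit) => if i ∈ s then c i else 0) 0 (1 : Matrix Unit Unit K)) := by
  classical
  induction s using Finset.induction_on with
  | empty =>
    have : (Matrix.of fun (i : Fin d) (_ : Unit) => if i ∈ (∅ : Finset (Fin d)) then c i else 0) =
        0 := by
      ext i j
      simp
    rw [this, fromBlocks_one]
    exact tp_one
  | insert a s ha ih =>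
    rw [Finset.card_insert_of_notMem ha]
    have h := tp_mul ih (tp_trans (K := K) (i := (Sum.inl a : Fin d ⊕ Unit)) (j := Sum.inr ())
      (by simp) (c a))
    have e : transvection (Sum.inl a : Fin d ⊕ Unit) (Sum.inr ()) (c a) =
        fromBlocks (1 : Matrix (Fin d) (Fin d) K)
          (Matrix.of fun i (_ : Unit) => if i = a then c a else 0) 0 (1 : Matrix Unit Unit K) := by
      ext i j
      rcases i with i | i <;> rcases j with j | j <;>
        simp [transvection, Matrix.one_apply, Matrix.single_apply, eq_comm]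
    rw [e, fromBlocks_multiply] at h
    convert h using 2
    · simp
    · ext i j
      by_cases hi : i = a
      · subst hi
        simp [ha]
      · simp [hi]
    · simp
    · simp

private theorem tp_up {K : Type} [Field K] {d : ℕ} (B : Matrix (Fin d) Unit K) :
    TP d (fromBlocks (1 : Matrix (Fin d) (Fin d) K) B 0 (1 : Matrix Unit Unit K)) := by
  have h := tp_upper (fun i => B i ()) Finset.univ
  rw [Finset.card_univ, Fintype.card_fin] at h
  convert h using 2
  ext i j
  simp

private theorem tp_low {K : Type} [Field K] {d : ℕ} (C : Matrix Unit (Fin d) K) :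
    TP d (fromBlocks (1 : Matrix (Fin d) (Fin d) K) 0 C (1 : Matrix Unit Unit K)) := by
  have h := tp_transpose (tp_up Cᵀ)
  rw [fromBlocks_transpose] at h
  simpa using h

/-- lower right entry one -/
private theorem tp_step1 {K : Type} [Field K] {d : ℕ} {N : ℕ}
    (hN : ∀ M : Matrix (Fin d) (Fin d) K, M.det = 1 → TP N M)
    (A : Matrix (Fin d) (Fin d) K) (B : Matrix (Fin d) Unit K) (C : Matrix Unit (Fin d) K)
    (hdet : (fromBlocks A B C (1 : Matrix Unit Unit K)).det = 1) :
    TP (N + 2 * d) (fromBlocks A B C (1 : Matrix Unit Unit K)) := by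
  have e : fromBlocks A B C (1 : Matrix Unit Unit K) =
      fromBlocks 1 B 0 1 * (fromBlocks (A - B * C) 0 0 1 * fromBlocks 1 0 C 1) := by
    rw [fromBlocks_multiply, fromBlocks_multiply]
    simp
  have h1 : (A - B * C).det = 1 := by
    rw [e, det_mul, det_mul, det_fromBlocks_zero₂₁, det_fromBlocks_zero₂₁,
      det_fromBlocks_zero₁₂] at hdet
    simpa using hdet
  rw [e]
  exact tp_mono (tp_mul (tp_up B) (tp_mul (tp_sum (hN _ h1)) (tp_low C))) (by omega)

/-- the last column above the last entry is nonzero -/
private theorem tp_step2 {K : Type} [Field K] {d : ℕ} {N : ℕ}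
    (hN : ∀ M : Matrix (Fin d) (Fin d) K, M.det = 1 → TP N M)
    (A : Matrix (Fin d) (Fin d) K) (B : Matrix (Fin d) Unit K) (C : Matrix Unit (Fin d) K)
    (D : Matrix Unit Unit K) (i : Fin d) (hi : B i () ≠ 0)
    (hdet : (fromBlocks A B C D).det = 1) :
    TP (N + 3 * d) (fromBlocks A B C D) := by
  set R : Matrix Unit (Fin d) K := Matrix.of fun _ k => if k = i then (1 - D () ()) / B i () else 0
    with hR
  have hRB : R * B = 1 - D := by
    ext a b
    rw [Matrix.mul_apply]
    simp [hR, hi]
  have e : fromBlocks 1 0 R 1 * fromBlocks A B C D =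
      fromBlocks A B (R * A + C) (1 : Matrix Unit Unit K) := by
    rw [fromBlocks_multiply, hRB]
    simp
  have e2 : fromBlocks A B C D = fromBlocks 1 0 (-R) 1 *
      fromBlocks A B (R * A + C) (1 : Matrix Unit Unit K) := by
    rw [← e, ← mul_assoc, fromBlocks_multiply]
    simp
  have h1 : (fromBlocks A B (R * A + C) (1 : Matrix Unit Unit K)).det = 1 := by
    rw [← e, det_mul, hdet, det_fromBlocks_zero₁₂]
    simp
  rw [e2]
  exact tp_mono (tp_mul (tp_low (-R)) (tp_step1 hN A B _ h1)) (by omega)

private theorem tp_step3 {K : Type} [Field K] {d : ℕ} {N : ℕ}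
    (hN : ∀ M : Matrix (Fin d) (Fin d) K, M.det = 1 → TP N M) (i₀ : Fin d)
    (A : Matrix (Fin d) (Fin d) K) (B : Matrix (Fin d) Unit K) (C : Matrix Unit (Fin d) K)
    (D : Matrix Unit Unit K)
    (hdet : (fromBlocks A B C D).det = 1) :
    TP (N + 4 * d) (fromBlocks A B C D) := by
  by_cases hB : ∃ i, B i () ≠ 0
  · obtain ⟨i, hi⟩ := hB
    exact tp_mono (tp_step2 hN A B C D i hi hdet) (by omega)
  · push Not at hB
    have hB0 : B = 0 := by
      ext i j
      exact hB i
    have hD : D () () ≠ 0 := by
      intro hD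
      rw [hB0, det_fromBlocks_zero₁₂] at hdet
      have : D.det = 0 := by
        rw [Matrix.det_unique]
        exact hD
      rw [this, mul_zero] at hdet
      exact zero_ne_one hdet
    set E : Matrix (Fin d) Unit K := Matrix.of fun _ _ => 1 with hE
    have e2 : fromBlocks A B C D = fromBlocks 1 (-E) 0 1 *
        fromBlocks (A + E * C) (B + E * D) C D := by
      rw [fromBlocks_multiply]
      simp
    have h1 : (fromBlocks (A + E * C) (B + E * D) C D).det = 1 := by
      rw [e2, det_mul, det_fromBlocks_zero₂₁] at hdet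
      simpa using hdet
    rw [e2]
    refine tp_mono (tp_mul (tp_up (-E)) (tp_step2 hN (A + E * C) (B + E * D) C D i₀ ?_ h1))
      (by omega)
    rw [hB0]
    simp [hE, Matrix.mul_apply, hD]

private theorem eq_one_of_det_fin_one {K : Type} [Field K] (M : Matrix (Fin 1) (Fin 1) K)
    (hM : M.det = 1) : M = 1 := by
  ext i j
  rw [Matrix.det_fin_one] at hM
  have hi : i = 0 := Subsingleton.elim _ _
  have hj : j = 0 := Subsingleton.elim _ _
  rw [hi, hj, hM]
  simp

private theorem tp_all (d : ℕ) :
    ∃ N : ℕ, ∀ (K : Type) [Field K] (M : Matrix (Fin d) (Fin d) K), M.det = 1 → TP N M := by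
  induction d with
  | zero =>
    refine ⟨0, fun K _ M _ => ?_⟩
    have : M = 1 := Subsingleton.elim _ _
    rw [this]
    exact tp_one
  | succ d ih =>
    obtain ⟨N, hN⟩ := ih
    rcases Nat.eq_zero_or_pos d with hd | hd
    · subst hd
      refine ⟨0, fun K _ M hM => ?_⟩
      have : M = 1 := eq_one_of_det_fin_one M hM
      rw [this]
      exact tp_one
    · refine ⟨N + 4 * d, fun K _ M hM => ?_⟩
      let e : Fin (d + 1) ≃ Fin d ⊕ Unit :=
        (Equiv.optionEquivSumPUnit (Fin d)).symm.trans (finSuccEquiv d).symm |>.symm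
      have h1 : (reindexAlgEquiv K _ e M).det = 1 := by
        rw [Matrix.det_reindexAlgEquiv, hM]
      have h2 : TP (N + 4 * d) (reindexAlgEquiv K _ e M) := by
        rw [← fromBlocks_toBlocks (reindexAlgEquiv K _ e M)] at h1 ⊢
        exact tp_step3 (hN K) ⟨0, hd⟩ _ _ _ _ h1
      have h3 := tp_reindex e.symm h2
      convert h3 using 1
      ext i j
      simp

theorem elemGen (d : ℕ) :
    ∃ N : ℕ, ∀ (K : Type) [Field K] (M : Matrix (Fin d) (Fin d) K), M.det = 1 →
      ∃ l : List (Fin d × Fin d × K), l.length ≤ N ∧ (∀ t ∈ l, t.1 ≠ t.2.1) ∧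
        M = (l.map (fun t => Matrix.transvection t.1 t.2.1 t.2.2)).prod := by
  obtain ⟨N, hN⟩ := tp_all d
  refine ⟨N, fun K _ M hM => ?_⟩
  obtain ⟨l, hl, h⟩ := hN K M hM
  refine ⟨l.map (fun t => (t.i, t.j, t.c)), by simpa using hl, ?_, ?_⟩
  · intro t ht
    rw [List.mem_map] at ht
    obtain ⟨u, _, rfl⟩ := ht
    exact u.hij
  · rw [h, List.map_map]
    rfl

end Pool.Agent.Helper72.TV
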