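import Pool.Agent.Helper72.TV.Dual
import Pool.Agent.Helper72.TV.ElemGen

/-! # TV-Finish

From the root group over `K` to the whole group.

Plan. `allVec`, `allCovec`, `elemGen`, Comm may be still sorried. Let `C₁, C₂` be the constants of `allVec` and
`allCovec`, `N` the one of `elemGen`. Let `w ∈ Words S m` with `par v φ w ≠ 0`; `v' = w *ᵥ v`, `p = φ ⬝ᵥ v' ≠ 0`.
* `(a, φ)` for all `a` with `φ·a = 0`: cost `C₁ L`.
* `(v', β')` for all `β'` with `β'·v' = 0`: `β = β' ᵥ* w` has `β·v = 0`, and `tw_conj` for `(v, β)`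
  and `w` gives `(w v, β w⁻¹) = (v', β')`: cost `C₂ L + 2 m`.
Choose a basis `e_0 = v', e_1, ..., e_{d-1}` of `K^d` with `e_i ∈ ker φ` for `i ≥ 1` (`ker φ` has dimension `d - 1`
and `v' ∉ ker φ`), as the columns of an invertible matrix `P`, with rows `ε_j` of `P⁻¹`:
`ε_j ⬝ᵥ e_i = δ_ij`; `ε_0 = p⁻¹ φ`. For `i ≠ j`, `TW S L₂ univ e_i ε_j` with `L₂ = 2 (C₁ L + C₂ L + 2 m)`:
`j = 0`: `(e_i, φ)` and `tw_smul'`. `i = 0`: `(v', ε_j)`. `i, j ≥ 1`: `tw_comm` with `(a, α) := (e_i, φ)`,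
`(b, β) := (v', ε_j)`: `ε_j·e_i = 0`, `φ·v' ≠ 0`.
Given `g ∈ SL_d(K)`, `M = P⁻¹ g P` has determinant 1, so `M` is a product of at most `N` transvections
`transvection i j c`, `i ≠ j`, and `P * transvection i j c * P⁻¹ = 1 + c • vecMulVec e_i ε_j`
(`transvection i j c = 1 + single i j c`, `P * single i j c * P⁻¹ = c • vecMulVec (col i of P) (row j of P⁻¹)`).
So `g` is a product of at most `N` elements of `Words S L₂`: `g ∈ Words S (N * L₂)` (`prod_mem_words`).
With `L ≥ 1`, `N * 2 (C₁ L + C₂ L + 2 m) ≤ (4 N (C₁ + C₂)) * (L + m)`; take `C = 4 N (C₁ + C₂) + 1`.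
-/

namespace Pool.Agent.Helper72.TV

open Matrix Module

section Aux

variable {K : Type*} [Field K] {d : ℕ}

/-- the columns of the change of basis -/
private def colF (φ v' : Fin d → K) (j0 c : Fin d) : Fin d → K :=
  if c = j0 then v' else Pi.single c 1 - (φ c / φ j0) • Pi.single j0 1

/-- the rows of the inverse -/
private def rowF (φ v' : Fin d → K) (j0 r : Fin d) : Fin d → K :=
  if r = j0 then (φ ⬝ᵥ v')⁻¹ • φ else Pi.single r 1 - (v' r / (φ ⬝ᵥ v')) • φ

private theorem phi_colF {φ v' : Fin d → K} {j0 c : Fin d} (h0 : φ j0 ≠ 0) (hc : c ≠ j0) :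
    φ ⬝ᵥ colF φ v' j0 c = 0 := by
  unfold colF
  rw [if_neg hc, dotProduct_sub, dotProduct_smul, dotProduct_single, dotProduct_single,
    mul_one, mul_one, smul_eq_mul, div_mul_cancel₀ _ h0, sub_self]

private theorem rowF_v {φ v' : Fin d → K} {j0 r : Fin d} (hp : φ ⬝ᵥ v' ≠ 0) (hr : r ≠ j0) :
    rowF φ v' j0 r ⬝ᵥ v' = 0 := by
  unfold rowF
  rw [if_neg hr, sub_dotProduct, smul_dotProduct, single_dotProduct, one_mul, smul_eq_mul,
    div_mul_cancel₀ _ hp, sub_self]

private theorem rowF_colF {φ v' : Fin d → K} {j0 : Fin d} (h0 : φ j0 ≠ 0) (hp : φ ⬝ᵥ v' ≠ 0)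
    (r c : Fin d) : rowF φ v' j0 r ⬝ᵥ colF φ v' j0 c = if r = c then 1 else 0 := by
  by_cases hc : c = j0
  · subst hc
    have hcc : colF φ v' c c = v' := by
      unfold colF
      rw [if_pos rfl]
    rw [hcc]
    by_cases hr : r = c
    · subst hr
      rw [if_pos rfl]
      unfold rowF
      rw [if_pos rfl, smul_dotProduct, smul_eq_mul, inv_mul_cancel₀ hp]
    · rw [if_neg hr, rowF_v hp hr]
  · by_cases hr : r = j0
    · subst hr
      rw [if_neg (fun h => hc h.symm)]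
      unfold rowF
      rw [if_pos rfl, smul_dotProduct, phi_colF h0 hc, smul_zero]
    · unfold rowF
      rw [if_neg hr, sub_dotProduct, smul_dotProduct, phi_colF h0 hc, smul_zero, sub_zero]
      unfold colF
      rw [if_neg hc, single_dotProduct, one_mul, Pi.sub_apply, Pi.smul_apply,
        Pi.single_apply, Pi.single_apply, if_neg hr, smul_zero, sub_zero]

private theorem conj_transvection {P Q : Matrix (Fin d) (Fin d) K} (hPQ : P * Q = 1)
    (i j : Fin d) (c : K) :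
    P * Matrix.transvection i j c * Q = 1 + c • vecMulVec (fun r => P r i) (fun s => Q j s) := by
  unfold Matrix.transvection
  rw [mul_add, mul_one, add_mul, hPQ]
  congr 1
  ext r s
  rw [Matrix.mul_apply, Finset.sum_eq_single j]
  · rw [Matrix.mul_apply, Finset.sum_eq_single i]
    · rw [Matrix.single_apply_same, Matrix.smul_apply, vecMulVec_apply, smul_eq_mul]
      ring
    · intro b _ hb
      rw [Matrix.single_apply_of_ne _ _ _ _ _ (fun h => hb h.1.symm), mul_zero]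
    · intro h
      exact absurd (Finset.mem_univ _) h
  · intro b _ hb
    rw [Matrix.mul_apply, Finset.sum_eq_zero, zero_mul]
    intro x _
    rw [Matrix.single_apply_of_ne _ _ _ _ _ (fun h => hb h.2.symm), mul_zero]
  · intro h
    exact absurd (Finset.mem_univ _) h

private theorem list_words {S : Set (Matrix.SpecialLinearGroup (Fin d) K)} {L₂ : ℕ}
    {P Q : Matrix (Fin d) (Fin d) K} (hPQ : P * Q = 1) (hQP : Q * P = 1)
    (hTW : ∀ i j : Fin d, i ≠ j → TW S L₂ Set.univ (fun r => P r i) (fun s => Q j s))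
    (l : List (Fin d × Fin d × K)) :
    (∀ t ∈ l, t.1 ≠ t.2.1) →
    ∃ g ∈ Words S (l.length * L₂), (g : Matrix (Fin d) (Fin d) K) =
      P * (l.map (fun t => Matrix.transvection t.1 t.2.1 t.2.2)).prod * Q := by
  induction l with
  | nil =>
    intro _
    refine ⟨1, one_mem_words _, ?_⟩
    rw [List.map_nil, List.prod_nil, mul_one, hPQ, Matrix.SpecialLinearGroup.coe_one]
  | cons t l ih =>
    intro h
    obtain ⟨g, hg, hg2⟩ := ih (fun t' ht' => h t' (by simp [ht']))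
    obtain ⟨g₁, hg₁, hg₁'⟩ := hTW t.1 t.2.1 (h t (by simp)) t.2.2 (Set.mem_univ _)
    refine ⟨g₁ * g, ?_, ?_⟩
    · refine words_mono ?_ (mul_mem_words hg₁ hg)
      rw [List.length_cons, Nat.succ_mul]
      omega
    · rw [Matrix.SpecialLinearGroup.coe_mul, hg2, hg₁', ← conj_transvection hPQ, List.map_cons,
        List.prod_cons]
      generalize (l.map (fun t => Matrix.transvection t.1 t.2.1 t.2.2)).prod = R
      generalize Matrix.transvection t.1 t.2.1 t.2.2 = T
      calc P * T * Q * (P * R * Q) = P * T * (Q * P) * R * Q := by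
            simp only [mul_assoc]
        _ = P * (T * R) * Q := by
            rw [hQP]
            simp only [mul_assoc, mul_one]

end Aux

theorem finish (d : ℕ) (hd : 2 ≤ d) :
    ∃ C : ℕ, 1 ≤ C ∧ ∀ (K : Type) [Field K]
      (S : Set (Matrix.SpecialLinearGroup (Fin d) K)), Subgroup.closure S = ⊤ →
      ∀ (v φ : Fin d → K), v ≠ 0 → φ ≠ 0 → φ ⬝ᵥ v = 0 → ∀ L : ℕ, 1 ≤ L →
      TW S L Set.univ v φ → ∀ (m : ℕ) (w : Matrix.SpecialLinearGroup (Fin d) K),
      w ∈ Words S m → par v φ w ≠ 0 →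
      ∀ g : Matrix.SpecialLinearGroup (Fin d) K, g ∈ Words S (C * (L + m)) := by
  obtain ⟨C₁, hC₁, h₁⟩ := allVec d hd
  obtain ⟨C₂, hC₂, h₂⟩ := allCovec d hd
  obtain ⟨N, hN⟩ := elemGen d
  refine ⟨4 * N * (C₁ + C₂) + 1, by omega, ?_⟩
  intro K _ S hS v φ hv hφ h0 L hL hTW m w hw hpar g
  have hA := h₁ K S hS v φ hv hφ h0 L hL hTW
  have hB := h₂ K S hS v φ hv hφ h0 L hL hTW
  set v' := (w : Matrix (Fin d) (Fin d) K) *ᵥ v with hv'
  have hp : φ ⬝ᵥ v' ≠ 0 := left_ne_zero_of_mul hpar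
  have hB' : ∀ β' : Fin d → K, β' ⬝ᵥ v' = 0 → TW S (C₂ * L + 2 * m) Set.univ v' β' := by
    intro β' hβ
    have h1 : (β' ᵥ* (w : Matrix (Fin d) (Fin d) K)) ⬝ᵥ v = 0 := by
      rw [← dotProduct_mulVec]
      exact hβ
    have h2 := tw_conj (hB _ h1) hw
    rw [vecMul_vecMul, ← Matrix.SpecialLinearGroup.coe_mul, mul_inv_cancel,
      Matrix.SpecialLinearGroup.coe_one, vecMul_one] at h2
    exact h2
  obtain ⟨j0, hj0⟩ : ∃ j0, φ j0 ≠ 0 := by
    by_contra hcon
    push Not at hcon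
    exact hφ (funext hcon)
  set P : Matrix (Fin d) (Fin d) K := Matrix.of fun r c => colF φ v' j0 c r with hP
  set Q : Matrix (Fin d) (Fin d) K := Matrix.of fun r c => rowF φ v' j0 r c with hQ
  have hQP : Q * P = 1 := by
    ext r c
    rw [Matrix.mul_apply, Matrix.one_apply, ← rowF_colF hj0 hp r c]
    rfl
  have hPQ : P * Q = 1 := mul_eq_one_comm.1 hQP
  have hcol : ∀ i, (fun r => P r i) = colF φ v' j0 i := fun i => rfl
  have hrow : ∀ j, (fun s => Q j s) = rowF φ v' j0 j := fun j => rfl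
  set L₂ := 2 * (C₁ * L + (C₂ * L + 2 * m)) with hL₂
  have hall : ∀ i j : Fin d, i ≠ j → TW S L₂ Set.univ (fun r => P r i) (fun s => Q j s) := by
    intro i j hij
    rw [hcol, hrow]
    by_cases hj : j = j0
    · have hi : i ≠ j0 := fun h => hij (h.trans hj.symm)
      have h3 : rowF φ v' j0 j = (φ ⬝ᵥ v')⁻¹ • φ := by
        unfold rowF
        rw [if_pos hj]
      rw [h3]
      exact (tw_smul' (hA _ (phi_colF hj0 hi)) _).mono (by omega) le_rfl
    · by_cases hi : i = j0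
      · have h3 : colF φ v' j0 i = v' := by
          unfold colF
          rw [if_pos hi]
        rw [h3]
        exact (hB' _ (rowF_v hp hj)).mono (by omega) le_rfl
      · have h3 : rowF φ v' j0 j ⬝ᵥ colF φ v' j0 i = 0 := by
          rw [rowF_colF hj0 hp, if_neg (fun h => hij h.symm)]
        exact tw_comm (hA _ (phi_colF hj0 hi)) (hB' _ (rowF_v hp hj)) (phi_colF hj0 hi)
          (rowF_v hp hj) h3 hp
  have hdet : (Q * (g : Matrix (Fin d) (Fin d) K) * P).det = 1 := by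
    rw [Matrix.det_mul, Matrix.det_mul, g.2, mul_one, ← Matrix.det_mul, hQP, Matrix.det_one]
  obtain ⟨l, hl, hl1, hl2⟩ := hN K _ hdet
  obtain ⟨g', hg', hg2⟩ := list_words hPQ hQP hall l hl1
  have hgg : g' = g := by
    apply Subtype.ext
    rw [hg2, ← hl2]
    calc P * (Q * (g : Matrix (Fin d) (Fin d) K) * P) * Q
        = (P * Q) * (g : Matrix (Fin d) (Fin d) K) * (P * Q) := by simp only [mul_assoc]
      _ = g := by rw [hPQ, one_mul, mul_one]
  rw [← hgg]
  refine words_mono ?_ hg'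
  have k1 : l.length * L₂ ≤ N * L₂ := Nat.mul_le_mul_right _ hl
  have k2 : N * L₂ ≤ (4 * N * (C₁ + C₂) + 1) * (L + m) := by
    rw [hL₂]
    have k3 : m ≤ C₁ * m := Nat.le_mul_of_pos_left m (by omega)
    have k4 : 2 * (C₁ * L + (C₂ * L + 2 * m)) ≤ 4 * (C₁ + C₂) * (L + m) := by
      have e1 : 4 * (C₁ + C₂) * (L + m) =
          4 * (C₁ * L) + 4 * (C₂ * L) + 4 * (C₁ * m) + 4 * (C₂ * m) := by ring
      rw [e1]
      omega
    calc N * (2 * (C₁ * L + (C₂ * L + 2 * m))) ≤ N * (4 * (C₁ + C₂) * (L + m)) :=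
          Nat.mul_le_mul_left _ k4
      _ = 4 * N * (C₁ + C₂) * (L + m) := by ring
      _ ≤ (4 * N * (C₁ + C₂) + 1) * (L + m) := Nat.mul_le_mul_right _ (by omega)
  exact k1.trans k2

end Pool.Agent.Helper72.TV
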