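import Pool.Agent.Helper72.TV.Defs

/-! # TV-ParTop

Over the full group `SL_d(K)` the parameters generate `K`.

Plan. `pair_completion`: choose `v'` with `φ ⬝ᵥ v' = 1` (`φ ≠ 0`: a multiple of `Pi.single i 1`)
and `ψ` with `ψ ⬝ᵥ v = 1`; put `φ' = ψ - (ψ ⬝ᵥ v') • φ`.
`ParTop`: for `y : K` the matrix `1 + y • vecMulVec v' φ'` has determinant `1`
(`Matrix.det_one_add_vecMulVec`-like lemma, or `det_one_add_replicateCol_mul_replicateRow`, since
`φ' ⬝ᵥ v' = 0`), with inverse `1 - y • vecMulVec v' φ'` (multiply out; `vecMulVec a b * vecMulVec c d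
= (b ⬝ᵥ c) • vecMulVec a d`), so it gives `g` in `SL_d(K)` and
`par v φ g = (0 + y) * (0 - y) = - y ^ 2`.
Hence the adjoined field contains all squares of `K`. If `2 ≠ 0` in `K`:
`y = ((y+1)/2)^2 - ((y-1)/2)^2`. If the characteristic is 2 and `K` is finite, every element is a
square (`FiniteField.isSquare_of_char_two` or the Frobenius is surjective).
-/

namespace Pool.Agent.Helper72.TV

open Matrix Module

theorem pair_completion {K : Type*} [Field K] {d : ℕ} (v φ : Fin d → K) (hv : v ≠ 0)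
    (hφ : φ ≠ 0) (hφv : φ ⬝ᵥ v = 0) :
    ∃ v' φ' : Fin d → K, φ ⬝ᵥ v' = 1 ∧ φ' ⬝ᵥ v = 1 ∧ φ' ⬝ᵥ v' = 0 := by
  obtain ⟨i, hi⟩ := Function.ne_iff.1 hφ
  obtain ⟨j, hj⟩ := Function.ne_iff.1 hv
  have hi' : φ i ≠ 0 := hi
  have hj' : v j ≠ 0 := hj
  have h1 : φ ⬝ᵥ (Pi.single i (φ i)⁻¹ : Fin d → K) = 1 := by
    rw [dotProduct_single, mul_inv_cancel₀ hi']
  have h2 : (Pi.single j (v j)⁻¹ : Fin d → K) ⬝ᵥ v = 1 := by
    rw [single_dotProduct, inv_mul_cancel₀ hj']
  refine ⟨Pi.single i (φ i)⁻¹, Pi.single j (v j)⁻¹ -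
    ((Pi.single j (v j)⁻¹ : Fin d → K) ⬝ᵥ (Pi.single i (φ i)⁻¹ : Fin d → K)) • φ, h1, ?_, ?_⟩
  · rw [sub_dotProduct, smul_dotProduct, h2, hφv, smul_zero, sub_zero]
  · rw [sub_dotProduct, smul_dotProduct, h1, smul_eq_mul, mul_one, sub_self]

/-- the product of two matrices `1 + y • (a ⊗ b)` with `b ⬝ᵥ a = 0`. -/
private theorem rk_mul {K : Type*} [Field K] {d : ℕ} (a b : Fin d → K) (h : b ⬝ᵥ a = 0) (y z : K) :
    (1 + y • vecMulVec a b) * (1 + z • vecMulVec a b) = (1 + (y + z) • vecMulVec a b : Matrix (Fin d) (Fin d) K) := by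
  rw [mul_add, mul_one, add_mul, one_mul, smul_mul_smul_comm, vecMulVec_mul_vecMulVec, h]
  simp only [zero_smul, vecMulVec_zero, smul_zero, add_zero]
  rw [add_assoc, ← add_smul]

private theorem rk_det {K : Type*} [Field K] {d : ℕ} (a b : Fin d → K) (h : b ⬝ᵥ a = 0) (y : K) :
    (1 + y • vecMulVec a b : Matrix (Fin d) (Fin d) K).det = 1 := by
  have h1 := det_one_add_replicateCol_mul_replicateRow (ι := Unit) (y • a) b
  rw [← vecMulVec_eq, smul_vecMulVec, dotProduct_smul, h, smul_zero, add_zero] at h1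
  exact h1

/-- the transvections as elements of `SL_d`. -/
private def rk {K : Type*} [Field K] {d : ℕ} (a b : Fin d → K) (h : b ⬝ᵥ a = 0) (y : K) :
    Matrix.SpecialLinearGroup (Fin d) K := ⟨1 + y • vecMulVec a b, rk_det a b h y⟩

private theorem rk_inv {K : Type*} [Field K] {d : ℕ} (a b : Fin d → K) (h : b ⬝ᵥ a = 0) (y : K) :
    (rk a b h y)⁻¹ = rk a b h (-y) := by
  apply inv_eq_of_mul_eq_one_right
  apply Subtype.ext
  rw [Matrix.SpecialLinearGroup.coe_mul, Matrix.SpecialLinearGroup.coe_one]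
  change (1 + y • vecMulVec a b) * (1 + (-y) • vecMulVec a b) = (1 : Matrix (Fin d) (Fin d) K)
  rw [rk_mul a b h, add_neg_cancel, zero_smul, add_zero]

private theorem rk_mulVec {K : Type*} [Field K] {d : ℕ} (a b v : Fin d → K) (h : b ⬝ᵥ a = 0) (y : K) :
    (rk a b h y : Matrix (Fin d) (Fin d) K) *ᵥ v = v + (y * (b ⬝ᵥ v)) • a := by
  change (1 + y • vecMulVec a b) *ᵥ v = _
  rw [add_mulVec, one_mulVec, smul_mulVec, vecMulVec_mulVec]
  ext k
  simp [mul_assoc, mul_comm, mul_left_comm]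

private theorem exists_par_eq {K : Type*} [Field K] {d : ℕ}
    (v φ : Fin d → K) (hv : v ≠ 0) (hφ : φ ≠ 0) (hφv : φ ⬝ᵥ v = 0) (y : K) :
    ∃ g : Matrix.SpecialLinearGroup (Fin d) K, par v φ g = - (y ^ 2) := by
  obtain ⟨v', φ', h1, h2, h3⟩ := pair_completion v φ hv hφ hφv
  refine ⟨rk v' φ' h3 y, ?_⟩
  rw [par, rk_inv, rk_mulVec, rk_mulVec, h2, dotProduct_add, dotProduct_add, dotProduct_smul,
    dotProduct_smul, h1, hφv]
  simp only [mul_one, smul_eq_mul, zero_add]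
  ring

theorem par_top {k K : Type*} [Field k] [Field K] [Finite K] [Algebra k K] {d : ℕ}
    (v φ : Fin d → K) (hv : v ≠ 0) (hφ : φ ≠ 0) (hφv : φ ⬝ᵥ v = 0) :
    IntermediateField.adjoin k
      {y : K | ∃ g : Matrix.SpecialLinearGroup (Fin d) K, par v φ g = y} = ⊤ := by
  rw [eq_top_iff]
  intro y _
  have hsq : ∀ z : K, z ^ 2 ∈ IntermediateField.adjoin k
      {y : K | ∃ g : Matrix.SpecialLinearGroup (Fin d) K, par v φ g = y} := by
    intro z
    obtain ⟨g, hg⟩ := exists_par_eq v φ hv hφ hφv z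
    have h1 : -(z ^ 2) ∈ IntermediateField.adjoin k
      {y : K | ∃ g : Matrix.SpecialLinearGroup (Fin d) K, par v φ g = y} :=
      IntermediateField.subset_adjoin k _ ⟨g, hg⟩
    have h2 := neg_mem h1
    rwa [neg_neg] at h2
  by_cases h : (2 : K) = 0
  · haveI := Fintype.ofFinite K
    have hchar : ringChar K = 2 := by
      have h3 : ((2 : ℕ) : K) = 0 := by exact_mod_cast h
      have h4 : ringChar K ∣ 2 := (ringChar.spec K 2).1 h3
      rcases (Nat.dvd_prime Nat.prime_two).1 h4 with h5 | h5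
      · exact absurd h5 CharP.ringChar_ne_one
      · exact h5
    obtain ⟨z, hz⟩ := FiniteField.isSquare_of_char_two hchar y
    rw [hz, ← pow_two]
    exact hsq z
  · have h5 : y = ((y + 1) / 2) ^ 2 - ((y - 1) / 2) ^ 2 := by
      field_simp
      ring
    rw [h5]
    exact sub_mem (hsq _) (hsq _)

theorem exists_par_ne {K : Type*} [Field K] {d : ℕ}
    (v φ : Fin d → K) (hv : v ≠ 0) (hφ : φ ≠ 0) (hφv : φ ⬝ᵥ v = 0) :
    ∃ g : Matrix.SpecialLinearGroup (Fin d) K, par v φ g ≠ 0 := by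
  obtain ⟨g, hg⟩ := exists_par_eq v φ hv hφ hφv 1
  refine ⟨g, ?_⟩
  rw [hg]
  simp

end Pool.Agent.Helper72.TV
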