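import Pool.Agent.Helper72.TV.Defs

/-! # TV-HornerGroup

Horner scheme in the root group: `T(x) = 1 + x • vecMulVec v φ` satisfies `T(x) T(y) = T(x+y)`.

Plan. Induction on `r`, generalizing `c`. `r = 0`: `g = 1`. Step: `Σ_{i<r+1} c_i θ^i = c_0 + θ * Σ_{i<r} c_{i+1} θ^i`
(`Finset.sum_range_succ'`). By induction there is `g' ∈ Words S (r * (L + 2 * M))` with matrix
`T(Σ_{i<r} c_{i+1} θ^i)`; then `h * g' * h⁻¹` has matrix `T(θ * Σ ...)` by `hh`, and with `g₀ ∈ Words S L`, matrix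
`T(c_0)` (from `hE`), `g = g₀ * (h * g' * h⁻¹)` has matrix `T(c_0) * T(θ Σ) = T(c_0 + θ Σ)`
(`vecMulVec v φ * vecMulVec v φ = (φ ⬝ᵥ v) • vecMulVec v φ = 0`). Length
`L + (r (L + 2 M) + 2 M) = (r + 1) (L + 2 M)` (`conj_mem_words`, `mul_mem_words`).
-/

namespace Pool.Agent.Helper72.TV

open Matrix Module

theorem tv_mul {K : Type*} [Field K] {d : ℕ} (v φ : Fin d → K) (hφv : φ ⬝ᵥ v = 0) (x y : K) :
    (1 + x • Matrix.vecMulVec v φ) * (1 + y • Matrix.vecMulVec v φ) =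
      1 + (x + y) • Matrix.vecMulVec v φ := by
  have h : Matrix.vecMulVec v φ * Matrix.vecMulVec v φ = 0 := by
    rw [Matrix.vecMulVec_mul_vecMulVec, hφv, zero_smul, Matrix.vecMulVec_zero]
  rw [add_mul, mul_add, mul_add, one_mul, one_mul, mul_one, smul_mul_assoc, mul_smul_comm, h,
    smul_zero, smul_zero, add_zero, add_smul]
  abel

theorem hornerGroup {K : Type*} [Field K] {d : ℕ}
    (S : Set (Matrix.SpecialLinearGroup (Fin d) K)) (v φ : Fin d → K) (hφv : φ ⬝ᵥ v = 0)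
    (E : Set K) (L M : ℕ) (hE : TW S L E v φ) (θ : K)
    (h : Matrix.SpecialLinearGroup (Fin d) K) (hM : h ∈ Words S M)
    (hh : ∀ x : K, (h : Matrix (Fin d) (Fin d) K) * (1 + x • Matrix.vecMulVec v φ) *
        ((h⁻¹ : Matrix.SpecialLinearGroup (Fin d) K) : Matrix (Fin d) (Fin d) K) =
          1 + (θ * x) • Matrix.vecMulVec v φ)
    (r : ℕ) (c : ℕ → K) (hc : ∀ i, c i ∈ E) :
    ∃ g ∈ Words S (r * (L + 2 * M)), (g : Matrix (Fin d) (Fin d) K) =
      1 + (∑ i ∈ Finset.range r, c i * θ ^ i) • Matrix.vecMulVec v φ := by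
  induction r generalizing c with
  | zero =>
    refine ⟨1, one_mem_words _, ?_⟩
    simp
  | succ r ih =>
    obtain ⟨g', hg', e'⟩ := ih (fun i => c (i + 1)) (fun i => hc (i + 1))
    obtain ⟨g₀, hg₀, e₀⟩ := hE (c 0) (hc 0)
    refine ⟨g₀ * (h * g' * h⁻¹), ?_, ?_⟩
    · refine words_mono ?_ (mul_mem_words hg₀ (conj_mem_words hM hg'))
      have e : (r + 1) * (L + 2 * M) = r * (L + 2 * M) + (L + 2 * M) := Nat.succ_mul _ _
      rw [e]
      omega
    · rw [Matrix.SpecialLinearGroup.coe_mul, Matrix.SpecialLinearGroup.coe_mul,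
        Matrix.SpecialLinearGroup.coe_mul, e', hh, e₀, tv_mul v φ hφv, Finset.sum_range_succ',
        Finset.mul_sum]
      congr 2
      rw [pow_zero, mul_one, add_comm]
      congr 1
      refine Finset.sum_congr rfl fun i _ => ?_
      ring

end Pool.Agent.Helper72.TV
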