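import Pool.Agent.Helper72.TV.HornerField
import Pool.Agent.Helper72.TV.HornerGroup

/-! # TV-Tower

The tower of fields: from root groups over the fields `k⟮y⟯`, `y ∈ Λ`, to the root group over
`k(Λ)`, with a constant which does not depend on the number of steps.

Plan. Let `y₁ ∈ Λ`, `y₁ ≠ 0`, have the maximal degree `k₁ = finrank k k⟮y⟯` among the nonzero `y ∈ Λ`
(degrees are `≤ finrank k K`). Let `P E` be: `E ≤ adjoin k Λ` and there is `L` with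
`L + 2720 * k₁ * ℓ ≤ 2856 * ℓ * finrank k E` and `TW S L E v φ`.
* `P (k⟮y₁⟯)` holds with `L = 136 * k₁ * ℓ` (equality `136 + 2720 = 2856`).
* If `P E` and `E ≠ adjoin k Λ` then some `y ∈ Λ` is not in `E` (`IntermediateField.adjoin_le_iff`), so
  `y ≠ 0`; take `θ, h` from `h2`, `M = 680 * finrank k k⟮y⟯ * ℓ ≤ 680 * k₁ * ℓ`, `E' = E ⊔ k⟮θ⟯ = E ⊔ k⟮y⟯`,
  so `E < E'`. By `hornerField` and `hornerGroup` (both may be still sorried)
  `TW S (r * (L + 2 * M)) E' v φ` with `finrank k E' = r * finrank k E`; `r ≥ 2` because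
  `finrank k E < finrank k E'` (`IntermediateField.finrank_lt_of_lt`-like or by
  `IntermediateField.eq_of_le_of_finrank_le`). Then
  `r (L + 2 M) + 2720 k₁ ℓ ≤ r (L + 1360 k₁ ℓ) + r * 1360 k₁ ℓ = r (L + 2720 k₁ ℓ) ≤ r * 2856 ℓ finrank k E
   = 2856 ℓ finrank k E'`. So `P E'`.
* Start with `k⟮y₁⟯` and iterate: strong induction on `finrank k K - finrank k E` (or take `E` with `P E` of
  maximal finrank): `P (adjoin k Λ)` holds. Conclude with `TW.mono`.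
-/

namespace Pool.Agent.Helper72.TV

open Matrix Module IntermediateField

theorem tower {k K : Type*} [Field k] [Field K] [Algebra k K] [FiniteDimensional k K] {d : ℕ}
    (S : Set (Matrix.SpecialLinearGroup (Fin d) K)) (v φ : Fin d → K) (hφv : φ ⬝ᵥ v = 0)
    (ℓ : ℕ) (Λ : Set K) (hne : ∃ y ∈ Λ, y ≠ 0)
    (h1 : ∀ y ∈ Λ, y ≠ 0 → TW S (136 * finrank k k⟮y⟯ * ℓ) (k⟮y⟯ : Set K) v φ)
    (h2 : ∀ y ∈ Λ, y ≠ 0 → ∃ θ : K, k⟮θ⟯ = k⟮y⟯ ∧ ∃ h ∈ Words S (680 * finrank k k⟮y⟯ * ℓ),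
      ∀ x : K, (h : Matrix (Fin d) (Fin d) K) * (1 + x • Matrix.vecMulVec v φ) *
        ((h⁻¹ : Matrix.SpecialLinearGroup (Fin d) K) : Matrix (Fin d) (Fin d) K) =
          1 + (θ * x) • Matrix.vecMulVec v φ) :
    TW S (2856 * ℓ * finrank k ↥(IntermediateField.adjoin k Λ))
      (IntermediateField.adjoin k Λ : Set K) v φ := by
  classical
  obtain ⟨y₀, hy₀, hy₀ne⟩ := hne
  have hfin : ∀ E : IntermediateField k K, finrank k E ≤ finrank k K := fun E =>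
    Submodule.finrank_le (Subalgebra.toSubmodule E.toSubalgebra)
  have hDne : {n | ∃ y ∈ Λ, y ≠ 0 ∧ finrank k k⟮y⟯ = n}.Nonempty := ⟨_, y₀, hy₀, hy₀ne, rfl⟩
  have hDb : BddAbove {n | ∃ y ∈ Λ, y ≠ 0 ∧ finrank k k⟮y⟯ = n} :=
    ⟨finrank k K, by rintro n ⟨y, -, -, rfl⟩; exact hfin _⟩
  obtain ⟨y₁, hy₁, hy₁ne, hk₁⟩ := Nat.sSup_mem hDne hDb
  have hmax : ∀ y ∈ Λ, y ≠ 0 → finrank k k⟮y⟯ ≤ finrank k k⟮y₁⟯ := by
    intro y hy hyne
    rw [hk₁]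
    exact le_csSup hDb ⟨y, hy, hyne, rfl⟩
  have hP0 : k⟮y₁⟯ ≤ adjoin k Λ ∧ ∃ L, L + 2720 * finrank k k⟮y₁⟯ * ℓ ≤
      2856 * ℓ * finrank k k⟮y₁⟯ ∧ TW S L (k⟮y₁⟯ : Set K) v φ := by
    refine ⟨adjoin_simple_le_iff.mpr (subset_adjoin k Λ hy₁), 136 * finrank k k⟮y₁⟯ * ℓ, ?_,
      h1 y₁ hy₁ hy₁ne⟩
    apply le_of_eq
    ring
  have hEne : {n | ∃ E : IntermediateField k K, (E ≤ adjoin k Λ ∧ ∃ L, L +
      2720 * finrank k k⟮y₁⟯ * ℓ ≤ 2856 * ℓ * finrank k E ∧ TW S L (E : Set K) v φ) ∧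
      finrank k E = n}.Nonempty := ⟨_, k⟮y₁⟯, hP0, rfl⟩
  have hEb : BddAbove {n | ∃ E : IntermediateField k K, (E ≤ adjoin k Λ ∧ ∃ L, L +
      2720 * finrank k k⟮y₁⟯ * ℓ ≤ 2856 * ℓ * finrank k E ∧ TW S L (E : Set K) v φ) ∧
      finrank k E = n} := ⟨finrank k K, by rintro n ⟨E, -, rfl⟩; exact hfin _⟩
  obtain ⟨E, ⟨hEle, L, hL, hTW⟩, hEmax⟩ := Nat.sSup_mem hEne hEb
  by_cases hEL : adjoin k Λ ≤ E
  · have hEeq : E = adjoin k Λ := le_antisymm hEle hEL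
    rw [← hEeq]
    exact hTW.mono (by omega) subset_rfl
  · exfalso
    rw [adjoin_le_iff, Set.not_subset] at hEL
    obtain ⟨y, hy, hyE⟩ := hEL
    have hyne : y ≠ 0 := by
      rintro rfl
      exact hyE E.zero_mem
    obtain ⟨θ, hθ, h, hh, hconj⟩ := h2 y hy hyne
    obtain ⟨r, hr, hexp⟩ := hornerField E θ
    have hMle := hmax y hy hyne
    have hh' : h ∈ Words S (680 * finrank k k⟮y₁⟯ * ℓ) :=
      words_mono (Nat.mul_le_mul_right _ (Nat.mul_le_mul_left _ hMle)) hh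
    have hyE' : y ∈ E ⊔ k⟮θ⟯ := by
      have h3 : y ∈ k⟮y⟯ := mem_adjoin_simple_self k y
      rw [← hθ] at h3
      exact (le_sup_right : k⟮θ⟯ ≤ E ⊔ k⟮θ⟯) h3
    have hlt : finrank k ↥E < finrank k ↥(E ⊔ k⟮θ⟯) := by
      by_contra hcon
      rw [not_lt] at hcon
      have heq := IntermediateField.eq_of_le_of_finrank_le (le_sup_left : E ≤ E ⊔ k⟮θ⟯) hcon
      rw [← heq] at hyE'
      exact hyE hyE'
    have hEpos : 0 < finrank k ↥E := finrank_pos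
    have hr2 : 2 ≤ r := by
      by_contra hcon
      rw [not_le] at hcon
      rw [hr] at hlt
      have : r * finrank k ↥E ≤ 1 * finrank k ↥E := Nat.mul_le_mul_right _ (by omega)
      omega
    have hle' : E ⊔ k⟮θ⟯ ≤ adjoin k Λ := by
      refine sup_le hEle ?_
      rw [hθ]
      exact adjoin_simple_le_iff.mpr (subset_adjoin k Λ hy)
    have hTW' : TW S (r * (L + 2 * (680 * finrank k k⟮y₁⟯ * ℓ))) (↑(E ⊔ k⟮θ⟯) : Set K) v φ := by
      intro x hx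
      obtain ⟨c, hc, hxc⟩ := hexp x hx
      obtain ⟨g, hg, hgx⟩ := hornerGroup S v φ hφv (E : Set K) L _ hTW θ h hh' hconj r c hc
      refine ⟨g, hg, ?_⟩
      rw [hgx, ← hxc]
    have hb := le_csSup hEb ⟨E ⊔ k⟮θ⟯, ⟨hle', _, ?_, hTW'⟩, rfl⟩
    · rw [← hEmax] at hb
      omega
    · rw [hr]
      have h4 : r * (L + 2720 * finrank k k⟮y₁⟯ * ℓ) ≤ r * (2856 * ℓ * finrank k ↥E) :=
        Nat.mul_le_mul_left _ hL
      have h5 : 2 * (1360 * finrank k k⟮y₁⟯ * ℓ) ≤ r * (1360 * finrank k k⟮y₁⟯ * ℓ) :=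
        Nat.mul_le_mul_right _ hr2
      calc r * (L + 2 * (680 * finrank k k⟮y₁⟯ * ℓ)) + 2720 * finrank k k⟮y₁⟯ * ℓ
          = r * L + r * (1360 * finrank k k⟮y₁⟯ * ℓ) + 2 * (1360 * finrank k k⟮y₁⟯ * ℓ) := by ring
        _ ≤ r * L + r * (1360 * finrank k k⟮y₁⟯ * ℓ) + r * (1360 * finrank k k⟮y₁⟯ * ℓ) := by
          omega
        _ = r * (L + 2720 * finrank k k⟮y₁⟯ * ℓ) := by ring
        _ ≤ r * (2856 * ℓ * finrank k ↥E) := h4
        _ = 2856 * ℓ * (r * finrank k ↥E) := by ring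

end Pool.Agent.Helper72.TV
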