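import Pool.Agent.Helper72.TV.PairStep
import Pool.Agent.Helper72.TV.Tower
import Pool.Agent.Helper72.TV.FieldPar
import Pool.Agent.Helper72.TV.ParTop
import Pool.Agent.Helper72.TV.Finish

/-! # Assembly: generating sets of `SL_d(K)` containing root elements over a subfield -/

namespace Pool.Agent.Helper72.TV

open Matrix Module IntermediateField

/-- The root group over the field generated by all pair parameters (for an arbitrary group
generated by `S`). -/
theorem core {k K : Type*} [Field k] [Fintype k] [Field K] [Algebra k K]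
    [FiniteDimensional k K] (hk : 5 ≤ Fintype.card k) {d : ℕ}
    (S : Set (Matrix.SpecialLinearGroup (Fin d) K)) (v φ : Fin d → K) (hφv : φ ⬝ᵥ v = 0)
    (L : ℕ) (hL : TW S L (Set.range (algebraMap k K)) v φ)
    (hne : ∃ g ∈ Subgroup.closure S, par v φ g ≠ 0) :
    TW S (2856 * (L + 4 * d ^ 2) * finrank k
        ↥(IntermediateField.adjoin k {y : K | ∃ g ∈ Subgroup.closure S, par v φ g = y}))
      (IntermediateField.adjoin k {y : K | ∃ g ∈ Subgroup.closure S, par v φ g = y} : Set K)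
      v φ := by
  have hfin : Finite K := Module.finite_of_finite k
  rw [← adjoin_par]
  obtain ⟨g, hg, hg0⟩ := hne
  obtain ⟨w, hw, hw0⟩ := par_ne S v φ g hg hg0
  have hcost : L + 2 * (2 * d ^ 2) = L + 4 * d ^ 2 := by ring
  refine tower S v φ hφv (L + 4 * d ^ 2) _ ⟨_, ⟨w, hw, rfl⟩, hw0⟩ ?_ ?_
  · rintro y ⟨w, hw, hwy⟩ hy
    have h := (pairStep hk S v φ hφv L (2 * d ^ 2) hL w hw y hwy hy).1
    rwa [hcost] at h
  · rintro y ⟨w, hw, hwy⟩ hy
    have h := (pairStep hk S v φ hφv L (2 * d ^ 2) hL w hw y hwy hy).2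
    rwa [hcost] at h

/-- Main theorem. -/
theorem main (d : ℕ) (hd : 2 ≤ d) :
    ∃ C : ℕ, 1 ≤ C ∧ ∀ (k K : Type) [Field k] [Fintype k] [Field K] [Algebra k K]
      [FiniteDimensional k K], 5 ≤ Fintype.card k →
      ∀ (S : Set (Matrix.SpecialLinearGroup (Fin d) K)), Subgroup.closure S = ⊤ →
      ∀ (v φ : Fin d → K), v ≠ 0 → φ ≠ 0 → φ ⬝ᵥ v = 0 → ∀ L : ℕ,
      (∀ x : k, ∃ g ∈ Words S L, (g : Matrix (Fin d) (Fin d) K) =
        1 + algebraMap k K x • Matrix.vecMulVec v φ) →
      ∀ g : Matrix.SpecialLinearGroup (Fin d) K, g ∈ Words S (C * finrank k K * L) := by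
  obtain ⟨C, hC, hmain⟩ := finish d hd
  refine ⟨C * (2856 * (1 + 4 * d ^ 2) + 2 * d ^ 2), ?_, ?_⟩
  · have h1 : 1 ≤ 2856 * (1 + 4 * d ^ 2) + 2 * d ^ 2 := by omega
    exact Nat.one_le_iff_ne_zero.mpr (Nat.mul_ne_zero (by omega) (by omega))
  · intro k K _ _ _ _ _ hk S hS v φ hv hφ hφv L hL g
    have hfin : Finite K := Module.finite_of_finite k
    -- `L ≥ 1`
    have hL1 : 1 ≤ L := by
      rcases Nat.eq_zero_or_pos L with h0 | h0
      · exfalso
        subst h0
        obtain ⟨g, ⟨l, hl, -, hprod⟩, hg⟩ := hL 1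
        have hl0 : l = [] := List.length_eq_zero_iff.mp (Nat.le_zero.mp hl)
        subst hl0
        rw [List.prod_nil] at hprod
        subst hprod
        rw [Matrix.SpecialLinearGroup.coe_one, map_one, one_smul] at hg
        have h2 : Matrix.vecMulVec v φ = 0 := by
          have h3 : (1 : Matrix (Fin d) (Fin d) K) + 0 = 1 + Matrix.vecMulVec v φ := by
            rw [add_zero]
            exact hg
          exact (add_left_cancel h3).symm
        obtain ⟨i, hi⟩ := Function.ne_iff.mp hv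
        obtain ⟨j, hj⟩ := Function.ne_iff.mp hφ
        have h4 := congrFun (congrFun h2 i) j
        rw [Matrix.vecMulVec_apply] at h4
        rcases mul_eq_zero.mp h4 with h5 | h5
        · exact hi h5
        · exact hj h5
      · exact h0
    have hTW : TW S L (Set.range (algebraMap k K)) v φ := by
      rintro _ ⟨x, rfl⟩
      exact hL x
    obtain ⟨g0, hg0⟩ := exists_par_ne v φ hv hφ hφv
    have hmem : ∀ g : Matrix.SpecialLinearGroup (Fin d) K, g ∈ Subgroup.closure S := by
      intro g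
      rw [hS]
      exact Subgroup.mem_top g
    have hcore := core hk S v φ hφv L hTW ⟨g0, hmem g0, hg0⟩
    have htop : IntermediateField.adjoin k
        {y : K | ∃ g ∈ Subgroup.closure S, par v φ g = y} = ⊤ := by
      rw [← par_top (k := k) v φ hv hφ hφv]
      congr 1
      ext y
      constructor
      · rintro ⟨g, -, h⟩
        exact ⟨g, h⟩
      · rintro ⟨g, h⟩
        exact ⟨g, hmem g, h⟩
    rw [htop, IntermediateField.finrank_top', IntermediateField.coe_top] at hcore
    obtain ⟨w, hw, hw0⟩ := par_ne S v φ g0 (hmem g0) hg0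
    have hn : 1 ≤ finrank k K := Module.finrank_pos
    have hL2 : 1 ≤ 2856 * (L + 4 * d ^ 2) * finrank k K :=
      Nat.one_le_iff_ne_zero.mpr (Nat.mul_ne_zero (Nat.mul_ne_zero (by omega) (by omega)) (by omega))
    refine words_mono ?_ (hmain K S hS v φ hv hφ hφv _ hL2 hcore _ w hw hw0 g)
    have e1 : L + 4 * d ^ 2 ≤ (1 + 4 * d ^ 2) * L := by nlinarith
    have e2 : 2856 * (L + 4 * d ^ 2) * finrank k K ≤
        2856 * ((1 + 4 * d ^ 2) * L) * finrank k K :=
      Nat.mul_le_mul_right _ (Nat.mul_le_mul_left _ e1)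
    have e3 : 2 * d ^ 2 ≤ 2 * d ^ 2 * (finrank k K * L) := by
      refine Nat.le_mul_of_pos_right _ ?_
      exact Nat.mul_pos (by omega) (by omega)
    have e4 : 2856 * (L + 4 * d ^ 2) * finrank k K + 2 * d ^ 2
        ≤ (2856 * (1 + 4 * d ^ 2) + 2 * d ^ 2) * (finrank k K * L) := by
      calc 2856 * (L + 4 * d ^ 2) * finrank k K + 2 * d ^ 2
          ≤ 2856 * ((1 + 4 * d ^ 2) * L) * finrank k K + 2 * d ^ 2 * (finrank k K * L) :=
            Nat.add_le_add e2 e3
        _ = (2856 * (1 + 4 * d ^ 2) + 2 * d ^ 2) * (finrank k K * L) := by ring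
    calc C * (2856 * (L + 4 * d ^ 2) * finrank k K + 2 * d ^ 2)
        ≤ C * ((2856 * (1 + 4 * d ^ 2) + 2 * d ^ 2) * (finrank k K * L)) :=
          Nat.mul_le_mul_left C e4
      _ = C * (2856 * (1 + 4 * d ^ 2) + 2 * d ^ 2) * finrank k K * L := by ring

end Pool.Agent.Helper72.TV
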