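import Pool.Agent.Helper72.TV.Escape

/-! # TV-Escape3

Escape for trilinear coefficients (two factors of `g`, one of `g⁻¹`).

Plan. Apply `escape` (module Escape, may be still sorried) to the representation of `SL_d(K)` on
`W = Matrix (Fin d × Fin d) (Fin d) K` (finrank `d^3`),
`ρ g M = (g ⊗ₖ g) * M * g⁻¹` (`Matrix.kroneckerMap`, `Matrix.mul_kronecker_mul`,
`LinearMap` built by hand; `map_mul` from associativity and `mul_inv_rev`), the vector
`x = Σ i, vecMulVec (fun p => A i p.1 * B i p.2) (γ i)` and the functional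
`ψ M = (fun p => α p.1 * β p.2) ⬝ᵥ (M *ᵥ C)`. Then
`ψ (ρ g x) = Σ i, (α ⬝ᵥ (g *ᵥ A i)) * (β ⬝ᵥ (g *ᵥ B i)) * (γ i ⬝ᵥ (g⁻¹ *ᵥ C))`:
`(g ⊗ₖ g) *ᵥ (A ⊗ B) = (g *ᵥ A) ⊗ (g *ᵥ B)` and `vecMulVec a b * N = vecMulVec a (b ᵥ* N)`,
`vecMulVec a b *ᵥ c = (b ⬝ᵥ c) • a`.
(Alternative: represent on functions `Fin d → Fin d → Fin d → K`; any way is fine.)
-/

namespace Pool.Agent.Helper72.TV

open Matrix Module

private def tns {K : Type*} [Field K] {d : ℕ} (a b : Fin d → K) : Fin d × Fin d → K :=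
  fun p => a p.1 * b p.2

private theorem kron_tns {K : Type*} [Field K] {d : ℕ} (M : Matrix (Fin d) (Fin d) K)
    (a b : Fin d → K) : Matrix.kroneckerMap (· * ·) M M *ᵥ tns a b = tns (M *ᵥ a) (M *ᵥ b) := by
  funext p
  simp only [mulVec, dotProduct, tns, Matrix.kroneckerMap_apply, Fintype.sum_prod_type]
  rw [Finset.sum_mul_sum]
  refine Finset.sum_congr rfl fun i _ => Finset.sum_congr rfl fun j _ => ?_
  ring

private theorem dot_tns {K : Type*} [Field K] {d : ℕ} (a b c e : Fin d → K) :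
    tns a b ⬝ᵥ tns c e = (a ⬝ᵥ c) * (b ⬝ᵥ e) := by
  simp only [dotProduct, tns, Fintype.sum_prod_type]
  rw [Finset.sum_mul_sum]
  refine Finset.sum_congr rfl fun i _ => Finset.sum_congr rfl fun j _ => ?_
  ring

private noncomputable def rep {K : Type*} [Field K] {d : ℕ} :
    Matrix.SpecialLinearGroup (Fin d) K →* Module.End K (Matrix (Fin d × Fin d) (Fin d) K) where
  toFun g :=
    { toFun := fun M => Matrix.kroneckerMap (· * ·) (g : Matrix (Fin d) (Fin d) K)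
        (g : Matrix (Fin d) (Fin d) K) * M *
          ((g⁻¹ : Matrix.SpecialLinearGroup (Fin d) K) : Matrix (Fin d) (Fin d) K)
      map_add' := fun M N => by rw [Matrix.mul_add, Matrix.add_mul]
      map_smul' := fun c M => by
        rw [Matrix.mul_smul, Matrix.smul_mul, RingHom.id_apply] }
  map_one' := by
    ext1 M
    change Matrix.kroneckerMap (· * ·) ((1 : Matrix.SpecialLinearGroup (Fin d) K) :
      Matrix (Fin d) (Fin d) K) ((1 : Matrix.SpecialLinearGroup (Fin d) K) :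
      Matrix (Fin d) (Fin d) K) * M * (((1 : Matrix.SpecialLinearGroup (Fin d) K)⁻¹ :
        Matrix.SpecialLinearGroup (Fin d) K) : Matrix (Fin d) (Fin d) K) = M
    rw [inv_one, Matrix.SpecialLinearGroup.coe_one, Matrix.one_kronecker_one, Matrix.one_mul,
      Matrix.mul_one]
  map_mul' g h := by
    ext1 M
    change Matrix.kroneckerMap (· * ·) ((g * h : Matrix.SpecialLinearGroup (Fin d) K) :
      Matrix (Fin d) (Fin d) K) ((g * h : Matrix.SpecialLinearGroup (Fin d) K) :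
      Matrix (Fin d) (Fin d) K) * M * (((g * h)⁻¹ :
        Matrix.SpecialLinearGroup (Fin d) K) : Matrix (Fin d) (Fin d) K) =
      Matrix.kroneckerMap (· * ·) (g : Matrix (Fin d) (Fin d) K)
        (g : Matrix (Fin d) (Fin d) K) * (Matrix.kroneckerMap (· * ·)
        (h : Matrix (Fin d) (Fin d) K) (h : Matrix (Fin d) (Fin d) K) * M *
          ((h⁻¹ : Matrix.SpecialLinearGroup (Fin d) K) : Matrix (Fin d) (Fin d) K)) *
          ((g⁻¹ : Matrix.SpecialLinearGroup (Fin d) K) : Matrix (Fin d) (Fin d) K)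
    rw [_root_.mul_inv_rev, Matrix.SpecialLinearGroup.coe_mul, Matrix.SpecialLinearGroup.coe_mul,
      Matrix.mul_kronecker_mul]
    simp only [Matrix.mul_assoc]

private theorem rep_apply {K : Type*} [Field K] {d : ℕ} (g : Matrix.SpecialLinearGroup (Fin d) K)
    (M : Matrix (Fin d × Fin d) (Fin d) K) :
    rep g M = Matrix.kroneckerMap (· * ·) (g : Matrix (Fin d) (Fin d) K)
        (g : Matrix (Fin d) (Fin d) K) * M *
          ((g⁻¹ : Matrix.SpecialLinearGroup (Fin d) K) : Matrix (Fin d) (Fin d) K) := rfl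

private noncomputable def fn {K : Type*} [Field K] {d : ℕ} (α β C : Fin d → K) :
    Matrix (Fin d × Fin d) (Fin d) K →ₗ[K] K where
  toFun M := tns α β ⬝ᵥ (M *ᵥ C)
  map_add' M N := by rw [Matrix.add_mulVec, dotProduct_add]
  map_smul' c M := by rw [Matrix.smul_mulVec, dotProduct_smul, RingHom.id_apply]

private theorem fn_apply {K : Type*} [Field K] {d : ℕ} (α β C : Fin d → K)
    (M : Matrix (Fin d × Fin d) (Fin d) K) : fn α β C M = tns α β ⬝ᵥ (M *ᵥ C) := rfl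

private theorem eval {K : Type*} [Field K] {d : ℕ} {ι : Type*} [Fintype ι]
    (A B γ : ι → Fin d → K) (α β C : Fin d → K)
    (g : Matrix.SpecialLinearGroup (Fin d) K) :
    fn α β C (rep g (∑ i, vecMulVec (tns (A i) (B i)) (γ i))) =
      ∑ i, (α ⬝ᵥ ((g : Matrix (Fin d) (Fin d) K) *ᵥ A i)) *
        (β ⬝ᵥ ((g : Matrix (Fin d) (Fin d) K) *ᵥ B i)) *
        (γ i ⬝ᵥ (((g⁻¹ : Matrix.SpecialLinearGroup (Fin d) K) :
          Matrix (Fin d) (Fin d) K) *ᵥ C)) := by
  rw [map_sum, map_sum]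
  refine Finset.sum_congr rfl fun i _ => ?_
  rw [fn_apply, rep_apply, Matrix.mul_vecMulVec, kron_tns, Matrix.vecMulVec_mul,
    Matrix.vecMulVec_mulVec, ← Matrix.dotProduct_mulVec]
  have e : (MulOpposite.op (γ i ⬝ᵥ (((g⁻¹ : Matrix.SpecialLinearGroup (Fin d) K) :
      Matrix (Fin d) (Fin d) K) *ᵥ C)) • tns ((g : Matrix (Fin d) (Fin d) K) *ᵥ A i)
        ((g : Matrix (Fin d) (Fin d) K) *ᵥ B i)) = (γ i ⬝ᵥ (((g⁻¹ :
          Matrix.SpecialLinearGroup (Fin d) K) : Matrix (Fin d) (Fin d) K) *ᵥ C)) •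
            tns ((g : Matrix (Fin d) (Fin d) K) *ᵥ A i)
              ((g : Matrix (Fin d) (Fin d) K) *ᵥ B i) := by
    rw [op_smul_eq_smul]
  rw [e, dotProduct_smul, dot_tns, smul_eq_mul]
  ring

theorem escape3 {K : Type*} [Field K] {d : ℕ} {ι : Type*} [Fintype ι]
    (S : Set (Matrix.SpecialLinearGroup (Fin d) K))
    (A B γ : ι → Fin d → K) (α β C : Fin d → K)
    (g : Matrix.SpecialLinearGroup (Fin d) K) (hg : g ∈ Subgroup.closure S)
    (h : ∑ i, (α ⬝ᵥ ((g : Matrix (Fin d) (Fin d) K) *ᵥ A i)) *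
        (β ⬝ᵥ ((g : Matrix (Fin d) (Fin d) K) *ᵥ B i)) *
        (γ i ⬝ᵥ (((g⁻¹ : Matrix.SpecialLinearGroup (Fin d) K) : Matrix (Fin d) (Fin d) K) *ᵥ C))
          ≠ 0) :
    ∃ w ∈ Words S (d ^ 3), ∑ i, (α ⬝ᵥ ((w : Matrix (Fin d) (Fin d) K) *ᵥ A i)) *
        (β ⬝ᵥ ((w : Matrix (Fin d) (Fin d) K) *ᵥ B i)) *
        (γ i ⬝ᵥ (((w⁻¹ : Matrix.SpecialLinearGroup (Fin d) K) : Matrix (Fin d) (Fin d) K) *ᵥ C))
          ≠ 0 := by
  have k := escape (rep (K := K) (d := d)) S (∑ i, vecMulVec (tns (A i) (B i)) (γ i))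
    (fn α β C) g hg (by rw [eval]; exact h)
  obtain ⟨w, hw, h1⟩ := k
  rw [eval] at h1
  refine ⟨w, ?_, h1⟩
  rw [Module.finrank_matrix] at hw
  refine words_mono (le_of_eq ?_) hw
  simp only [Fintype.card_prod, Fintype.card_fin, Module.finrank_self]
  ring

end Pool.Agent.Helper72.TV
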