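import Mathlib

/-! # TV-ExSL

Elements of `SL_d(K)` with prescribed values on three independent vectors, up to one scalar.

Plan. `3 ≤ d` because `x` is linearly independent in `K^d`. Extend `x` and `y` to bases `X, Y` of
`Fin d → K` indexed by the same type: e.g. both `x` and `y` are the first three vectors of bases
indexed by `Fin 3 ⊕ Fin (d - 3)` (`LinearIndependent.extend`, `Module.Basis.sumExtend`, cardinalities by
`finrank`; or: there is a linear automorphism `T` of `K^d` with `T x_i = y_i`, see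
`LinearEquiv.exists...`/`LinearIndependent` extension lemmas, `exists_linearEquiv...`).
Let `T` be the linear equivalence with `T X_i = Y_i`, `δ = det T ≠ 0`; let `T'` be the composition of `T` with
the map scaling the basis vector `Y_0` by `δ⁻¹` (determinant `δ⁻¹`). Then `det T' = 1`, `T' x_0 = δ⁻¹ y_0`,
`T' x_1 = y_1`, `T' x_2 = y_2`. Take the matrix (`LinearMap.toMatrix'`, `LinearMap.det_toMatrix'`).
-/

namespace Pool.Agent.Helper72.TV

open Matrix Module

private lemma exSL_equiv {K V : Type*} [Field K] [AddCommGroup V] [Module K V]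
    [FiniteDimensional K V] (x y : Fin 3 → V)
    (hx : LinearIndependent K x) (hy : LinearIndependent K y) :
    ∃ g : V ≃ₗ[K] V, ∀ i, g (x i) = y i := by
  have hX : ∀ i, hx.linearCombinationEquiv (Finsupp.single i 1) = x i := by
    intro i
    simp
  have hY : ∀ i, hy.linearCombinationEquiv (Finsupp.single i 1) = y i := by
    intro i
    simp
  let f := hx.linearCombinationEquiv.symm ≪≫ₗ hy.linearCombinationEquiv
  have : FiniteDimensional K (Submodule.span K (Set.range x)) :=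
    FiniteDimensional.span_of_finite K (Set.finite_range _)
  obtain ⟨g, hg⟩ := Submodule.exists_linearEquiv_restrict_eq f
  refine ⟨g, fun i => ?_⟩
  rw [← hX i, ← hg, ← hY i]
  simp [f]

private lemma exSL_dual {K : Type*} [Field K] {d : ℕ} (y : Fin 3 → Fin d → K)
    (hy : LinearIndependent K y) :
    ∃ φ : Fin d → K, φ ⬝ᵥ y 0 = 1 ∧ φ ⬝ᵥ y 1 = 0 ∧ φ ⬝ᵥ y 2 = 0 := by
  let g : Submodule.span K (Set.range y) →ₗ[K] K :=
    (Finsupp.lapply (0 : Fin 3)) ∘ₗ hy.repr
  obtain ⟨f, hf⟩ := g.exists_extend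
  have h1 : ∀ i, f (y i) = if i = 0 then 1 else 0 := by
    intro i
    have hm : y i ∈ Submodule.span K (Set.range y) := Submodule.subset_span ⟨i, rfl⟩
    have h2 : f (y i) = g ⟨y i, hm⟩ := by
      rw [← hf]
      rfl
    rw [h2]
    show (hy.repr ⟨y i, hm⟩) 0 = _
    rw [hy.repr_eq_single i ⟨y i, hm⟩ rfl, Finsupp.single_apply]
  have h2 : ∀ w : Fin d → K, (fun j => f (Pi.single j 1)) ⬝ᵥ w = f w := by
    intro w
    rw [LinearMap.pi_apply_eq_sum_univ f w, dotProduct]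
    refine Finset.sum_congr rfl fun j _ => ?_
    rw [smul_eq_mul, mul_comm]
    congr 2
    funext k
    by_cases h : j = k
    · subst h; simp
    · rw [Pi.single_eq_of_ne (Ne.symm h), if_neg h]
  refine ⟨fun j => f (Pi.single j 1), ?_, ?_, ?_⟩
  · rw [h2, h1]; simp
  · rw [h2, h1]; simp
  · rw [h2, h1]; simp

theorem exSL {K : Type*} [Field K] {d : ℕ} (x y : Fin 3 → Fin d → K)
    (hx : LinearIndependent K x) (hy : LinearIndependent K y) :
    ∃ (g : Matrix.SpecialLinearGroup (Fin d) K) (c : K), c ≠ 0 ∧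
      (g : Matrix (Fin d) (Fin d) K) *ᵥ x 0 = c • y 0 ∧
      (g : Matrix (Fin d) (Fin d) K) *ᵥ x 1 = y 1 ∧
      (g : Matrix (Fin d) (Fin d) K) *ᵥ x 2 = y 2 := by
  obtain ⟨T, hT⟩ := exSL_equiv x y hx hy
  obtain ⟨φ, hφ0, hφ1, hφ2⟩ := exSL_dual y hy
  let A : Matrix (Fin d) (Fin d) K := LinearMap.toMatrix' (T : (Fin d → K) →ₗ[K] (Fin d → K))
  have hA : ∀ w, A *ᵥ w = T w := by
    intro w
    exact LinearMap.toMatrix'_mulVec _ _
  obtain ⟨δ, hδ⟩ : ∃ δ, δ = A.det := ⟨_, rfl⟩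
  have hδ0 : δ ≠ 0 := by
    rw [hδ, LinearMap.det_toMatrix']
    exact (LinearEquiv.isUnit_det' T).ne_zero
  let B : Matrix (Fin d) (Fin d) K := 1 + Matrix.vecMulVec ((δ⁻¹ - 1) • y 0) φ
  have hB : B.det = δ⁻¹ := by
    show (1 + Matrix.vecMulVec ((δ⁻¹ - 1) • y 0) φ).det = δ⁻¹
    rw [Matrix.vecMulVec_eq Unit, Matrix.det_one_add_replicateCol_mul_replicateRow,
      dotProduct_smul, hφ0, smul_eq_mul]
    ring
  have hdet : (B * A).det = 1 := by
    rw [Matrix.det_mul, hB, ← hδ, inv_mul_cancel₀ hδ0]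
  have hBw : ∀ w, B *ᵥ w = w + (φ ⬝ᵥ w) • ((δ⁻¹ - 1) • y 0) := by
    intro w
    show (1 + Matrix.vecMulVec ((δ⁻¹ - 1) • y 0) φ) *ᵥ w = _
    rw [Matrix.add_mulVec, Matrix.one_mulVec]
    congr 1
    ext j
    rw [Matrix.mulVec, dotProduct]
    simp only [Matrix.vecMulVec_apply, Pi.smul_apply, smul_eq_mul, dotProduct, Finset.sum_mul]
    refine Finset.sum_congr rfl fun k _ => ?_
    ring
  refine ⟨⟨B * A, hdet⟩, δ⁻¹, inv_ne_zero hδ0, ?_, ?_, ?_⟩
  · show (B * A) *ᵥ x 0 = _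
    rw [← Matrix.mulVec_mulVec, hA, hT, hBw, hφ0, one_smul, sub_smul, one_smul]
    abel
  · show (B * A) *ᵥ x 1 = _
    rw [← Matrix.mulVec_mulVec, hA, hT, hBw, hφ1, zero_smul, add_zero]
  · show (B * A) *ᵥ x 2 = _
    rw [← Matrix.mulVec_mulVec, hA, hT, hBw, hφ2, zero_smul, add_zero]

end Pool.Agent.Helper72.TV
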