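import Pool.Agent.Helper72.TV.Comm
import Pool.Agent.Helper72.TV.Escape3
import Pool.Agent.Helper72.TV.ExSL

/-! # TV-Incr

Further directions in the hyperplane `ker φ`.

Plan. `escape3`, `exSL`, Comm may be used as they are. Choose independent `a₁, a₂ ∈ A` and a covector `ψ`
vanishing on `A` with `ψ ∉ K φ` (the annihilator of `A` has dimension `d - finrank A ≥ 2`).
Consider for `g ∈ SL_d(K)`: `G(g) = (φ·g⁻¹a₁) [ (φ·ga₂)(ψ·ga₁) - (φ·ga₁)(ψ·ga₂) ]`, a sum as in `escape3` with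
`ι = Fin 2`, `α = φ`, `β = ψ`, `C = a₁`, `A = ![a₂, a₁]`, `B = ![a₁, a₂]`, `γ = ![φ, -φ]`.
Existence of `g` with `G(g) ≠ 0`: choose `b₀ ∉ ker φ`; `a₁, a₂, b₀` are independent. As `φ, ψ` are independent
there are `c₁, c₂` with `φ·c₁ = 0, ψ·c₁ = 1, φ·c₂ = 1, ψ·c₂ = 0`; `c₁, c₂, a₁` are independent because
`φ·a₁ = ψ·a₁ = 0` and `a₁ ≠ 0`. By `exSL` there are `g`, `c ≠ 0` with `g a₁ = c c₁`, `g a₂ = c₂`, `g b₀ = a₁`; so
`g⁻¹ a₁ = b₀` and `G(g) = (φ·b₀) (1 * c - 0) ≠ 0`.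
So there is `w ∈ Words S (d^3)` with `G(w) ≠ 0`. Put `a' = (φ·wa₂) a₁ - (φ·wa₁) a₂ ∈ A` and `b = w a'`:
`φ·b = 0`, `ψ·b ≠ 0`, so `b ∉ A`. `TW S L univ a' φ`, so by `tw_conj` `TW S (L + 2 d³) univ b (φ w⁻¹)`. Now `tw_comm` with
`(a, α) := (b, φ w⁻¹)`, `(b, β) := (a₁, φ)`: `φ·b = 0`, `(φ w⁻¹)·a₁ = φ·w⁻¹a₁ ≠ 0`, `(φ w⁻¹)·b = φ·a' = 0`,
`φ·a₁ = 0`: `TW S (2 (L + 2 d³ + L)) univ b φ`.
-/

namespace Pool.Agent.Helper72.TV

open Matrix Module

private theorem incr_psi {K : Type*} [Field K] {d : ℕ} (A : Submodule K (Fin d → K))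
    {c : Fin d → K} (hc : c ∉ A) : ∃ ψ : Fin d → K, (∀ a ∈ A, ψ ⬝ᵥ a = 0) ∧ ψ ⬝ᵥ c ≠ 0 := by
  obtain ⟨f, hf, hf'⟩ := A.exists_dual_map_eq_bot_of_notMem hc inferInstance
  have key : ∀ v : Fin d → K, (fun i => f (Pi.single i 1)) ⬝ᵥ v = f v := by
    intro v
    have h1 : v = ∑ i, v i • (Pi.single i 1 : Fin d → K) := by
      rw [← Finset.univ_sum_single v]
      refine Finset.sum_congr rfl fun i _ => ?_
      rw [← Pi.single_smul, smul_eq_mul, mul_one]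
      simp
    conv_rhs => rw [h1]
    rw [map_sum]
    simp only [dotProduct, map_smul, smul_eq_mul]
    refine Finset.sum_congr rfl fun i _ => ?_
    ring
  refine ⟨fun i => f (Pi.single i 1), ?_, ?_⟩
  · intro a ha
    rw [key]
    have h2 : f a ∈ A.map f := Submodule.mem_map_of_mem ha
    rw [hf'] at h2
    simpa using h2
  · rw [key]
    exact hf

private theorem incr_ker {K : Type*} [Field K] {d : ℕ} (φ : Fin d → K) (A : Submodule K (Fin d → K))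
    (hd : finrank K A + 1 < d) : ∃ c : Fin d → K, φ ⬝ᵥ c = 0 ∧ c ∉ A := by
  by_contra hcon
  push Not at hcon
  set f : (Fin d → K) →ₗ[K] K :=
    { toFun := fun v => φ ⬝ᵥ v
      map_add' := fun v w => dotProduct_add φ v w
      map_smul' := fun c v => by simp } with hf
  have h1 : LinearMap.ker f ≤ A := fun c hc => hcon c hc
  have h2 := LinearMap.finrank_range_add_finrank_ker f
  have h3 : finrank K (LinearMap.range f) ≤ 1 := by
    have := Submodule.finrank_le (LinearMap.range f)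
    simpa using this
  have h4 := Submodule.finrank_mono h1
  rw [Module.finrank_fin_fun] at h2
  omega

private theorem incr_inv {K : Type*} [Field K] {d : ℕ} (g : Matrix.SpecialLinearGroup (Fin d) K)
    (v : Fin d → K) :
    ((g⁻¹ : Matrix.SpecialLinearGroup (Fin d) K) : Matrix (Fin d) (Fin d) K) *ᵥ
      ((g : Matrix (Fin d) (Fin d) K) *ᵥ v) = v := by
  rw [Matrix.mulVec_mulVec, ← Matrix.SpecialLinearGroup.coe_mul, inv_mul_cancel,
    Matrix.SpecialLinearGroup.coe_one, Matrix.one_mulVec]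

theorem incr {K : Type*} [Field K] {d : ℕ}
    (S : Set (Matrix.SpecialLinearGroup (Fin d) K)) (hS : Subgroup.closure S = ⊤)
    (φ : Fin d → K) (hφ : φ ≠ 0) (A : Submodule K (Fin d → K)) (L : ℕ)
    (hA : ∀ a ∈ A, φ ⬝ᵥ a = 0 ∧ TW S L Set.univ a φ)
    (h2 : 2 ≤ finrank K A) (hd : finrank K A + 1 < d) :
    ∃ b : Fin d → K, φ ⬝ᵥ b = 0 ∧ b ∉ A ∧ TW S (4 * L + 4 * d ^ 3) Set.univ b φ := by
  -- two independent vectors of `A`
  obtain ⟨f, hf⟩ := exists_linearIndependent_of_le_finrank h2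
  set a₁ : Fin d → K := (f 0 : Fin d → K) with ha₁
  set a₂ : Fin d → K := (f 1 : Fin d → K) with ha₂
  have h1A : a₁ ∈ A := (f 0).2
  have h2A : a₂ ∈ A := (f 1).2
  have hli : ∀ x y : K, x • a₁ + y • a₂ = 0 → x = 0 ∧ y = 0 := by
    intro x y hxy
    have h3 : LinearIndependent K ![f 0, f 1] := by
      have : ![f 0, f 1] = f := by
        funext i
        fin_cases i <;> rfl
      rw [this]
      exact hf
    refine LinearIndependent.pair_iff.mp h3 x y ?_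
    apply Subtype.ext
    simpa using hxy
  have ha1 : a₁ ≠ 0 := by
    intro h
    have := hli 1 0 (by rw [h]; simp)
    exact one_ne_zero this.1
  obtain ⟨c₁, hc₁, hc₁A⟩ := incr_ker φ A hd
  obtain ⟨ψ, hψA, hψc⟩ := incr_psi A hc₁A
  -- a vector with `φ·c₂ = 1`, `ψ·c₂ = 0`
  obtain ⟨e, he⟩ : ∃ e : Fin d → K, φ ⬝ᵥ e ≠ 0 := by
    by_contra hcon
    push Not at hcon
    apply hφ
    funext i
    have := hcon (Pi.single i 1)
    simpa using this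
  set c₂ : Fin d → K := (φ ⬝ᵥ e)⁻¹ • e - ((φ ⬝ᵥ e)⁻¹ * (ψ ⬝ᵥ e) / (ψ ⬝ᵥ c₁)) • c₁ with hc₂
  have hφc₂ : φ ⬝ᵥ c₂ = 1 := by
    rw [hc₂, dotProduct_sub, dotProduct_smul, dotProduct_smul, hc₁, smul_zero, sub_zero, smul_eq_mul,
      inv_mul_cancel₀ he]
  have hψc₂ : ψ ⬝ᵥ c₂ = 0 := by
    rw [hc₂, dotProduct_sub, dotProduct_smul, dotProduct_smul, smul_eq_mul, smul_eq_mul,
      div_mul_cancel₀ _ hψc, sub_self]
  have hφa₁ : φ ⬝ᵥ a₁ = 0 := (hA a₁ h1A).1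
  have hφa₂ : φ ⬝ᵥ a₂ = 0 := (hA a₂ h2A).1
  have hψa₁ : ψ ⬝ᵥ a₁ = 0 := hψA a₁ h1A
  -- the two triples are independent
  have hx : LinearIndependent K ![a₁, a₂, c₂] := by
    rw [Fintype.linearIndependent_iff]
    intro x hx0
    rw [Fin.sum_univ_three] at hx0
    simp only [Matrix.cons_val_zero, Matrix.cons_val_one, Matrix.cons_val] at hx0
    have h3 := congrArg (fun v => φ ⬝ᵥ v) hx0
    simp only [dotProduct_add, dotProduct_smul, hφa₁, hφa₂, hφc₂, dotProduct_zero, smul_eq_mul,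
      mul_zero, mul_one, zero_add] at h3
    rw [h3, zero_smul, add_zero] at hx0
    have h4 := hli _ _ hx0
    intro i
    fin_cases i
    · exact h4.1
    · exact h4.2
    · exact h3
  have hy : LinearIndependent K ![c₁, c₂, a₁] := by
    rw [Fintype.linearIndependent_iff]
    intro x hx0
    rw [Fin.sum_univ_three] at hx0
    simp only [Matrix.cons_val_zero, Matrix.cons_val_one, Matrix.cons_val] at hx0
    have h3 := congrArg (fun v => φ ⬝ᵥ v) hx0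
    simp only [dotProduct_add, dotProduct_smul, hφa₁, hc₁, hφc₂, dotProduct_zero, smul_eq_mul,
      mul_zero, mul_one, zero_add, add_zero] at h3
    have h4 := congrArg (fun v => ψ ⬝ᵥ v) hx0
    simp only [dotProduct_add, dotProduct_smul, hψa₁, hψc₂, dotProduct_zero, smul_eq_mul,
      mul_zero, add_zero] at h4
    have h5 : x 0 = 0 := (mul_eq_zero.mp h4).resolve_right hψc
    rw [h3, h5, zero_smul, zero_smul, zero_add, zero_add] at hx0
    have h6 : x 2 = 0 := (smul_eq_zero.mp hx0).resolve_right ha1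
    intro i
    fin_cases i
    · exact h5
    · exact h3
    · exact h6
  obtain ⟨g, c, hc, hg1, hg2, hg3⟩ := exSL ![a₁, a₂, c₂] ![c₁, c₂, a₁] hx hy
  simp only [Matrix.cons_val_zero, Matrix.cons_val_one, Matrix.cons_val] at hg1 hg2 hg3
  have hginv : ((g⁻¹ : Matrix.SpecialLinearGroup (Fin d) K) : Matrix (Fin d) (Fin d) K) *ᵥ a₁ =
      c₂ := by
    rw [← hg3, incr_inv]
  obtain ⟨w, hw, hwG⟩ := escape3 S ![a₂, a₁] ![a₁, a₂] ![φ, -φ] φ ψ a₁ g (by rw [hS]; trivial) (by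
    rw [Fin.sum_univ_two]
    simp only [Matrix.cons_val_zero, Matrix.cons_val_one, Matrix.cons_val]
    rw [hg1, hg2, hginv, hφc₂, hψc₂, dotProduct_smul, dotProduct_smul, hc₁, neg_dotProduct, hφc₂]
    simp only [smul_eq_mul, mul_zero, zero_mul, add_zero, mul_one, one_mul]
    exact mul_ne_zero hc hψc)
  rw [Fin.sum_univ_two] at hwG
  simp only [Matrix.cons_val_zero, Matrix.cons_val_one, Matrix.cons_val, neg_dotProduct] at hwG
  set W : Matrix (Fin d) (Fin d) K := (w : Matrix (Fin d) (Fin d) K) with hW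
  set Wi : Matrix (Fin d) (Fin d) K :=
    ((w⁻¹ : Matrix.SpecialLinearGroup (Fin d) K) : Matrix (Fin d) (Fin d) K) with hWi
  have hfac : (φ ⬝ᵥ (Wi *ᵥ a₁)) * ((φ ⬝ᵥ (W *ᵥ a₂)) * (ψ ⬝ᵥ (W *ᵥ a₁)) -
      (φ ⬝ᵥ (W *ᵥ a₁)) * (ψ ⬝ᵥ (W *ᵥ a₂))) ≠ 0 := by
    intro h
    apply hwG
    linear_combination h
  have hne1 : φ ⬝ᵥ (Wi *ᵥ a₁) ≠ 0 := left_ne_zero_of_mul hfac
  have hne2 := right_ne_zero_of_mul hfac
  set a' : Fin d → K := (φ ⬝ᵥ (W *ᵥ a₂)) • a₁ - (φ ⬝ᵥ (W *ᵥ a₁)) • a₂ with ha'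
  have ha'A : a' ∈ A := A.sub_mem (A.smul_mem _ h1A) (A.smul_mem _ h2A)
  have hWa' : W *ᵥ a' = (φ ⬝ᵥ (W *ᵥ a₂)) • (W *ᵥ a₁) - (φ ⬝ᵥ (W *ᵥ a₁)) • (W *ᵥ a₂) := by
    rw [ha', Matrix.mulVec_sub, Matrix.mulVec_smul, Matrix.mulVec_smul]
  have hφb : φ ⬝ᵥ (W *ᵥ a') = 0 := by
    rw [hWa', dotProduct_sub, dotProduct_smul, dotProduct_smul, smul_eq_mul, smul_eq_mul]
    ring
  have hψb : ψ ⬝ᵥ (W *ᵥ a') ≠ 0 := by
    rw [hWa', dotProduct_sub, dotProduct_smul, dotProduct_smul, smul_eq_mul, smul_eq_mul]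
    exact hne2
  refine ⟨W *ᵥ a', hφb, fun h => hψb (hψA _ h), ?_⟩
  have t1 := tw_conj (hA a' ha'A).2 hw
  rw [← hW, ← hWi] at t1
  have e1 : (φ ᵥ* Wi) ⬝ᵥ (W *ᵥ a') = 0 := by
    rw [← Matrix.dotProduct_mulVec, hW, hWi, incr_inv]
    exact (hA a' ha'A).1
  have e2 : (φ ᵥ* Wi) ⬝ᵥ a₁ ≠ 0 := by
    rw [← Matrix.dotProduct_mulVec]
    exact hne1
  have t2 := tw_comm t1 (hA a₁ h1A).2 e1 hφa₁ hφb e2
  exact t2.mono (le_of_eq (by ring)) (le_refl _)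

end Pool.Agent.Helper72.TV
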