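import Pool.Agent.Helper72.TV.Base
import Pool.Agent.Helper72.TV.Incr

/-! # TV-AllVec

All directions in the hyperplane `ker φ`.

Plan. `base`, `incr`, Comm may be still sorried. For `d = 2`: `ker φ = K v` (dimension 1), use `tw_smul`.
For `d ≥ 3`: `A₂ = span {v, b}` with `b` from `base` has finrank 2, and every `a = s v + t b ∈ A₂` has
`TW S (L + (8 L + 16 d³)) univ a φ` (`tw_smul`, `tw_add`, note `φ·b = 0`). With `incr`: if every
`a ∈ A` has cost `≤ L'` and `2 ≤ finrank A < d - 1`, then `A' = A ⊔ span {b}` has finrank one larger and cost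
`≤ L' + (4 L' + 4 d³)`. After `d - 3` steps the finrank is `d - 1`, so `A = ker φ` (`A ≤ ker φ` and equal
dimension). With `L ≥ 1` the cost in step `e` (`finrank = e`) is at most `C_e L`, where
`C_2 = 9 + 16 d³`, `C_{e+1} = 5 C_e + 4 d³`: prove by induction on `e` with `2 ≤ e ≤ d - 1` that there is
`C_e` depending only on `d`. Final constant: `C_{d-1}` (`C = 1` for `d = 2`). Take for instance
`C = (9 + 20 d³)^d` or define the recursion; the statement only needs existence.
-/

namespace Pool.Agent.Helper72.TV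

open Matrix Module

private noncomputable def allVec_f {K : Type*} [Field K] {d : ℕ} (φ : Fin d → K) :
    (Fin d → K) →ₗ[K] K where
  toFun a := φ ⬝ᵥ a
  map_add' a b := dotProduct_add φ a b
  map_smul' c a := by
    rw [dotProduct_smul]
    rfl

private theorem allVec_ker {K : Type*} [Field K] {d : ℕ} (φ a : Fin d → K) :
    a ∈ LinearMap.ker (allVec_f φ) ↔ φ ⬝ᵥ a = 0 := by
  rw [LinearMap.mem_ker]
  rfl

private theorem allVec_finrank {K : Type*} [Field K] {d : ℕ} {φ : Fin d → K} (hφ : φ ≠ 0) :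
    finrank K (LinearMap.ker (allVec_f φ)) + 1 = d := by
  have h0 : allVec_f φ ≠ 0 := by
    intro h
    apply hφ
    funext i
    have h1 := LinearMap.congr_fun h (Pi.single i 1)
    have h2 : allVec_f φ (Pi.single i 1) = φ i := by
      change φ ⬝ᵥ Pi.single i 1 = φ i
      rw [dotProduct_single, mul_one]
    rw [h2] at h1
    simpa using h1
  have h1 := Module.Dual.finrank_ker_add_one_of_ne_zero h0
  rw [h1, finrank_fin_fun]

private theorem allVec_ext {K : Type*} [Field K] {d : ℕ}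
    {S : Set (Matrix.SpecialLinearGroup (Fin d) K)} {φ b : Fin d → K}
    {A : Submodule K (Fin d → K)} {M N : ℕ}
    (hA : ∀ a ∈ A, φ ⬝ᵥ a = 0 ∧ TW S M Set.univ a φ) (hb : φ ⬝ᵥ b = 0)
    (hN : TW S N Set.univ b φ) :
    ∀ a ∈ A ⊔ Submodule.span K {b}, φ ⬝ᵥ a = 0 ∧ TW S (M + N) Set.univ a φ := by
  intro a ha
  obtain ⟨a', ha', c', hc', rfl⟩ := Submodule.mem_sup.1 ha
  obtain ⟨c, rfl⟩ := Submodule.mem_span_singleton.1 hc'
  have h0 : φ ⬝ᵥ (c • b) = 0 := by rw [dotProduct_smul, hb, smul_zero]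
  obtain ⟨h1, h2⟩ := hA a' ha'
  refine ⟨?_, tw_add h2 (tw_smul hN c) h0⟩
  rw [dotProduct_add, h1, h0, add_zero]

private theorem allVec_rank {K : Type*} [Field K] {d : ℕ} {b : Fin d → K}
    {A : Submodule K (Fin d → K)} (hb : b ∉ A) :
    finrank K ↥(A ⊔ Submodule.span K {b}) = finrank K A + 1 := by
  have hb0 : b ≠ 0 := by
    rintro rfl
    exact hb A.zero_mem
  have h1 := Submodule.finrank_sup_add_finrank_inf_eq A (Submodule.span K {b})
  have h2 : A ⊓ Submodule.span K {b} = ⊥ :=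
    disjoint_iff.1 ((Submodule.disjoint_span_singleton' hb0).2 hb)
  rw [h2, finrank_bot, add_zero, finrank_span_singleton hb0] at h1
  exact h1

private def allVec_c (d : ℕ) : ℕ → ℕ
  | 0 => 9 + 16 * d ^ 3
  | k + 1 => 5 * allVec_c d k + 4 * d ^ 3

theorem allVec (d : ℕ) (hd : 2 ≤ d) :
    ∃ C : ℕ, 1 ≤ C ∧ ∀ (K : Type) [Field K]
      (S : Set (Matrix.SpecialLinearGroup (Fin d) K)), Subgroup.closure S = ⊤ →
      ∀ (v φ : Fin d → K), v ≠ 0 → φ ≠ 0 → φ ⬝ᵥ v = 0 → ∀ L : ℕ, 1 ≤ L →
      TW S L Set.univ v φ → ∀ a : Fin d → K, φ ⬝ᵥ a = 0 → TW S (C * L) Set.univ a φ := by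
  rcases Nat.eq_or_lt_of_le hd with hd2 | hd3
  · refine ⟨1, le_rfl, ?_⟩
    intro K _ S _ v φ hv hφ hφv L _ hTW a ha
    have hr := allVec_finrank hφ
    have hle : Submodule.span K {v} ≤ LinearMap.ker (allVec_f φ) := by
      rw [Submodule.span_singleton_le_iff_mem, allVec_ker]
      exact hφv
    have heq : Submodule.span K {v} = LinearMap.ker (allVec_f φ) := by
      apply Submodule.eq_of_le_of_finrank_eq hle
      rw [finrank_span_singleton hv]
      omega
    have ha' : a ∈ Submodule.span K {v} := by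
      rw [heq, allVec_ker]
      exact ha
    obtain ⟨c, rfl⟩ := Submodule.mem_span_singleton.1 ha'
    rw [one_mul]
    exact tw_smul hTW c
  · refine ⟨allVec_c d (d - 3) + 1, by omega, ?_⟩
    intro K _ S hS v φ hv hφ hφv L hL hTW a ha
    have key : ∀ k, k + 3 ≤ d → ∃ A : Submodule K (Fin d → K), finrank K A = k + 2 ∧
        ∀ a ∈ A, φ ⬝ᵥ a = 0 ∧ TW S (allVec_c d k * L) Set.univ a φ := by
      intro k
      induction k with
      | zero =>
        intro _
        obtain ⟨b, hb1, hb2, hb3⟩ := base (by omega : 3 ≤ d) S hS v φ hv hφ hφv L hTW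
        have hA0 : ∀ a ∈ Submodule.span K {v}, φ ⬝ᵥ a = 0 ∧ TW S L Set.univ a φ := by
          intro a ha
          obtain ⟨c, rfl⟩ := Submodule.mem_span_singleton.1 ha
          exact ⟨by rw [dotProduct_smul, hφv, smul_zero], tw_smul hTW c⟩
        refine ⟨Submodule.span K {v} ⊔ Submodule.span K {b}, ?_, ?_⟩
        · rw [allVec_rank hb2, finrank_span_singleton hv]
        · intro a ha
          obtain ⟨h1, h2⟩ := allVec_ext hA0 hb1 hb3 a ha
          refine ⟨h1, h2.mono ?_ (Set.Subset.refl _)⟩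
          change L + (8 * L + 16 * d ^ 3) ≤ (9 + 16 * d ^ 3) * L
          have h3 : 16 * d ^ 3 ≤ 16 * d ^ 3 * L := Nat.le_mul_of_pos_right _ hL
          rw [Nat.add_mul]
          omega
      | succ k ih =>
        intro hk
        obtain ⟨A, hA1, hA2⟩ := ih (by omega)
        obtain ⟨b, hb1, hb2, hb3⟩ := incr S hS φ hφ A _ hA2 (by omega) (by omega)
        refine ⟨A ⊔ Submodule.span K {b}, ?_, ?_⟩
        · rw [allVec_rank hb2, hA1]
        · intro a ha
          obtain ⟨h1, h2⟩ := allVec_ext hA2 hb1 hb3 a ha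
          refine ⟨h1, h2.mono ?_ (Set.Subset.refl _)⟩
          change allVec_c d k * L + (4 * (allVec_c d k * L) + 4 * d ^ 3) ≤
            (5 * allVec_c d k + 4 * d ^ 3) * L
          have h3 : 4 * d ^ 3 ≤ 4 * d ^ 3 * L := Nat.le_mul_of_pos_right _ hL
          rw [Nat.add_mul, Nat.mul_assoc 5]
          omega
    obtain ⟨A, hA1, hA2⟩ := key (d - 3) (by omega)
    have hr := allVec_finrank hφ
    have hle : A ≤ LinearMap.ker (allVec_f φ) := by
      intro x hx
      rw [allVec_ker]
      exact (hA2 x hx).1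
    have heq : A = LinearMap.ker (allVec_f φ) := by
      apply Submodule.eq_of_le_of_finrank_eq hle
      omega
    have ha' : a ∈ A := by
      rw [heq, allVec_ker]
      exact ha
    refine (hA2 a ha').2.mono ?_ (Set.Subset.refl _)
    exact Nat.mul_le_mul_right _ (Nat.le_succ _)

end Pool.Agent.Helper72.TV
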