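import Pool.Agent.Helper72.TV.Comm
import Pool.Agent.Helper72.TV.Escape3
import Pool.Agent.Helper72.TV.ExSL

/-! # TV-Base

The first new direction in the hyperplane `ker φ` (`d ≥ 3`).

Plan. (`F h = par`.).
1. There is `h ∈ Words S d` with `φ ⬝ᵥ (h *ᵥ v) ≠ 0`: `escape` for the standard representation on `Fin d → K`
   (`Matrix.toLin'`/`mulVecLin`; finrank `d`); some `g ∈ SL_d(K)` has `φ ⬝ᵥ (g *ᵥ v) ≠ 0`: take `v'` with
   `φ ⬝ᵥ v' ≠ 0` and `g = 1 + vecMulVec v' ψ` with `ψ ⬝ᵥ v' = 0, ψ ⬝ᵥ v = 1` (`v, v'` are independent because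
   `φ ⬝ᵥ v = 0`), or use any transitivity argument (e.g. `exSL` with three independent vectors).
2. Fix this `h` and consider, for `g ∈ SL_d(K)`,
   `G(g) = (φ·gv)(φ·gv)((φ·hv) (φh⁻¹)·g⁻¹v) + (φ·gv)(φ·ghv)((φ·h⁻¹v) φ·g⁻¹v)`
   a sum as in `escape3` with `ι = Fin 2`, `α = β = φ`, `C = v`, `A = ![v, v]`, `B = ![v, h *ᵥ v]`,
   `γ = ![(φ·hv) • (φ ᵥ* h⁻¹), (φ·h⁻¹v) • φ]`.
   Existence of `g` with `G(g) ≠ 0`: choose `y ∉ span {v, hv}` with `(φ ᵥ* h⁻¹) ⬝ᵥ y ≠ 0` (possible as `d ≥ 3`: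
   the complement of a hyperplane spans), `Q ∈ ker φ`, `Q ∉ K v` (`dim ker φ = d - 1 ≥ 2`), `P ∉ ker φ`.
   `v, hv, y` are independent (`φ·hv ≠ 0 = φ·v`), and `P, Q, v` are independent. By `exSL` there is `g` with
   `g v = c P`, `g (hv) = Q`, `g y = v`, `c ≠ 0`. Then `φ·gv = c φ(P) ≠ 0`, `φ·ghv = 0`, `g⁻¹ v = y`, and
   `G(g) = (c φ(P))² (φ·hv) ((φ h⁻¹)·y) ≠ 0`.
   So there is `g ∈ Words S (d^3)` with `G(g) ≠ 0`; in particular `p₁ := φ·gv ≠ 0`.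
3. `(a₁, α₁) = (gv, φ g⁻¹)`: `TW S (L + 2 d³)`. `(a₂, α₂) = (ghv, φ h⁻¹ g⁻¹)`: `TW S (L + 2 (d³ + d))` (`tw_conj`).
   `α₁·a₂ = φ·hv ≠ 0`. Choose `x = -(φ·a₂) / ((α₁·a₂) p₁)` in `tw_conj_tv` (conjugate `(a₂, α₂)` by `(a₁, α₁)`):
   `b = a₂ + x (α₁·a₂) a₁` has `φ·b = 0`, and `β = α₂ - x (α₂·a₁) α₁` has
   `β·v = (α₂·v) - x (α₂·a₁)(α₁·v) = G(g) / (p₁ * (α₁·a₂) * p₁)`-like, nonzero, because
   `α₂·v = φ·h⁻¹g⁻¹v`, `α₂·a₁ = φ·h⁻¹v`, `α₁·v = φ·g⁻¹v`, `φ·a₂ = φ·ghv`. Also `β·b = 0`.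
   Cost `L + 2 (d³ + d) + 2 (L + 2 d³) = 3 L + 6 d³ + 2 d`.
4. `tw_comm` with `(a, α) := (b, β)` and `(b, β) := (v, φ)`: `φ·b = 0`, `β·v ≠ 0`, gives
   `TW S (2 (3 L + 6 d³ + 2 d + L)) univ b φ`, and `8 L + 12 d³ + 4 d ≤ 8 L + 16 d³`.
   `b ∉ span {v}`: if `b = c v` then `0 = β·b = c β·v`, so `c = 0`, `b = 0`; but `b = (1 + x a₁⊗α₁) a₂ ≠ 0`
   (or: `b = 0` would give `a₂ ∈ K a₁`, so `α₁·a₂ = 0`, contradiction).
-/

namespace Pool.Agent.Helper72.TV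

open Matrix Module

section aux

variable {K : Type*} [Field K] {d : ℕ}

private theorem exists_dot_ne (φ : Fin d → K) (hφ : φ ≠ 0) : ∃ P : Fin d → K, φ ⬝ᵥ P ≠ 0 := by
  obtain ⟨i, hi⟩ := Function.ne_iff.1 hφ
  refine ⟨Pi.single i 1, ?_⟩
  rw [dotProduct_single, mul_one]
  exact hi

private theorem dot_conj (w w2 : Matrix.SpecialLinearGroup (Fin d) K) (φ a : Fin d → K) :
    (φ ᵥ* (w : Matrix (Fin d) (Fin d) K)) ⬝ᵥ ((w2 : Matrix (Fin d) (Fin d) K) *ᵥ a) =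
      φ ⬝ᵥ (((w * w2 : Matrix.SpecialLinearGroup (Fin d) K) : Matrix (Fin d) (Fin d) K) *ᵥ a) := by
  rw [← dotProduct_mulVec, mulVec_mulVec, ← Matrix.SpecialLinearGroup.coe_mul]

private theorem exists_not_mem (hd : 3 ≤ d) (a b : Fin d → K) :
    ∃ z : Fin d → K, z ∉ Submodule.span K {a, b} := by
  by_contra hcon
  push Not at hcon
  have h1 : Submodule.span K ({a, b} : Set (Fin d → K)) = ⊤ := by
    rw [eq_top_iff]
    exact fun z _ => hcon z
  have h2 : Module.finrank K (Submodule.span K ({a, b} : Set (Fin d → K))) ≤ 2 := by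
    classical
    have h3 := finrank_span_finset_le_card (R := K) ({a, b} : Finset (Fin d → K))
    have h4 : ((({a, b} : Finset (Fin d → K)) : Set (Fin d → K))) = {a, b} := by simp
    have h5 : ({a, b} : Finset (Fin d → K)).card ≤ 2 := Finset.card_le_two
    rw [Set.finrank, h4] at h3
    exact h3.trans h5
  rw [h1, finrank_top, Module.finrank_fin_fun] at h2
  omega

private theorem exists_good (hd : 3 ≤ d) (a b ψ : Fin d → K) (hψ : ψ ≠ 0) :
    ∃ z : Fin d → K, z ∉ Submodule.span K {a, b} ∧ ψ ⬝ᵥ z ≠ 0 := by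
  obtain ⟨z, hz⟩ := exists_not_mem hd a b
  obtain ⟨y, hy⟩ := exists_dot_ne ψ hψ
  by_cases h1 : ψ ⬝ᵥ z = 0
  · by_cases h2 : y ∈ Submodule.span K {a, b}
    · refine ⟨y + z, fun h3 => hz ?_, ?_⟩
      · have := Submodule.sub_mem _ h3 h2
        rwa [add_sub_cancel_left] at this
      · rw [dotProduct_add, h1, add_zero]
        exact hy
    · exact ⟨y, h2, hy⟩
  · exact ⟨z, hz, h1⟩

private theorem exists_ker (hd : 3 ≤ d) (φ v : Fin d → K) :
    ∃ Q : Fin d → K, φ ⬝ᵥ Q = 0 ∧ Q ∉ Submodule.span K {v} := by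
  by_contra hcon
  push Not at hcon
  set f : (Fin d → K) →ₗ[K] K :=
    { toFun := fun w => φ ⬝ᵥ w
      map_add' := fun x y => dotProduct_add _ _ _
      map_smul' := fun c x => by simp } with hf
  have h1 : LinearMap.ker f ≤ Submodule.span K {v} := by
    intro w hw
    exact hcon w hw
  have h2 := LinearMap.finrank_range_add_finrank_ker f
  have h3 : Module.finrank K (LinearMap.range f) ≤ 1 := by
    have := Submodule.finrank_le (LinearMap.range f)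
    rwa [Module.finrank_self] at this
  have h4 : Module.finrank K (LinearMap.ker f) ≤ 1 :=
    (Submodule.finrank_mono h1).trans (by
      classical
      have h3 := finrank_span_finset_le_card (R := K) ({v} : Finset (Fin d → K))
      rw [Set.finrank, Finset.coe_singleton, Finset.card_singleton] at h3
      exact h3)
  rw [Module.finrank_fin_fun] at h2
  omega

private theorem exists_g (hd : 3 ≤ d) (v w φ ψ : Fin d → K) (hv : v ≠ 0) (hφv : φ ⬝ᵥ v = 0)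
    (hw : φ ⬝ᵥ w ≠ 0) (hψ : ψ ≠ 0) :
    ∃ g : Matrix.SpecialLinearGroup (Fin d) K,
      φ ⬝ᵥ ((g : Matrix (Fin d) (Fin d) K) *ᵥ v) ≠ 0 ∧
      φ ⬝ᵥ ((g : Matrix (Fin d) (Fin d) K) *ᵥ w) = 0 ∧
      ψ ⬝ᵥ (((g⁻¹ : Matrix.SpecialLinearGroup (Fin d) K) : Matrix (Fin d) (Fin d) K) *ᵥ v) ≠ 0 := by
  obtain ⟨y, hy1, hy2⟩ := exists_good hd v w ψ hψ
  obtain ⟨Q, hQ1, hQ2⟩ := exists_ker hd φ v
  have hx : LinearIndependent K ![v, w, y] := by
    rw [Fintype.linearIndependent_iff]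
    intro c hc
    rw [Fin.sum_univ_three] at hc
    simp only [Matrix.cons_val_zero, Matrix.cons_val_one, Matrix.cons_val] at hc
    have h2 : c 2 = 0 := by
      by_contra h2
      apply hy1
      have e : y = (-(c 2)⁻¹ * c 0) • v + (-(c 2)⁻¹ * c 1) • w := by
        have e1 : c 2 • y = -(c 0 • v + c 1 • w) := by
          rw [eq_neg_iff_add_eq_zero, add_comm]; exact hc
        have e2 : y = (c 2)⁻¹ • (c 2 • y) := by rw [smul_smul, inv_mul_cancel₀ h2, one_smul]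
        rw [e2, e1, smul_neg, smul_add, smul_smul, smul_smul, neg_add, neg_mul, neg_mul, neg_smul,
          neg_smul]
      rw [e]
      exact Submodule.add_mem _ (Submodule.smul_mem _ _ (Submodule.subset_span (by simp)))
        (Submodule.smul_mem _ _ (Submodule.subset_span (by simp)))
    rw [h2, zero_smul, add_zero] at hc
    have h1 : c 1 = 0 := by
      have := congrArg (fun z => φ ⬝ᵥ z) hc
      simp only [dotProduct_add, dotProduct_smul, hφv, dotProduct_zero, smul_eq_mul, mul_zero,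
        zero_add] at this
      exact (mul_eq_zero.1 this).resolve_right hw
    rw [h1, zero_smul, add_zero] at hc
    have h0 : c 0 = 0 := (smul_eq_zero.1 hc).resolve_right hv
    intro i
    fin_cases i
    · exact h0
    · exact h1
    · exact h2
  have hyy : LinearIndependent K ![w, Q, v] := by
    rw [Fintype.linearIndependent_iff]
    intro c hc
    rw [Fin.sum_univ_three] at hc
    simp only [Matrix.cons_val_zero, Matrix.cons_val_one, Matrix.cons_val] at hc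
    have h0 : c 0 = 0 := by
      have := congrArg (fun z => φ ⬝ᵥ z) hc
      simp only [dotProduct_add, dotProduct_smul, hφv, hQ1, dotProduct_zero, smul_eq_mul, mul_zero,
        add_zero] at this
      exact (mul_eq_zero.1 this).resolve_right hw
    rw [h0, zero_smul, zero_add] at hc
    have h1 : c 1 = 0 := by
      by_contra h1
      apply hQ2
      have e : Q = (-(c 1)⁻¹ * c 2) • v := by
        have e1 : c 1 • Q = -(c 2 • v) := by
          rw [eq_neg_iff_add_eq_zero]; exact hc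
        have e2 : Q = (c 1)⁻¹ • (c 1 • Q) := by rw [smul_smul, inv_mul_cancel₀ h1, one_smul]
        rw [e2, e1, smul_neg, smul_smul, neg_mul, neg_smul]
      rw [e]
      exact Submodule.smul_mem _ _ (Submodule.mem_span_singleton_self v)
    rw [h1, zero_smul, zero_add] at hc
    have h2 : c 2 = 0 := (smul_eq_zero.1 hc).resolve_right hv
    intro i
    fin_cases i
    · exact h0
    · exact h1
    · exact h2
  obtain ⟨g, c, hc, g0, g1, g2⟩ := exSL _ _ hx hyy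
  simp only [Matrix.cons_val_zero, Matrix.cons_val_one, Matrix.cons_val] at g0 g1 g2
  refine ⟨g, ?_, ?_, ?_⟩
  · rw [g0, dotProduct_smul, smul_eq_mul]
    exact mul_ne_zero hc hw
  · rw [g1, hQ1]
  · have e : ((g⁻¹ : Matrix.SpecialLinearGroup (Fin d) K) : Matrix (Fin d) (Fin d) K) *ᵥ v = y := by
      rw [← g2, mulVec_mulVec, ← Matrix.SpecialLinearGroup.coe_mul, inv_mul_cancel,
        Matrix.SpecialLinearGroup.coe_one, one_mulVec]
    rw [e]
    exact hy2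

/-- the standard representation -/
private noncomputable def stdRep : Matrix.SpecialLinearGroup (Fin d) K →* Module.End K (Fin d → K) where
  toFun g := Matrix.mulVecLin (g : Matrix (Fin d) (Fin d) K)
  map_one' := by
    ext w
    simp
  map_mul' g g2 := by
    rw [Matrix.SpecialLinearGroup.coe_mul, Matrix.mulVecLin_mul]
    rfl

end aux

theorem base {K : Type*} [Field K] {d : ℕ} (hd : 3 ≤ d)
    (S : Set (Matrix.SpecialLinearGroup (Fin d) K)) (hS : Subgroup.closure S = ⊤)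
    (v φ : Fin d → K) (hv : v ≠ 0) (hφ : φ ≠ 0) (hφv : φ ⬝ᵥ v = 0) (L : ℕ)
    (h : TW S L Set.univ v φ) :
    ∃ b : Fin d → K, φ ⬝ᵥ b = 0 ∧ b ∉ Submodule.span K {v} ∧
      TW S (8 * L + 16 * d ^ 3) Set.univ b φ := by
  have htop : ∀ g : Matrix.SpecialLinearGroup (Fin d) K, g ∈ Subgroup.closure S := fun g => by
    rw [hS]; exact Subgroup.mem_top g
  -- step 1
  obtain ⟨hh, hhw, hh1⟩ : ∃ w ∈ Words S d, φ ⬝ᵥ ((w : Matrix (Fin d) (Fin d) K) *ᵥ v) ≠ 0 := by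
    obtain ⟨P, hP⟩ := exists_dot_ne φ hφ
    obtain ⟨g, hg, -, -⟩ := exists_g hd v P φ φ hv hφv hP hφ
    obtain ⟨w, hw, hw1⟩ := escape (stdRep (K := K) (d := d)) S v
      ({ toFun := fun w => φ ⬝ᵥ w
         map_add' := fun x y => dotProduct_add _ _ _
         map_smul' := fun c x => by simp } : (Fin d → K) →ₗ[K] K) g (htop g) hg
    rw [Module.finrank_fin_fun] at hw
    exact ⟨w, hw, hw1⟩
  set H : Matrix (Fin d) (Fin d) K := (hh : Matrix (Fin d) (Fin d) K) with hH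
  set Hi : Matrix (Fin d) (Fin d) K :=
    ((hh⁻¹ : Matrix.SpecialLinearGroup (Fin d) K) : Matrix (Fin d) (Fin d) K) with hHi
  have hψ : φ ᵥ* Hi ≠ 0 := by
    intro h0
    obtain ⟨P, hP⟩ := exists_dot_ne φ hφ
    apply hP
    have e : φ ⬝ᵥ P = (φ ᵥ* Hi) ⬝ᵥ (H *ᵥ P) := by
      rw [hHi, hH, dot_conj, inv_mul_cancel, Matrix.SpecialLinearGroup.coe_one, one_mulVec]
    rw [e, h0, zero_dotProduct]
  -- step 2
  obtain ⟨g0, k1, k2, k3⟩ := exists_g hd v (H *ᵥ v) φ (φ ᵥ* Hi) hv hφv hh1 hψ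
  obtain ⟨g, hgw, hg⟩ := escape3 S ![v, v] ![v, H *ᵥ v]
    ![(φ ⬝ᵥ (H *ᵥ v)) • (φ ᵥ* Hi), (φ ⬝ᵥ (Hi *ᵥ v)) • φ] φ φ v g0 (htop g0) (by
      rw [Fin.sum_univ_two]
      simp only [Matrix.cons_val_zero, Matrix.cons_val_one, smul_dotProduct, k2, mul_zero,
        zero_mul, add_zero, smul_eq_mul]
      exact mul_ne_zero (mul_ne_zero k1 k1) (mul_ne_zero hh1 k3))
  rw [Fin.sum_univ_two] at hg
  simp only [Matrix.cons_val_zero, Matrix.cons_val_one, smul_dotProduct, smul_eq_mul] at hg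
  set p1 : K := φ ⬝ᵥ ((g : Matrix (Fin d) (Fin d) K) *ᵥ v) with hp1
  have hp1ne : p1 ≠ 0 := by
    intro h0
    apply hg
    rw [h0]
    ring
  -- step 3
  have t1 := tw_conj h hgw
  have t2 := tw_conj h (mul_mem_words hgw hhw)
  set a1 : Fin d → K := (g : Matrix (Fin d) (Fin d) K) *ᵥ v with ha1
  set α1 : Fin d → K :=
    φ ᵥ* ((g⁻¹ : Matrix.SpecialLinearGroup (Fin d) K) : Matrix (Fin d) (Fin d) K) with hα1
  set a2 : Fin d → K :=
    ((g * hh : Matrix.SpecialLinearGroup (Fin d) K) : Matrix (Fin d) (Fin d) K) *ᵥ v with ha2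
  set α2 : Fin d → K :=
    φ ᵥ* (((g * hh)⁻¹ : Matrix.SpecialLinearGroup (Fin d) K) : Matrix (Fin d) (Fin d) K) with hα2
  have d11 : α1 ⬝ᵥ a1 = 0 := by
    rw [hα1, ha1, dot_conj, inv_mul_cancel, Matrix.SpecialLinearGroup.coe_one, one_mulVec, hφv]
  have d22 : α2 ⬝ᵥ a2 = 0 := by
    rw [hα2, ha2, dot_conj, inv_mul_cancel, Matrix.SpecialLinearGroup.coe_one, one_mulVec, hφv]
  have d12 : α1 ⬝ᵥ a2 = φ ⬝ᵥ (H *ᵥ v) := by
    rw [hα1, ha2, dot_conj, inv_mul_cancel_left, hH]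
  have d21 : α2 ⬝ᵥ a1 = φ ⬝ᵥ (Hi *ᵥ v) := by
    have e : (g * hh)⁻¹ * g = hh⁻¹ := by group
    rw [hα2, ha1, dot_conj, e, hHi]
  have dv1 : α1 ⬝ᵥ v = φ ⬝ᵥ (((g⁻¹ : Matrix.SpecialLinearGroup (Fin d) K) :
      Matrix (Fin d) (Fin d) K) *ᵥ v) := by
    rw [hα1, ← dotProduct_mulVec]
  have dv2 : α2 ⬝ᵥ v = (φ ᵥ* Hi) ⬝ᵥ (((g⁻¹ : Matrix.SpecialLinearGroup (Fin d) K) :
      Matrix (Fin d) (Fin d) K) *ᵥ v) := by
    rw [hα2, ← dotProduct_mulVec, hHi, dot_conj, _root_.mul_inv_rev]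
  have da2 : φ ⬝ᵥ a2 = φ ⬝ᵥ ((g : Matrix (Fin d) (Fin d) K) *ᵥ (H *ᵥ v)) := by
    rw [ha2, hH, mulVec_mulVec, Matrix.SpecialLinearGroup.coe_mul]
  rw [← dv1, ← dv2, ← da2, ← d12, ← d21] at hg
  have h12 : α1 ⬝ᵥ a2 ≠ 0 := by rw [d12]; exact hh1
  set x : K := -(φ ⬝ᵥ a2) / ((α1 ⬝ᵥ a2) * p1) with hx
  have t3 := tw_conj_tv t1 d11 t2 x
  set b : Fin d → K := a2 + (x * (α1 ⬝ᵥ a2)) • a1 with hb
  set β : Fin d → K := α2 - (x * (α2 ⬝ᵥ a1)) • α1 with hβ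
  have hφb : φ ⬝ᵥ b = 0 := by
    rw [hb, dotProduct_add, dotProduct_smul, smul_eq_mul, hx]
    have : φ ⬝ᵥ a1 = p1 := rfl
    rw [this]
    field_simp
    ring
  have hβb : β ⬝ᵥ b = 0 := by
    rw [hβ, hb]
    simp only [sub_dotProduct, dotProduct_add, smul_dotProduct, dotProduct_smul, smul_eq_mul,
      d11, d22]
    ring
  have hβv : β ⬝ᵥ v ≠ 0 := by
    intro h0
    apply hg
    rw [hβ, sub_dotProduct, smul_dotProduct, smul_eq_mul, hx] at h0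
    field_simp at h0
    have e : p1 * p1 * ((α1 ⬝ᵥ a2) * (α2 ⬝ᵥ v)) + p1 * (φ ⬝ᵥ a2) * ((α2 ⬝ᵥ a1) * (α1 ⬝ᵥ v)) =
        p1 * ((α1 ⬝ᵥ a2) * p1 * (α2 ⬝ᵥ v) + (φ ⬝ᵥ a2) * ((α2 ⬝ᵥ a1) * (α1 ⬝ᵥ v))) := by ring
    rw [e]
    apply mul_eq_zero_of_right
    linear_combination h0
  have t4 := tw_comm t3 h hβb hφv hφb hβv
  refine ⟨b, hφb, ?_, t4.mono ?_ le_rfl⟩
  · intro hmem
    obtain ⟨c, hc⟩ := Submodule.mem_span_singleton.1 hmem
    have e1 : c = 0 := by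
      rw [← hc, dotProduct_smul, smul_eq_mul] at hβb
      exact (mul_eq_zero.1 hβb).resolve_right hβv
    have e2 : b = 0 := by rw [← hc, e1, zero_smul]
    apply h12
    have e3 : α1 ⬝ᵥ b = α1 ⬝ᵥ a2 := by
      rw [hb, dotProduct_add, dotProduct_smul, d11, smul_zero, add_zero]
    rw [← e3, e2, dotProduct_zero]
  · have h3 : d ≤ d ^ 3 := Nat.le_self_pow (by norm_num) d
    omega

end Pool.Agent.Helper72.TV
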