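import Pool.Agent.Helper72.TV.Defs

/-! # TV-Comm

Elementary calculus of the relation `TW S L Set.univ a α` (all `1 + x (a ⊗ α)`, `x ∈ K`, are short words).

Plan. `vecMulVec a α * vecMulVec b β = (α ⬝ᵥ b) • vecMulVec a β`.
* `tw_conj`: `w * (1 + x • vecMulVec a α) * w⁻¹ = 1 + x • vecMulVec (w *ᵥ a) (α ᵥ* w⁻¹)`; `conj_mem_words`.
* `tw_add`: `(1 + x • vecMulVec a α) * (1 + x • vecMulVec b α) = 1 + x • vecMulVec (a + b) α` as `α ⬝ᵥ b = 0`.
* `tw_smul`: replace `x` by `x * c`.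
* `tw_conj_tv`: conjugate by the element `g ∈ Words S L₁` with matrix `1 + x • vecMulVec a α`, whose inverse
  has the matrix `1 - x • vecMulVec a α`.
* `tw_comm`: for `x : K` take `g₁ ∈ Words S L₁` with matrix `1 + (x / (α ⬝ᵥ b)) • vecMulVec a α` and
  `g₂ ∈ Words S L₂` with matrix `1 + vecMulVec b β`; with `A = (x/(α ⬝ᵥ b)) • vecMulVec a α`, `B = vecMulVec b β`:
  `A² = 0, B² = 0, B A = 0` and `A B = x • vecMulVec a β`, and
  `(1 + A) (1 + B) (1 - A) (1 - B) = 1 + A B`. So `g₁ g₂ g₁⁻¹ g₂⁻¹` is the required word.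
-/

namespace Pool.Agent.Helper72.TV

open Matrix Module

variable {K : Type*} [Field K] {d : ℕ} {S : Set (Matrix.SpecialLinearGroup (Fin d) K)}

private theorem vmv_mul (a α b β : Fin d → K) :
    vecMulVec a α * vecMulVec b β = (α ⬝ᵥ b) • vecMulVec a β := by
  rw [vecMulVec_mul_vecMulVec, vecMulVec_smul]

private theorem coe_mul_inv (g : Matrix.SpecialLinearGroup (Fin d) K) :
    (g : Matrix (Fin d) (Fin d) K) * ((g⁻¹ : Matrix.SpecialLinearGroup (Fin d) K) : Matrix (Fin d) (Fin d) K) = 1 := by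
  rw [← Matrix.SpecialLinearGroup.coe_mul, mul_inv_cancel, Matrix.SpecialLinearGroup.coe_one]

private theorem coe_inv_mul (g : Matrix.SpecialLinearGroup (Fin d) K) :
    ((g⁻¹ : Matrix.SpecialLinearGroup (Fin d) K) : Matrix (Fin d) (Fin d) K) * (g : Matrix (Fin d) (Fin d) K) = 1 := by
  rw [← Matrix.SpecialLinearGroup.coe_mul, inv_mul_cancel, Matrix.SpecialLinearGroup.coe_one]

private theorem inv_coe_of {g : Matrix.SpecialLinearGroup (Fin d) K} {A : Matrix (Fin d) (Fin d) K}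
    (h : (g : Matrix (Fin d) (Fin d) K) = 1 + A) (hA : A * A = 0) :
    ((g⁻¹ : Matrix.SpecialLinearGroup (Fin d) K) : Matrix (Fin d) (Fin d) K) = 1 - A := by
  have h1 : (g : Matrix (Fin d) (Fin d) K) * (1 - A) = 1 := by
    rw [h, add_mul, one_mul, mul_sub, mul_one, hA]
    abel
  calc ((g⁻¹ : Matrix.SpecialLinearGroup (Fin d) K) : Matrix (Fin d) (Fin d) K)
      = ((g⁻¹ : Matrix.SpecialLinearGroup (Fin d) K) : Matrix (Fin d) (Fin d) K) *
          ((g : Matrix (Fin d) (Fin d) K) * (1 - A)) := by rw [h1, mul_one]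
    _ = 1 - A := by rw [← mul_assoc, coe_inv_mul, one_mul]

theorem tw_conj {L m : ℕ} {a α : Fin d → K} (h : TW S L Set.univ a α)
    {w : Matrix.SpecialLinearGroup (Fin d) K} (hw : w ∈ Words S m) :
    TW S (L + 2 * m) Set.univ ((w : Matrix (Fin d) (Fin d) K) *ᵥ a)
      (α ᵥ* ((w⁻¹ : Matrix.SpecialLinearGroup (Fin d) K) : Matrix (Fin d) (Fin d) K)) := by
  intro x hx
  obtain ⟨g, hg, h1⟩ := h x hx
  refine ⟨w * g * w⁻¹, conj_mem_words hw hg, ?_⟩
  rw [Matrix.SpecialLinearGroup.coe_mul, Matrix.SpecialLinearGroup.coe_mul, h1, mul_add, mul_one,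
    add_mul, coe_mul_inv, mul_smul_comm, smul_mul_assoc, mul_vecMulVec, vecMulVec_mul]

theorem tw_add {L M : ℕ} {a b α : Fin d → K} (ha : TW S L Set.univ a α)
    (hb : TW S M Set.univ b α) (h0 : α ⬝ᵥ b = 0) : TW S (L + M) Set.univ (a + b) α := by
  intro x hx
  obtain ⟨g, hg, h1⟩ := ha x hx
  obtain ⟨g', hg', h2⟩ := hb x hx
  refine ⟨g * g', mul_mem_words hg hg', ?_⟩
  rw [Matrix.SpecialLinearGroup.coe_mul, h1, h2, add_mul, one_mul, mul_add, mul_one,
    smul_mul_smul_comm, vmv_mul, h0, zero_smul, smul_zero, add_zero, add_vecMulVec, smul_add]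
  abel

theorem tw_smul {L : ℕ} {a α : Fin d → K} (ha : TW S L Set.univ a α) (c : K) :
    TW S L Set.univ (c • a) α := by
  intro x _
  obtain ⟨g, hg, h1⟩ := ha (x * c) (Set.mem_univ _)
  refine ⟨g, hg, ?_⟩
  rw [h1, smul_vecMulVec, smul_smul]

theorem tw_smul' {L : ℕ} {a α : Fin d → K} (ha : TW S L Set.univ a α) (c : K) :
    TW S L Set.univ a (c • α) := by
  intro x _
  obtain ⟨g, hg, h1⟩ := ha (x * c) (Set.mem_univ _)
  refine ⟨g, hg, ?_⟩
  rw [h1, vecMulVec_smul, smul_smul]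

theorem tw_conj_tv {L M : ℕ} {a α b β : Fin d → K} (ha : TW S L Set.univ a α)
    (h0 : α ⬝ᵥ a = 0) (hb : TW S M Set.univ b β) (x : K) :
    TW S (M + 2 * L) Set.univ (b + (x * (α ⬝ᵥ b)) • a) (β - (x * (β ⬝ᵥ a)) • α) := by
  obtain ⟨g, hg, h1⟩ := ha x (Set.mem_univ _)
  have hA : (x • vecMulVec a α) * (x • vecMulVec a α) = 0 := by
    rw [smul_mul_smul_comm, vmv_mul, h0, zero_smul, smul_zero]
  have h2 := inv_coe_of h1 hA
  have h3 := tw_conj hb hg
  rw [h2, h1] at h3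
  have e1 : (1 + x • vecMulVec a α) *ᵥ b = b + (x * (α ⬝ᵥ b)) • a := by
    rw [add_mulVec, one_mulVec, smul_mulVec, vecMulVec_mulVec]
    congr 1
    funext k
    simp
    ring
  have e2 : β ᵥ* (1 - x • vecMulVec a α) = β - (x * (β ⬝ᵥ a)) • α := by
    rw [vecMul_sub, vecMul_one, vecMul_smul, vecMul_vecMulVec, smul_smul]
  rwa [e1, e2] at h3

theorem tw_comm {L M : ℕ} {a α b β : Fin d → K} (ha : TW S L Set.univ a α)
    (hb : TW S M Set.univ b β) (h1 : α ⬝ᵥ a = 0) (h2 : β ⬝ᵥ b = 0) (h3 : β ⬝ᵥ a = 0)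
    (h4 : α ⬝ᵥ b ≠ 0) : TW S (2 * (L + M)) Set.univ a β := by
  intro x _
  obtain ⟨g, hg, e1⟩ := ha (x / (α ⬝ᵥ b)) (Set.mem_univ _)
  obtain ⟨g', hg', e2⟩ := hb 1 (Set.mem_univ _)
  rw [one_smul] at e2
  have hA : ((x / (α ⬝ᵥ b)) • vecMulVec a α) * ((x / (α ⬝ᵥ b)) • vecMulVec a α) = 0 := by
    rw [smul_mul_smul_comm, vmv_mul, h1, zero_smul, smul_zero]
  have hB : vecMulVec b β * vecMulVec b β = 0 := by
    rw [vmv_mul, h2, zero_smul]
  have hBA : vecMulVec b β * ((x / (α ⬝ᵥ b)) • vecMulVec a α) = 0 := by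
    rw [mul_smul_comm, vmv_mul, h3, zero_smul, smul_zero]
  have hAB : ((x / (α ⬝ᵥ b)) • vecMulVec a α) * vecMulVec b β = x • vecMulVec a β := by
    rw [smul_mul_assoc, vmv_mul, smul_smul, div_mul_cancel₀ _ h4]
  have i1 := inv_coe_of e1 hA
  have i2 := inv_coe_of e2 hB
  refine ⟨g * g' * g⁻¹ * g'⁻¹, ?_, ?_⟩
  · have h5 := mul_mem_words (mul_mem_words (mul_mem_words hg hg') (inv_mem_words hg)) (inv_mem_words hg')
    refine words_mono ?_ h5
    omega
  · rw [Matrix.SpecialLinearGroup.coe_mul, Matrix.SpecialLinearGroup.coe_mul,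
      Matrix.SpecialLinearGroup.coe_mul, e1, e2, i1, i2, ← hAB]
    generalize (x / (α ⬝ᵥ b)) • vecMulVec a α = A at hA hBA
    generalize vecMulVec b β = B at hB hBA
    have s1 : (1 + A) * (1 + B) = 1 + A + B + A * B := by
      rw [add_mul, one_mul, mul_add, mul_one]
      abel
    have s2 : (1 + A + B + A * B) * (1 - A) = 1 + B + A * B := by
      have t1 : A * B * A = 0 := by rw [mul_assoc, hBA, mul_zero]
      simp only [mul_sub, add_mul, one_mul, mul_one, hA, hBA, t1]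
      abel
    have s3 : (1 + B + A * B) * (1 - B) = 1 + A * B := by
      have t1 : A * B * B = 0 := by rw [mul_assoc, hB, mul_zero]
      simp only [mul_sub, add_mul, one_mul, mul_one, hB, t1]
      abel
    rw [s1, s2, s3]

end Pool.Agent.Helper72.TV
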