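import Pool.Agent.Helper72.TV.Defs

/-! # TV-Count

Many different bottom rows of short words in the letters `u(x)`, `v(lam y)`, `x, y ∈ k`.

Plan. `r = finrank k k⟮lam⟯ = (minpoly k lam).natDegree` (`IntermediateField.adjoin.finrank`), `r ≥ 1`.
A row is `(c, d)`; right multiplication by `vv (lam * y)` is `(c, d) ↦ (c + d * lam * y, d)` and by
`uu x` it is `(c, d) ↦ (c, d + c * x)`; start with the row `(0, 1)`.
Polynomial version: for sequences `y_1, x_1, y_2, x_2, ..., y_r, x_r` in `k` put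
`C_0 = 0, D_0 = 1, C_j = C_{j-1} + X * y_j * D_{j-1}, D_j = D_{j-1} + x_j * C_j` in `k[X]`.
Induction on `j`: if `y_i ≠ 0` for `i ≤ j` and `x_i ≠ 0` for `i < j` then
`C_j = X * C'_j` with `C'_j` of degree exactly `j - 1`, `D_j = 1 + X * D'_j` with `natDegree D'_j ≤ j - 1`,
and if also `x_j ≠ 0` then `natDegree D_j = j`.
Injectivity of `(y, x) ↦ (C_r, D_r)` on these sequences (`x_r` arbitrary): the coefficient of `X^r` in
`D_r = D_{r-1} + x_r C_r` is `x_r * lead(C_r)` and `lead(C_r) ≠ 0`, so `x_r` is determined, then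
`D_{r-1}`; the coefficient of `X^r` in `C_r = C_{r-1} + X y_r D_{r-1}` is `y_r * lead(D_{r-1})`,
so `y_r` and `C_{r-1}` are determined; induction.
Evaluation at `lam` is injective on the pairs `(C'_r, D'_r)` because both have degree `< r`
(a polynomial of degree `< r` vanishing at `lam` is zero), and `lam ≠ 0`; so the rows
`(C_r(lam), D_r(lam))` are pairwise different; they have entries in `k⟮lam⟯`, and they are the bottom rows
of the word `vv(lam y_1) uu(x_1) ... vv(lam y_r) uu(x_r)` of length `2 r`.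
Number of sequences: `(|k|-1)^r * (|k|-1)^(r-1) * |k|`.
A convenient formulation: prove by induction on `j ≤ r` that there is a finset `P_j` of pairs
`(C, D)` of polynomials with the stated degree conditions (with `D` of degree exactly `j`, i.e.
`x_j ≠ 0`) of cardinality `(|k|-1)^(2j)` such that `(C(lam), D(lam))` is the bottom row of an element of
`Words (Letters k lam) (2 j)`; the last step allows `x_r = 0`.
-/

namespace Pool.Agent.Helper72.TV

open Matrix Module IntermediateField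

private noncomputable def cntMap {k : Type*} [Field k] (q : ((Polynomial k × Polynomial k) × k) × k) :
    Polynomial k × Polynomial k :=
  (q.1.1.1 + Polynomial.C q.1.2 * Polynomial.X * q.1.1.2,
    q.1.1.2 + Polynomial.C q.2 * (q.1.1.1 + Polynomial.C q.1.2 * Polynomial.X * q.1.1.2))

/-- the conditions on the pairs without the last one -/
private def CntInv {k : Type*} [Field k] (j : ℕ) (q : Polynomial k × Polynomial k) : Prop :=
  q.1.natDegree ≤ j ∧ q.2.natDegree ≤ j ∧ q.1.coeff 0 = 0 ∧ q.2.coeff 0 = 1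

private def CntWd (k : Type*) {K : Type*} [Field k] [Field K] [Algebra k K] (lam : K) (j : ℕ)
    (q : Polynomial k × Polynomial k) : Prop :=
  ∃ g ∈ Words (Letters k lam) (2 * j), (g : Matrix (Fin 2) (Fin 2) K) 1 0 =
    Polynomial.aeval lam q.1 ∧ (g : Matrix (Fin 2) (Fin 2) K) 1 1 = Polynomial.aeval lam q.2

private lemma cnt_coeff1 {k : Type*} [Field k] {j : ℕ} (q : ((Polynomial k × Polynomial k) × k) × k)
    (h : CntInv j q.1.1) : (cntMap q).1.coeff (j + 1) = q.1.2 * q.1.1.2.coeff j := by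
  obtain ⟨⟨⟨c, d⟩, y⟩, x⟩ := q
  obtain ⟨h1, -, -, -⟩ := h
  change (c + Polynomial.C y * Polynomial.X * d).coeff (j + 1) = y * d.coeff j
  rw [Polynomial.coeff_add, mul_assoc, Polynomial.coeff_C_mul, Polynomial.coeff_X_mul,
    Polynomial.coeff_eq_zero_of_natDegree_lt (lt_of_le_of_lt h1 (Nat.lt_succ_self j)), zero_add]

private lemma cnt_coeff2 {k : Type*} [Field k] {j : ℕ} (q : ((Polynomial k × Polynomial k) × k) × k)
    (h : CntInv j q.1.1) : (cntMap q).2.coeff (j + 1) = q.2 * (cntMap q).1.coeff (j + 1) := by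
  obtain ⟨⟨⟨c, d⟩, y⟩, x⟩ := q
  obtain ⟨-, h2, -, -⟩ := h
  change (d + Polynomial.C x * (c + Polynomial.C y * Polynomial.X * d)).coeff (j + 1) =
    x * (c + Polynomial.C y * Polynomial.X * d).coeff (j + 1)
  rw [Polynomial.coeff_add, Polynomial.coeff_C_mul,
    Polynomial.coeff_eq_zero_of_natDegree_lt (lt_of_le_of_lt h2 (Nat.lt_succ_self j)), zero_add]

private lemma cnt_inv {k : Type*} [Field k] {j : ℕ} (q : ((Polynomial k × Polynomial k) × k) × k)
    (h : CntInv j q.1.1) : CntInv (j + 1) (cntMap q) := by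
  obtain ⟨⟨⟨c, d⟩, y⟩, x⟩ := q
  obtain ⟨h1, h2, h3, h4⟩ := h
  dsimp only at h1 h2 h3 h4
  have e1 : (c + Polynomial.C y * Polynomial.X * d).natDegree ≤ j + 1 := by
    refine (Polynomial.natDegree_add_le _ _).trans (max_le (h1.trans (Nat.le_succ j)) ?_)
    refine (Polynomial.natDegree_mul_le).trans ?_
    have e2 : (Polynomial.C y * Polynomial.X : Polynomial k).natDegree ≤ 1 :=
      (Polynomial.natDegree_C_mul_le _ _).trans Polynomial.natDegree_X_le
    omega
  have e0 : (c + Polynomial.C y * Polynomial.X * d).coeff 0 = 0 := by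
    rw [Polynomial.coeff_add, h3, mul_assoc, Polynomial.coeff_C_mul, Polynomial.coeff_X_mul_zero,
      mul_zero, add_zero]
  refine ⟨e1, ?_, e0, ?_⟩
  · refine (Polynomial.natDegree_add_le _ _).trans (max_le (h2.trans (Nat.le_succ j)) ?_)
    exact (Polynomial.natDegree_C_mul_le _ _).trans e1
  · change (d + Polynomial.C x * (c + Polynomial.C y * Polynomial.X * d)).coeff 0 = 1
    rw [Polynomial.coeff_add, h4, Polynomial.coeff_C_mul, e0, mul_zero, add_zero]

private lemma cnt_inj {k : Type*} [Field k] {j : ℕ} (q q' : ((Polynomial k × Polynomial k) × k) × k)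
    (h : CntInv j q.1.1) (h' : CntInv j q'.1.1) (hd : q.1.1.2.coeff j ≠ 0) (hy : q.1.2 ≠ 0)
    (he : cntMap q = cntMap q') : q = q' := by
  have a1 := cnt_coeff1 q h
  have a2 := cnt_coeff2 q h
  have b1 := cnt_coeff1 q' h'
  have b2 := cnt_coeff2 q' h'
  rw [← he] at b1 b2
  have hne : (cntMap q).1.coeff (j + 1) ≠ 0 := by
    rw [a1]
    exact mul_ne_zero hy hd
  have hx : q.2 = q'.2 := mul_right_cancel₀ hne (a2.symm.trans b2)
  have hD : q.1.1.2 = q'.1.1.2 := by
    have c1 : (cntMap q).2 = q.1.1.2 + Polynomial.C q.2 * (cntMap q).1 := rfl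
    have c2 : (cntMap q').2 = q'.1.1.2 + Polynomial.C q'.2 * (cntMap q').1 := rfl
    rw [← he, ← hx] at c2
    exact add_right_cancel (c1.symm.trans c2)
  have hyy : q.1.2 = q'.1.2 := by
    rw [← hD] at b1
    exact mul_right_cancel₀ hd (a1.symm.trans b1)
  have hC : q.1.1.1 = q'.1.1.1 := by
    have c1 : (cntMap q).1 = q.1.1.1 + Polynomial.C q.1.2 * Polynomial.X * q.1.1.2 := rfl
    have c2 : (cntMap q').1 = q'.1.1.1 + Polynomial.C q'.1.2 * Polynomial.X * q'.1.1.2 := rfl
    rw [← he, ← hD, ← hyy] at c2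
    exact add_right_cancel (c1.symm.trans c2)
  exact Prod.ext (Prod.ext (Prod.ext hC hD) hyy) hx

private lemma cnt_wd {k K : Type*} [Field k] [Field K] [Algebra k K] {lam : K} {j : ℕ}
    (q : ((Polynomial k × Polynomial k) × k) × k) (h : CntWd k lam j q.1.1) :
    CntWd k lam (j + 1) (cntMap q) := by
  obtain ⟨⟨⟨c, d⟩, y⟩, x⟩ := q
  obtain ⟨g, hg, h0, h1⟩ := h
  dsimp only at h0 h1
  refine ⟨g * vv (lam * algebraMap k K y) * uu (algebraMap k K x), ?_, ?_, ?_⟩
  · have e1 : vv (lam * algebraMap k K y) ∈ Words (Letters k lam) 1 :=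
      mem_words_one (Or.inr ⟨y, rfl⟩)
    have e2 : uu (algebraMap k K x) ∈ Words (Letters k lam) 1 :=
      mem_words_one (Or.inl ⟨x, rfl⟩)
    exact words_mono (by omega) (mul_mem_words (mul_mem_words hg e1) e2)
  · rw [Matrix.SpecialLinearGroup.coe_mul, Matrix.SpecialLinearGroup.coe_mul, uu_coe, vv_coe]
    simp only [Matrix.mul_apply, Fin.sum_univ_two, h0, h1]
    simp [cntMap]
    ring
  · rw [Matrix.SpecialLinearGroup.coe_mul, Matrix.SpecialLinearGroup.coe_mul, uu_coe, vv_coe]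
    simp only [Matrix.mul_apply, Fin.sum_univ_two, h0, h1]
    simp [cntMap]
    ring

open Classical in
private lemma cnt_step {k K : Type*} [Field k] [Fintype k] [Field K] [Algebra k K] {lam : K}
    {j : ℕ} (P : Finset (Polynomial k × Polynomial k)) (hP : ∀ q ∈ P, CntInv j q ∧
      q.2.coeff j ≠ 0 ∧ CntWd k lam j q) (S : Finset k) :
    ∃ P' : Finset (Polynomial k × Polynomial k),
      P'.card = P.card * (Fintype.card k - 1) * S.card ∧ ∀ q ∈ P', CntInv (j + 1) q ∧
        CntWd k lam (j + 1) q ∧ ((∀ x ∈ S, x ≠ 0) → q.2.coeff (j + 1) ≠ 0) := by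
  refine ⟨((P ×ˢ (Finset.univ.filter fun y : k => y ≠ 0)) ×ˢ S).image cntMap, ?_, ?_⟩
  · rw [Finset.card_image_of_injOn, Finset.card_product, Finset.card_product]
    · congr 2
      rw [Finset.filter_ne', Finset.card_erase_of_mem (Finset.mem_univ _), Finset.card_univ]
    · intro q hq q' hq' he
      rw [Finset.mem_coe, Finset.mem_product, Finset.mem_product, Finset.mem_filter] at hq hq'
      obtain ⟨h1, h2, -⟩ := hP _ hq.1.1
      obtain ⟨h1', -, -⟩ := hP _ hq'.1.1
      exact cnt_inj q q' h1 h1' h2 hq.1.2.2 he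
  · intro q hq
    rw [Finset.mem_image] at hq
    obtain ⟨t, ht, rfl⟩ := hq
    rw [Finset.mem_product, Finset.mem_product, Finset.mem_filter] at ht
    obtain ⟨h1, h2, h3⟩ := hP _ ht.1.1
    refine ⟨cnt_inv t h1, cnt_wd t h3, fun hS => ?_⟩
    rw [cnt_coeff2 t h1, cnt_coeff1 t h1]
    exact mul_ne_zero (hS _ ht.2) (mul_ne_zero ht.1.2.2 h2)

private lemma cnt_iter {k K : Type*} [Field k] [Fintype k] [Field K] [Algebra k K] (lam : K)
    (j : ℕ) : ∃ P : Finset (Polynomial k × Polynomial k),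
      P.card = (Fintype.card k - 1) ^ (2 * j) ∧ ∀ q ∈ P, CntInv j q ∧
      q.2.coeff j ≠ 0 ∧ CntWd k lam j q := by
  classical
  induction j with
  | zero =>
    refine ⟨{(0, 1)}, by simp, ?_⟩
    intro q hq
    rw [Finset.mem_singleton] at hq
    subst hq
    refine ⟨⟨by simp, by simp, by simp, by simp⟩, by simp, 1, one_mem_words _, ?_, ?_⟩
    · simp
    · simp
  | succ j ih =>
    obtain ⟨P, hP1, hP2⟩ := ih
    obtain ⟨P', h1, h2⟩ := cnt_step P hP2 (Finset.univ.filter fun y : k => y ≠ 0)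
    refine ⟨P', ?_, fun q hq => ?_⟩
    · rw [h1, hP1, Finset.filter_ne', Finset.card_erase_of_mem (Finset.mem_univ _),
        Finset.card_univ]
      ring
    · obtain ⟨e1, e2, e3⟩ := h2 q hq
      exact ⟨e1, e3 fun x hx => (Finset.mem_filter.1 hx).2, e2⟩

private lemma cnt_eval {k K : Type*} [Field k] [Field K] [Algebra k K]
    [FiniteDimensional k K] {lam : K} (hlam : lam ≠ 0) {p q : Polynomial k}
    (hp : p.natDegree ≤ (minpoly k lam).natDegree) (hq : q.natDegree ≤ (minpoly k lam).natDegree)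
    (h0 : p.coeff 0 = q.coeff 0) (h : Polynomial.aeval lam p = Polynomial.aeval lam q) :
    p = q := by
  have hint : IsIntegral k lam := IsIntegral.of_finite k lam
  have hpos : 0 < (minpoly k lam).natDegree := minpoly.natDegree_pos hint
  have e1 : (p - q).coeff 0 = 0 := by rw [Polynomial.coeff_sub, h0, sub_self]
  have e2 : (p - q).natDegree ≤ (minpoly k lam).natDegree :=
    (Polynomial.natDegree_sub_le _ _).trans (max_le hp hq)
  have e3 := Polynomial.divX_mul_X_add (p - q)
  rw [e1, Polynomial.C_0, add_zero] at e3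
  have e4 : Polynomial.aeval lam (p - q) = 0 := by rw [map_sub, h, sub_self]
  rw [← e3, map_mul, Polynomial.aeval_X] at e4
  have e5 := (mul_eq_zero.1 e4).resolve_right hlam
  have e6 := minpoly.dvd k lam e5
  have e7 : (Polynomial.divX (p - q)).natDegree < (minpoly k lam).natDegree := by
    rw [Polynomial.natDegree_divX_eq_natDegree_tsub_one]
    omega
  have e8 : Polynomial.divX (p - q) = 0 := Polynomial.eq_zero_of_dvd_of_natDegree_lt e6 e7
  rw [e8, zero_mul] at e3
  exact sub_eq_zero.1 e3.symm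

theorem count {k K : Type*} [Field k] [Fintype k] [Field K] [Algebra k K]
    [FiniteDimensional k K] (lam : K) (hlam : lam ≠ 0) :
    ∃ R : Finset (K × K),
      R.card = (Fintype.card k - 1) ^ (2 * finrank k k⟮lam⟯ - 1) * Fintype.card k ∧
      ∀ ρ ∈ R, ρ.1 ∈ k⟮lam⟯ ∧ ρ.2 ∈ k⟮lam⟯ ∧
        ∃ g ∈ Words (Letters k lam) (2 * finrank k k⟮lam⟯),
          (g : Matrix (Fin 2) (Fin 2) K) 1 0 = ρ.1 ∧ (g : Matrix (Fin 2) (Fin 2) K) 1 1 = ρ.2 := by
  classical
  have hint : IsIntegral k lam := IsIntegral.of_finite k lam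
  have hpos : 0 < (minpoly k lam).natDegree := minpoly.natDegree_pos hint
  rw [IntermediateField.adjoin.finrank hint]
  obtain ⟨r, hr⟩ : ∃ r, (minpoly k lam).natDegree = r + 1 := ⟨_, (Nat.succ_pred_eq_of_pos hpos).symm⟩
  obtain ⟨P, hP1, hP2⟩ := cnt_iter (k := k) lam r
  obtain ⟨P', h1, h2⟩ := cnt_step P hP2 Finset.univ
  refine ⟨P'.image fun q => (Polynomial.aeval lam q.1, Polynomial.aeval lam q.2), ?_, ?_⟩
  · rw [Finset.card_image_of_injOn, h1, hP1, Finset.card_univ, hr, ← pow_succ]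
    · congr 2
    · intro q hq q' hq' he
      obtain ⟨⟨a1, a2, a3, a4⟩, -⟩ := h2 q hq
      obtain ⟨⟨b1, b2, b3, b4⟩, -⟩ := h2 q' hq'
      rw [← hr] at a1 a2 b1 b2
      rw [Prod.mk.injEq] at he
      exact Prod.ext (cnt_eval hlam a1 b1 (a3.trans b3.symm) he.1)
        (cnt_eval hlam a2 b2 (a4.trans b4.symm) he.2)
  · intro ρ hρ
    rw [Finset.mem_image] at hρ
    obtain ⟨q, hq, rfl⟩ := hρ
    have hmem : ∀ p : Polynomial k, Polynomial.aeval lam p ∈ k⟮lam⟯ := fun p =>
      IntermediateField.algebra_adjoin_le_adjoin k {lam} (Polynomial.aeval_mem_adjoin_singleton k lam)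
    obtain ⟨-, ⟨g, hg, hg0, hg1⟩, -⟩ := h2 q hq
    refine ⟨hmem _, hmem _, g, ?_, hg0, hg1⟩
    rw [hr]
    exact hg

end Pool.Agent.Helper72.TV
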