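import Mathlib

/-! # Transvections and short words: definitions and easy lemmas -/

namespace Pool.Agent.Helper72.TV

open Matrix Module

/-- `Words S L` is the set of all products of at most `L` factors, each of which is an element
of `S` or the inverse of an element of `S`. -/
def Words {G : Type*} [Group G] (S : Set G) (L : ℕ) : Set G :=
  {g | ∃ l : List G, l.length ≤ L ∧ (∀ x ∈ l, x ∈ S ∨ x⁻¹ ∈ S) ∧ l.prod = g}

section Basic

variable {G H : Type*} [Group G] [Group H] {S : Set G}

theorem one_mem_words (L : ℕ) : (1 : G) ∈ Words S L :=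
  ⟨[], by simp, by simp, by simp⟩

theorem words_mono {L M : ℕ} (h : L ≤ M) : Words S L ⊆ Words S M := by
  rintro g ⟨l, hl, h1, h2⟩
  exact ⟨l, hl.trans h, h1, h2⟩

theorem mem_words_one {x : G} (hx : x ∈ S) : x ∈ Words S 1 :=
  ⟨[x], by simp, by simp [hx], by simp⟩

theorem mul_mem_words {L M : ℕ} {g h : G} (hg : g ∈ Words S L) (hh : h ∈ Words S M) :
    g * h ∈ Words S (L + M) := by
  obtain ⟨l, hl, h1, h2⟩ := hg
  obtain ⟨m, hm, h3, h4⟩ := hh
  refine ⟨l ++ m, ?_, ?_, ?_⟩
  · rw [List.length_append]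
    omega
  · intro x hx
    rw [List.mem_append] at hx
    rcases hx with hx | hx
    · exact h1 x hx
    · exact h3 x hx
  · rw [List.prod_append, h2, h4]

theorem inv_mem_words {L : ℕ} {g : G} (hg : g ∈ Words S L) : g⁻¹ ∈ Words S L := by
  obtain ⟨l, hl, h1, h2⟩ := hg
  refine ⟨(l.map (fun x => x⁻¹)).reverse, ?_, ?_, ?_⟩
  · simpa using hl
  · intro x hx
    rw [List.mem_reverse, List.mem_map] at hx
    obtain ⟨y, hy, rfl⟩ := hx
    rcases h1 y hy with h | h
    · right
      simpa using h
    · left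
      exact h
  · rw [← List.prod_inv_reverse, h2]

theorem conj_mem_words {L M : ℕ} {g h : G} (hg : g ∈ Words S L) (hh : h ∈ Words S M) :
    g * h * g⁻¹ ∈ Words S (M + 2 * L) := by
  have h1 := mul_mem_words (mul_mem_words hg hh) (inv_mem_words hg)
  refine words_mono ?_ h1
  omega

theorem pow_mem_words {L : ℕ} {g : G} (hg : g ∈ Words S L) (n : ℕ) :
    g ^ n ∈ Words S (n * L) := by
  induction n with
  | zero => simpa using one_mem_words (S := S) 0
  | succ n ih =>
    rw [pow_succ]
    refine words_mono ?_ (mul_mem_words ih hg)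
    rw [Nat.succ_mul]

theorem words_subset_closure (L : ℕ) : Words S L ⊆ (Subgroup.closure S : Set G) := by
  rintro g ⟨l, -, h1, rfl⟩
  refine Subgroup.list_prod_mem _ ?_
  intro x hx
  rcases h1 x hx with h | h
  · exact Subgroup.subset_closure h
  · have h2 := inv_mem (Subgroup.subset_closure h : x⁻¹ ∈ Subgroup.closure S)
    simpa using h2

theorem exists_words_of_mem_closure {g : G} (hg : g ∈ Subgroup.closure S) :
    ∃ L, g ∈ Words S L := by
  induction hg using Subgroup.closure_induction with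
  | mem x hx => exact ⟨1, mem_words_one hx⟩
  | one => exact ⟨0, one_mem_words 0⟩
  | mul x y _ _ hx hy =>
    obtain ⟨L, hL⟩ := hx
    obtain ⟨M, hM⟩ := hy
    exact ⟨L + M, mul_mem_words hL hM⟩
  | inv x _ hx =>
    obtain ⟨L, hL⟩ := hx
    exact ⟨L, inv_mem_words hL⟩

/-- If every letter of `Z` maps under the homomorphism `f` into `Words S ℓ`, then every word of
length `n` in `Z` maps into `Words S (n * ℓ)`. -/
theorem map_mem_words (f : H →* G) {Z : Set H} {ℓ : ℕ} (hZ : ∀ z ∈ Z, f z ∈ Words S ℓ)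
    {n : ℕ} {g : H} (hg : g ∈ Words Z n) : f g ∈ Words S (n * ℓ) := by
  obtain ⟨l, hl, h1, rfl⟩ := hg
  have key : ∀ l : List H, (∀ x ∈ l, x ∈ Z ∨ x⁻¹ ∈ Z) → f l.prod ∈ Words S (l.length * ℓ) := by
    intro l
    induction l with
    | nil =>
      intro _
      simpa using one_mem_words (S := S) 0
    | cons a l ih =>
      intro h
      rw [List.prod_cons, map_mul, List.length_cons]
      have ha : f a ∈ Words S ℓ := by
        rcases h a (by simp) with h' | h'
        · exact hZ a h'
        · have h2 := inv_mem_words (hZ _ h')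
          simpa using h2
      have hl' := ih (fun x hx => h x (by simp [hx]))
      refine words_mono ?_ (mul_mem_words ha hl')
      rw [Nat.succ_mul]
      omega
  exact words_mono (Nat.mul_le_mul_right _ hl) (key l h1)

/-- products of products -/
theorem prod_mem_words {L : ℕ} (l : List G) (h : ∀ x ∈ l, x ∈ Words S L) :
    l.prod ∈ Words S (l.length * L) := by
  induction l with
  | nil => simpa using one_mem_words (S := S) 0
  | cons a l ih =>
    rw [List.prod_cons, List.length_cons]
    refine words_mono ?_ (mul_mem_words (h a (by simp)) (ih (fun x hx => h x (by simp [hx]))))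
    rw [Nat.succ_mul]
    omega

end Basic

section Trans

variable {K : Type*} [Field K] {d : ℕ}

/-- `TW S L E a α`: for every `x ∈ E` the transvection `1 + x • (a ⊗ α)` is a word of length at
most `L` in `S`. -/
def TW (S : Set (Matrix.SpecialLinearGroup (Fin d) K)) (L : ℕ) (E : Set K) (a α : Fin d → K) : Prop :=
  ∀ x ∈ E, ∃ g ∈ Words S L,
    (g : Matrix (Fin d) (Fin d) K) = 1 + x • Matrix.vecMulVec a α

theorem TW.mono {S : Set (Matrix.SpecialLinearGroup (Fin d) K)} {L M : ℕ} {E E2 : Set K}
    {a α : Fin d → K} (h : TW S L E a α) (hLM : L ≤ M) (hEF : E2 ⊆ E) : TW S M E2 a α := by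
  intro x hx
  obtain ⟨g, hg, h1⟩ := h x (hEF hx)
  exact ⟨g, words_mono hLM hg, h1⟩

/-- the pair parameter of the transvections in the directions `(v, φ)` and `(w v, φ w⁻¹)` -/
def par (v φ : Fin d → K) (w : Matrix.SpecialLinearGroup (Fin d) K) : K :=
  (φ ⬝ᵥ ((w : Matrix (Fin d) (Fin d) K) *ᵥ v)) *
    (φ ⬝ᵥ (((w⁻¹ : Matrix.SpecialLinearGroup (Fin d) K) : Matrix (Fin d) (Fin d) K) *ᵥ v))

/-- upper unipotent elements of `SL₂` -/
def uu (x : K) : Matrix.SpecialLinearGroup (Fin 2) K :=
  ⟨!![1, x; 0, 1], by rw [Matrix.det_fin_two_of]; ring⟩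

/-- lower unipotent elements of `SL₂` -/
def vv (y : K) : Matrix.SpecialLinearGroup (Fin 2) K :=
  ⟨!![1, 0; y, 1], by rw [Matrix.det_fin_two_of]; ring⟩

theorem uu_coe (x : K) : (uu x : Matrix (Fin 2) (Fin 2) K) = !![1, x; 0, 1] := rfl

theorem vv_coe (y : K) : (vv y : Matrix (Fin 2) (Fin 2) K) = !![1, 0; y, 1] := rfl

theorem uu_add (x y : K) : uu (x + y) = uu x * uu y := by
  apply Matrix.SpecialLinearGroup.ext
  intro i j
  rw [Matrix.SpecialLinearGroup.coe_mul, uu_coe, uu_coe, uu_coe]
  fin_cases i <;> fin_cases j <;> simp [add_comm]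

theorem vv_add (x y : K) : vv (x + y) = vv x * vv y := by
  apply Matrix.SpecialLinearGroup.ext
  intro i j
  rw [Matrix.SpecialLinearGroup.coe_mul, vv_coe, vv_coe, vv_coe]
  fin_cases i <;> fin_cases j <;> simp

/-- the letters of the one-parameter problem over the field `k` with parameter `lam` -/
def Letters (k : Type*) {K : Type*} [Field k] [Field K] [Algebra k K] (lam : K) :
    Set (Matrix.SpecialLinearGroup (Fin 2) K) :=
  {g | ∃ x : k, g = uu (algebraMap k K x)} ∪ {g | ∃ y : k, g = vv (lam * algebraMap k K y)}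

end Trans

end Pool.Agent.Helper72.TV
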