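import Pool.Agent.Helper72.TV.AllVec

/-! # TV-Dual

The dual statement: all covectors vanishing on `v`.

Plan. `allVec` may be still sorried; take its constant `C`. Let `τ : SL_d(K) → SL_d(K)`, `τ g = (g⁻¹)ᵀ`
(`Matrix.SpecialLinearGroup.transpose`), a group automorphism (involution). `S' = τ '' S` also generates
(`Subgroup.closure` of the image under an automorphism). `τ` maps `Words S L` onto `Words S' L`
(`map_mem_words` with `ℓ = 1` for the homomorphism `τ`, applied in both directions).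
If `g` has the matrix `1 + x • vecMulVec v φ` with `φ ⬝ᵥ v = 0` then `g⁻¹` has the matrix
`1 - x • vecMulVec v φ` and `τ g` has the matrix `1 - x • vecMulVec φ v` (`Matrix.transpose_vecMulVec`). So
`TW S L univ v φ` implies `TW S' L univ φ v` (with `x` replaced by `-x`), and `allVec` for `S'`, `(φ, v)` gives
`TW S' (C L) univ β v` for all `β` with `v ⬝ᵥ β = 0`; transform back with `τ`.
-/

namespace Pool.Agent.Helper72.TV

open Matrix Module

/-- The transpose inverse. -/
private def tauH (d : ℕ) (K : Type) [Field K] :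
    Matrix.SpecialLinearGroup (Fin d) K →* Matrix.SpecialLinearGroup (Fin d) K where
  toFun g := (g⁻¹).transpose
  map_one' := by
    apply Subtype.ext
    rw [Matrix.SpecialLinearGroup.coe_transpose, inv_one, Matrix.SpecialLinearGroup.coe_one,
      Matrix.transpose_one]
  map_mul' g h := by
    apply Subtype.ext
    rw [Matrix.SpecialLinearGroup.coe_transpose, _root_.mul_inv_rev, Matrix.SpecialLinearGroup.coe_mul,
      Matrix.transpose_mul, Matrix.SpecialLinearGroup.coe_mul,
      Matrix.SpecialLinearGroup.coe_transpose, Matrix.SpecialLinearGroup.coe_transpose]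

private theorem tauH_apply (d : ℕ) (K : Type) [Field K] (g : Matrix.SpecialLinearGroup (Fin d) K) :
    tauH d K g = (g⁻¹).transpose := rfl

private theorem tauH_tauH (d : ℕ) (K : Type) [Field K]
    (g : Matrix.SpecialLinearGroup (Fin d) K) : tauH d K (tauH d K g) = g := by
  rw [tauH_apply, ← map_inv, tauH_apply, inv_inv]
  apply Subtype.ext
  rw [Matrix.SpecialLinearGroup.coe_transpose, Matrix.SpecialLinearGroup.coe_transpose,
    Matrix.transpose_transpose]

private theorem tauH_coe {d : ℕ} {K : Type} [Field K] {u w : Fin d → K} (huw : w ⬝ᵥ u = 0) (x : K)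
    {g : Matrix.SpecialLinearGroup (Fin d) K}
    (hg : (g : Matrix (Fin d) (Fin d) K) = 1 + (-x) • Matrix.vecMulVec u w) :
    (tauH d K g : Matrix (Fin d) (Fin d) K) = 1 + x • Matrix.vecMulVec w u := by
  have h0 : Matrix.vecMulVec u w * Matrix.vecMulVec u w = 0 := by
    rw [Matrix.vecMulVec_mul_vecMulVec, huw]
    simp
  have h1 : (g : Matrix (Fin d) (Fin d) K) * (1 + x • Matrix.vecMulVec u w) = 1 := by
    rw [hg, mul_add, mul_one, add_mul, one_mul, Matrix.smul_mul, Matrix.mul_smul, h0, smul_zero,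
      smul_zero, add_zero, add_assoc, neg_smul, neg_add_cancel, add_zero]
  have h2 : ((g⁻¹ : Matrix.SpecialLinearGroup (Fin d) K) : Matrix (Fin d) (Fin d) K) *
      (g : Matrix (Fin d) (Fin d) K) = 1 := by
    rw [← Matrix.SpecialLinearGroup.coe_mul, inv_mul_cancel, Matrix.SpecialLinearGroup.coe_one]
  have h3 : ((g⁻¹ : Matrix.SpecialLinearGroup (Fin d) K) : Matrix (Fin d) (Fin d) K) =
      1 + x • Matrix.vecMulVec u w := by
    calc ((g⁻¹ : Matrix.SpecialLinearGroup (Fin d) K) : Matrix (Fin d) (Fin d) K)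
        = ((g⁻¹ : Matrix.SpecialLinearGroup (Fin d) K) : Matrix (Fin d) (Fin d) K) *
          ((g : Matrix (Fin d) (Fin d) K) * (1 + x • Matrix.vecMulVec u w)) := by
          rw [h1, mul_one]
      _ = 1 + x • Matrix.vecMulVec u w := by rw [← mul_assoc, h2, one_mul]
  rw [tauH_apply, Matrix.SpecialLinearGroup.coe_transpose, h3, Matrix.transpose_add,
    Matrix.transpose_one, Matrix.transpose_smul, Matrix.transpose_vecMulVec]

theorem allCovec (d : ℕ) (hd : 2 ≤ d) :
    ∃ C : ℕ, 1 ≤ C ∧ ∀ (K : Type) [Field K]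
      (S : Set (Matrix.SpecialLinearGroup (Fin d) K)), Subgroup.closure S = ⊤ →
      ∀ (v φ : Fin d → K), v ≠ 0 → φ ≠ 0 → φ ⬝ᵥ v = 0 → ∀ L : ℕ, 1 ≤ L →
      TW S L Set.univ v φ → ∀ β : Fin d → K, β ⬝ᵥ v = 0 → TW S (C * L) Set.univ v β := by
  obtain ⟨C, hC, h⟩ := allVec d hd
  refine ⟨C, hC, fun K _ S hS v φ hv hφ hφv L hL hTW β hβ => ?_⟩
  have hsurj : Function.Surjective (tauH d K) := fun g => ⟨tauH d K g, tauH_tauH d K g⟩
  have hS' : Subgroup.closure (tauH d K '' S) = ⊤ := by
    rw [← MonoidHom.map_closure, hS]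
    exact Subgroup.map_top_of_surjective _ hsurj
  have hvφ : v ⬝ᵥ φ = 0 := by
    rw [dotProduct_comm]
    exact hφv
  have hTW' : TW (tauH d K '' S) L Set.univ φ v := by
    intro x _
    obtain ⟨g, hg, hgx⟩ := hTW (-x) (Set.mem_univ _)
    refine ⟨tauH d K g, ?_, tauH_coe hφv x hgx⟩
    have h1 := map_mem_words (S := tauH d K '' S) (tauH d K) (Z := S) (ℓ := 1)
      (fun z hz => mem_words_one (Set.mem_image_of_mem _ hz)) hg
    rwa [mul_one] at h1
  have h2 := h K (tauH d K '' S) hS' φ v hφ hv hvφ L hL hTW' β (by rw [dotProduct_comm]; exact hβ)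
  intro x _
  obtain ⟨g, hg, hgx⟩ := h2 (-x) (Set.mem_univ _)
  refine ⟨tauH d K g, ?_, tauH_coe (by rw [dotProduct_comm]; exact hβ) x hgx⟩
  have h1 := map_mem_words (S := S) (tauH d K) (Z := tauH d K '' S) (ℓ := 1) ?_ hg
  · rwa [mul_one] at h1
  · rintro z ⟨s, hs, rfl⟩
    rw [tauH_tauH]
    exact mem_words_one hs

end Pool.Agent.Helper72.TV
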