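import Pool.Agent.Helper72.TV.Defs

/-! # TV-Embed

Two transvections with `(φ v') (φ' v) = lam ≠ 0` span a copy of `SL₂(K)`.

Plan. Let `e₁ = (φ ⬝ᵥ v') • v`, `e₂ = v'`, `ε₁ = lam⁻¹ • φ'`, `ε₂ = (φ ⬝ᵥ v')⁻¹ • φ`. Then `ε_i ⬝ᵥ e_j = δ_ij`.
Let `B : Matrix (Fin d) (Fin 2) K` have the columns `e₁, e₂` and `C : Matrix (Fin 2) (Fin d) K` the rows
`ε₁, ε₂`; `C * B = 1`. Define `ι M = 1 + B * (M - 1) * C`. Then
`ι M * ι N = ι (M * N)` (expand with `C * B = 1`) and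
`det (1 + B * ((M - 1) * C)) = det (1 + (M - 1) * C * B) = det M = 1` (`Matrix.det_one_add_mul_comm`).
`uu x - 1 = !![0, x; 0, 0]`, so `ι (uu x) = 1 + x e₁ ⊗ ε₂ = 1 + x v ⊗ φ`; `vv y - 1 = !![0, 0; y, 0]`, so
`ι (vv y) = 1 + y e₂ ⊗ ε₁ = 1 + (y / lam) v' ⊗ φ'`.
-/

namespace Pool.Agent.Helper72.TV

open Matrix Module

private lemma embed_key {K : Type*} [Field K] {d : ℕ} (B : Matrix (Fin d) (Fin 2) K)
    (C : Matrix (Fin 2) (Fin d) K) (hCB : C * B = 1) (M N : Matrix (Fin 2) (Fin 2) K) :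
    (1 + B * (M - 1) * C) * (1 + B * (N - 1) * C) = 1 + B * (M * N - 1) * C := by
  have h1 : B * (M - 1) * C * (B * (N - 1) * C) = B * ((M - 1) * (N - 1)) * C := by
    calc B * (M - 1) * C * (B * (N - 1) * C) = B * (M - 1) * (C * B) * (N - 1) * C := by
          simp only [Matrix.mul_assoc]
      _ = B * ((M - 1) * (N - 1)) * C := by
          rw [hCB, Matrix.mul_one]
          simp only [Matrix.mul_assoc]
  rw [add_mul, mul_add, mul_add, one_mul, one_mul, mul_one, h1]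
  have h2 : M * N - 1 = (M - 1) * (N - 1) + (M - 1) + (N - 1) := by
    rw [sub_mul, mul_sub, one_mul, mul_one]
    abel
  rw [h2, Matrix.mul_add, Matrix.mul_add, Matrix.add_mul, Matrix.add_mul]
  abel

theorem embed {K : Type*} [Field K] {d : ℕ} (v φ v' φ' : Fin d → K) (hφv : φ ⬝ᵥ v = 0)
    (hφv' : φ' ⬝ᵥ v' = 0) (lam : K) (h : (φ ⬝ᵥ v') * (φ' ⬝ᵥ v) = lam) (hlam : lam ≠ 0) :
    ∃ ι : Matrix.SpecialLinearGroup (Fin 2) K →* Matrix.SpecialLinearGroup (Fin d) K,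
      (∀ x : K, (ι (uu x) : Matrix (Fin d) (Fin d) K) = 1 + x • Matrix.vecMulVec v φ) ∧
      (∀ y : K, (ι (vv y) : Matrix (Fin d) (Fin d) K) = 1 + (y / lam) • Matrix.vecMulVec v' φ') := by
  obtain ⟨a, ha⟩ : ∃ a, a = φ ⬝ᵥ v' := ⟨_, rfl⟩
  have ha0 : a ≠ 0 := by
    intro h0
    apply hlam
    rw [← h, ← ha, h0, zero_mul]
  let e : Fin 2 → Fin d → K := ![a • v, v']
  let ε : Fin 2 → Fin d → K := ![lam⁻¹ • φ', a⁻¹ • φ]
  let B : Matrix (Fin d) (Fin 2) K := Matrix.of fun i j => e j i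
  let C : Matrix (Fin 2) (Fin d) K := Matrix.of fun i j => ε i j
  have hCB : C * B = 1 := by
    ext i j
    have h1 : (C * B) i j = ε i ⬝ᵥ e j := by
      rw [Matrix.mul_apply]
      rfl
    rw [h1]
    fin_cases i <;> fin_cases j
    · show (lam⁻¹ • φ') ⬝ᵥ (a • v) = 1
      rw [smul_dotProduct, dotProduct_smul, smul_eq_mul, smul_eq_mul, ha, h,
        inv_mul_cancel₀ hlam]
    · show (lam⁻¹ • φ') ⬝ᵥ v' = 0
      rw [smul_dotProduct, hφv', smul_zero]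
    · show (a⁻¹ • φ) ⬝ᵥ (a • v) = 0
      rw [smul_dotProduct, dotProduct_smul, hφv, smul_zero, smul_zero]
    · show (a⁻¹ • φ) ⬝ᵥ v' = 1
      rw [smul_dotProduct, smul_eq_mul, ← ha, inv_mul_cancel₀ ha0]
  have hdet : ∀ M : Matrix.SpecialLinearGroup (Fin 2) K,
      (1 + B * ((M : Matrix (Fin 2) (Fin 2) K) - 1) * C).det = 1 := by
    intro M
    rw [Matrix.mul_assoc, Matrix.det_one_add_mul_comm, Matrix.mul_assoc, hCB, Matrix.mul_one]
    have : (1 : Matrix (Fin 2) (Fin 2) K) + ((M : Matrix (Fin 2) (Fin 2) K) - 1) = M := by abel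
    rw [this, M.det_coe]
  refine ⟨{ toFun := fun M => ⟨1 + B * ((M : Matrix (Fin 2) (Fin 2) K) - 1) * C, hdet M⟩
            map_one' := ?_, map_mul' := ?_ }, ?_, ?_⟩
  · apply Subtype.ext
    show 1 + B * ((1 : Matrix (Fin 2) (Fin 2) K) - 1) * C = 1
    rw [sub_self, Matrix.mul_zero, Matrix.zero_mul, add_zero]
  · intro M N
    apply Subtype.ext
    show 1 + B * (((M : Matrix (Fin 2) (Fin 2) K) * (N : Matrix (Fin 2) (Fin 2) K)) - 1) * C =
      (1 + B * ((M : Matrix (Fin 2) (Fin 2) K) - 1) * C) *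
        (1 + B * ((N : Matrix (Fin 2) (Fin 2) K) - 1) * C)
    exact (embed_key B C hCB _ _).symm
  · intro x
    show 1 + B * ((uu x : Matrix (Fin 2) (Fin 2) K) - 1) * C = _
    congr 1
    ext i j
    rw [uu_coe, Matrix.mul_apply, Fin.sum_univ_two, Matrix.mul_apply, Matrix.mul_apply,
      Fin.sum_univ_two, Fin.sum_univ_two]
    simp [B, C, e, ε, Matrix.vecMulVec_apply]
    field_simp
  · intro y
    show 1 + B * ((vv y : Matrix (Fin 2) (Fin 2) K) - 1) * C = _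
    congr 1
    ext i j
    rw [vv_coe, Matrix.mul_apply, Fin.sum_univ_two, Matrix.mul_apply, Matrix.mul_apply,
      Fin.sum_univ_two, Fin.sum_univ_two]
    simp [B, C, e, ε, Matrix.vecMulVec_apply]
    ring

end Pool.Agent.Helper72.TV
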