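import Pool.Agent.Helper72.TV.Defs

/-! # TV-Escape

A matrix coefficient which is nonzero somewhere on the group generated by `S` is nonzero on a
word of length at most `dim W`.

Plan. For `m : ℕ` let `V m = Submodule.span K {y | ∃ w ∈ Words S m, y = ρ w x}`; it is increasing
in `m` (`words_mono`) and `x ∈ V 0` (`one_mem_words`). If `V (m+1) = V m` then `ρ s` maps
`V m` into `V (m+1) = V m` for `s ∈ S` and for `s⁻¹ ∈ S` (`mem_words_one`, `inv_mem_words`,
`mul_mem_words`), hence by induction over the closure (`Subgroup.closure_induction`, for the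
statement: `ρ g` and `ρ g⁻¹` map `V m` into `V m`; or `exists_words_of_mem_closure` and induction
on the length of the list) `ρ g x ∈ V m` for all `g ∈ closure S`.
As long as `V 0 < V 1 < ... < V m` we have `m ≤ finrank (V m)` (`Submodule.finrank_lt_finrank_of_lt`),
so with `D = finrank K W` some `m ≤ D` has `V (m+1) = V m`
(otherwise `finrank (V (D+1)) ≥ D+1 > D`). So `ρ g x ∈ V m ≤ V D`; if `ψ` vanished on all `ρ w x`,
`w ∈ Words S D`, then it would vanish on `V D` (`Submodule.span_induction`), contradiction.
-/

namespace Pool.Agent.Helper72.TV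

open Matrix Module

theorem escape {K G W : Type*} [Field K] [Group G] [AddCommGroup W] [Module K W]
    [FiniteDimensional K W] (ρ : G →* Module.End K W) (S : Set G) (x : W) (ψ : W →ₗ[K] K)
    (g : G) (hg : g ∈ Subgroup.closure S) (h : ψ (ρ g x) ≠ 0) :
    ∃ w ∈ Words S (Module.finrank K W), ψ (ρ w x) ≠ 0 := by
  classical
  let V : ℕ → Submodule K W := fun m => Submodule.span K {y | ∃ w ∈ Words S m, y = ρ w x}
  have hmono : ∀ m n, m ≤ n → V m ≤ V n := by
    intro m n hmn
    apply Submodule.span_mono
    rintro y ⟨w, hw, rfl⟩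
    exact ⟨w, words_mono hmn hw, rfl⟩
  have hx : ∀ m, x ∈ V m := by
    intro m
    apply Submodule.subset_span
    exact ⟨1, one_mem_words m, by simp⟩
  have hstep : ∀ m, ∀ s, (s ∈ S ∨ s⁻¹ ∈ S) → ∀ y ∈ V m, ρ s y ∈ V (m + 1) := by
    intro m s hs y hy
    have hs1 : s ∈ Words S 1 := by
      rcases hs with h' | h'
      · exact mem_words_one h'
      · have h2 := inv_mem_words (mem_words_one h')
        simpa using h2
    refine Submodule.span_induction (p := fun y _ => ρ s y ∈ V (m + 1)) ?_ ?_ ?_ ?_ hy
    · rintro y ⟨w, hw, rfl⟩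
      apply Submodule.subset_span
      refine ⟨s * w, words_mono (by omega) (mul_mem_words hs1 hw), ?_⟩
      rw [map_mul, Module.End.mul_apply]
    · rw [map_zero]
      exact Submodule.zero_mem _
    · intro a b _ _ ha hb
      rw [map_add]
      exact Submodule.add_mem _ ha hb
    · intro c a _ ha
      rw [map_smul]
      exact Submodule.smul_mem _ _ ha
  by_contra hcon
  push Not at hcon
  have hex : ∃ m, m ≤ finrank K W ∧ V (m + 1) = V m := by
    by_contra hno
    push Not at hno
    have hlt : ∀ m, m ≤ finrank K W → V m < V (m + 1) := fun m hm =>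
      lt_of_le_of_ne (hmono _ _ (by omega)) (Ne.symm (hno m hm))
    have hrank : ∀ m, m ≤ finrank K W + 1 → m ≤ finrank K (V m) := by
      intro m
      induction m with
      | zero => intro _; exact Nat.zero_le _
      | succ m ih =>
        intro hm
        have h1 := ih (by omega)
        have h2 := Submodule.finrank_lt_finrank_of_lt (hlt m (by omega))
        omega
    have h1 := hrank (finrank K W + 1) le_rfl
    have h2 := Submodule.finrank_le (V (finrank K W + 1))
    omega
  obtain ⟨m, hm, hVm⟩ := hex
  obtain ⟨L, l, hl, h1, rfl⟩ := exists_words_of_mem_closure hg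
  have key : ∀ l : List G, (∀ x ∈ l, x ∈ S ∨ x⁻¹ ∈ S) → ρ l.prod x ∈ V m := by
    intro l
    induction l with
    | nil =>
      intro _
      simpa using hx m
    | cons a l ih =>
      intro h
      rw [List.prod_cons, map_mul, Module.End.mul_apply]
      have h2 := hstep m a (h a (by simp)) _ (ih (fun x hx => h x (by simp [hx])))
      rwa [hVm] at h2
  have hmem := hmono m _ hm (key l h1)
  apply h
  refine Submodule.span_induction (p := fun y _ => ψ y = 0) ?_ ?_ ?_ ?_ hmem
  · rintro y ⟨w, hw, rfl⟩
    exact hcon w hw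
  · exact map_zero _
  · intro a b _ _ ha hb
    rw [map_add, ha, hb, add_zero]
  · intro c a _ ha
    rw [map_smul, ha, smul_zero]

end Pool.Agent.Helper72.TV
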