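import Mathlib

/-! # TV-HornerField

Expansion in powers of a generator over an intermediate field.

Plan. `E ⊔ k⟮θ⟯` is `(E⟮θ⟯).restrictScalars k` (`IntermediateField.restrictScalars_adjoin_eq_sup` or similar:
`adjoin_adjoin_left`, `sup`-lemmas). Let `r = finrank E E⟮θ⟯`. `finrank k (E ⊔ k⟮θ⟯) = finrank k E * finrank E E⟮θ⟯`
(tower law `Module.finrank_mul_finrank` with the instances on `E⟮θ⟯`), and every element of `E⟮θ⟯` is
`Σ i < r, c i * θ^i`, `c i ∈ E`, by the power basis `IntermediateField.adjoin.powerBasis` (its `dim` is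
`(minpoly E θ).natDegree = r`, `IntermediateField.adjoin.finrank`) or by division with remainder
by the minimal polynomial. Extend `c` by `0` beyond `r`.
-/

namespace Pool.Agent.Helper72.TV

open Module IntermediateField

theorem hornerField {k K : Type*} [Field k] [Field K] [Algebra k K] [FiniteDimensional k K]
    (E : IntermediateField k K) (θ : K) :
    ∃ r : ℕ, finrank k ↥(E ⊔ k⟮θ⟯) = r * finrank k ↥E ∧
      ∀ x ∈ E ⊔ k⟮θ⟯, ∃ c : ℕ → K, (∀ i, c i ∈ E) ∧ x = ∑ i ∈ Finset.range r, c i * θ ^ i := by
  have hint : IsIntegral (↥E) θ := by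
    have h : IsIntegral k θ := IsIntegral.of_finite k θ
    exact h.tower_top
  have hsup : E ⊔ k⟮θ⟯ = (IntermediateField.adjoin (↥E) {θ}).restrictScalars k := by
    rw [IntermediateField.restrictScalars_adjoin, IntermediateField.adjoin_union,
      IntermediateField.adjoin_self]
  refine ⟨finrank (↥E) (IntermediateField.adjoin (↥E) {θ}), ?_, ?_⟩
  · rw [hsup]
    have h1 : finrank k ↥E * finrank (↥E) (IntermediateField.adjoin (↥E) {θ})
        = finrank k (IntermediateField.adjoin (↥E) {θ}) :=
      Module.finrank_mul_finrank k (↥E) (IntermediateField.adjoin (↥E) {θ})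
    rw [mul_comm, h1]
    rfl
  · intro x hx
    rw [hsup, IntermediateField.mem_restrictScalars] at hx
    set pb := IntermediateField.adjoin.powerBasis hint with hpb
    have hr : finrank (↥E) (IntermediateField.adjoin (↥E) {θ}) = pb.dim := by
      rw [IntermediateField.adjoin.finrank hint]
      rfl
    have hx2 := pb.basis.sum_repr ⟨x, hx⟩
    refine ⟨fun i => if h : i < pb.dim then ((pb.basis.repr ⟨x, hx⟩ ⟨i, h⟩ : ↥E) : K) else 0, ?_, ?_⟩
    · intro i
      dsimp only
      split_ifs with h
      · exact SetLike.coe_mem _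
      · exact E.zero_mem
    · rw [hr, Finset.sum_range]
      have h3 : x = ((⟨x, hx⟩ : IntermediateField.adjoin (↥E) {θ}) : K) := rfl
      conv_lhs => rw [h3, ← hx2]
      rw [AddSubmonoidClass.coe_finsetSum]
      refine Finset.sum_congr rfl ?_
      intro i _
      have h4 : ((i : ℕ)) < pb.dim := i.2
      beta_reduce
      rw [dif_pos h4]
      rw [pb.basis_eq_pow]
      have h5 : ((pb.gen : IntermediateField.adjoin (↥E) {θ}) : K) = θ := by
        rw [hpb, IntermediateField.adjoin.powerBasis_gen]
        exact IntermediateField.AdjoinSimple.coe_gen (↥E) θ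
      rw [IntermediateField.coe_smul, IntermediateField.coe_pow, h5]
      rfl

end Pool.Agent.Helper72.TV
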