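import Mathlib

/-! # TV-MuField

Every finite field extension is generated by a square.

Plan. `E = k⟮lam⟯` is a finite field; let `μ` generate its (cyclic) unit group, `q = |E|`. Put `θ = μ²` and
`E' = k⟮θ⟯ ≤ E`, `q' = |E'|`, so `q = q'^s`, `s = [E : E']`. `θ ^ (q'-1) = 1`, so `q - 1 = order of μ` divides
`2 (q' - 1)`, so `q - 1 ≤ 2 (q' - 1)`. If `s ≥ 2` then `q ≥ q'^2`, so `(q'-1)(q'+1) ≤ 2 (q'-1)`, `q' ≤ 1`,
impossible. So `s = 1` and `E' = E` (`IntermediateField.eq_of_le_of_finrank_eq'`-like lemma, or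
compare cardinalities of the finite carriers: `E' ≤ E` and the same `Nat.card`).
-/

namespace Pool.Agent.Helper72.TV

open Module IntermediateField

theorem muField {k K : Type*} [Field k] [Fintype k] [Field K] [Algebra k K]
    [FiniteDimensional k K] (lam : K) :
    ∃ μ : K, μ ∈ k⟮lam⟯ ∧ μ ≠ 0 ∧ k⟮μ ^ 2⟯ = k⟮lam⟯ := by
  classical
  have hKfin : Finite K := Module.finite_of_finite k
  have hEfin : Finite ↥k⟮lam⟯ := inferInstance
  obtain ⟨g, hg⟩ := IsCyclic.exists_generator (α := (↥k⟮lam⟯)ˣ)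
  have hord : orderOf g = Nat.card (↥k⟮lam⟯)ˣ := orderOf_eq_card_of_forall_mem_zpowers hg
  have hordE : orderOf g = Nat.card ↥k⟮lam⟯ - 1 := by
    rw [hord, Nat.card_units]
  refine ⟨((g : ↥k⟮lam⟯) : K), (g : ↥k⟮lam⟯).2, ?_, ?_⟩
  · intro h0
    exact g.ne_zero (Subtype.ext h0)
  · set μ : K := ((g : ↥k⟮lam⟯) : K) with hμ
    have hle : k⟮μ ^ 2⟯ ≤ k⟮lam⟯ := adjoin_simple_le_iff.mpr (pow_mem (g : ↥k⟮lam⟯).2 2)
    have hE'fin : Finite ↥k⟮μ ^ 2⟯ := inferInstance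
    have hμ0 : μ ≠ 0 := by
      intro h0
      exact g.ne_zero (Subtype.ext h0)
    -- θ ^ (q' - 1) = 1
    have hθ : (μ ^ 2) ^ (Nat.card ↥k⟮μ ^ 2⟯ - 1) = 1 := by
      have hf : Fintype ↥k⟮μ ^ 2⟯ := Fintype.ofFinite _
      have hne : (⟨μ ^ 2, mem_adjoin_simple_self k (μ ^ 2)⟩ : ↥k⟮μ ^ 2⟯) ≠ 0 := by
        intro h0
        exact pow_ne_zero 2 hμ0 (congrArg Subtype.val h0)
      have h1 := FiniteField.pow_card_sub_one_eq_one _ hne
      have h2 := congrArg (Subtype.val) h1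
      rw [Nat.card_eq_fintype_card]
      simpa using h2
    have hgpow : g ^ (2 * (Nat.card ↥k⟮μ ^ 2⟯ - 1)) = 1 := by
      rw [pow_mul]
      apply Units.ext
      apply Subtype.ext
      have : (((g ^ 2) ^ (Nat.card ↥k⟮μ ^ 2⟯ - 1) : (↥k⟮lam⟯)ˣ) : ↥k⟮lam⟯).1 =
          (μ ^ 2) ^ (Nat.card ↥k⟮μ ^ 2⟯ - 1) := by
        rw [Units.val_pow_eq_pow_val, Units.val_pow_eq_pow_val]
        simp [hμ]
      rw [this, hθ]
      simp
    have hdvd : Nat.card ↥k⟮lam⟯ - 1 ∣ 2 * (Nat.card ↥k⟮μ ^ 2⟯ - 1) := by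
      rw [← hordE]
      exact orderOf_dvd_of_pow_eq_one hgpow
    have hq' : 1 < Nat.card ↥k⟮μ ^ 2⟯ := Finite.one_lt_card
    have hle2 : Nat.card ↥k⟮lam⟯ - 1 ≤ 2 * (Nat.card ↥k⟮μ ^ 2⟯ - 1) :=
      Nat.le_of_dvd (by omega) hdvd
    refine IntermediateField.eq_of_le_of_finrank_le hle ?_
    by_contra hcon
    rw [not_le] at hcon
    have hc1 : Nat.card ↥k⟮lam⟯ = Nat.card k ^ finrank k ↥k⟮lam⟯ := Module.natCard_eq_pow_finrank
    have hc2 : Nat.card ↥k⟮μ ^ 2⟯ = Nat.card k ^ finrank k ↥k⟮μ ^ 2⟯ :=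
      Module.natCard_eq_pow_finrank
    have hk1 : 1 < Nat.card k := Finite.one_lt_card
    have h3 : Nat.card k ^ (finrank k ↥k⟮μ ^ 2⟯ + 1) ≤ Nat.card k ^ finrank k ↥k⟮lam⟯ :=
      Nat.pow_le_pow_right (by omega) hcon
    rw [← hc1, pow_succ, ← hc2] at h3
    have h4 : Nat.card ↥k⟮μ ^ 2⟯ * 2 ≤ Nat.card ↥k⟮μ ^ 2⟯ * Nat.card k :=
      Nat.mul_le_mul_left _ hk1
    omega

end Pool.Agent.Helper72.TV
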