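import Pool.Agent.Helper72.TV.Count

/-! # TV-OneStepA

Pigeonhole on the projective line: a large set of multipliers.

Plan. `q = |k⟮lam⟯| = |k|^r` (`Module.card_eq_pow_finrank`), `Q = |k| ≥ 5`, `r ≥ 2`. Take `R` from `count`
(module Count, may be still sorried), `N = |R| = (Q-1)^(2r-1) Q`. The rows are nonzero (bottom row of a
matrix of determinant 1). Map `R → Option k⟮lam⟯`: `(c, d) ↦ none` if `c = 0`, else `some (d / c)`; the
target has `q + 1` elements, so some fibre `R'` has `N ≤ (q+1) |R'|`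
(`Finset.exists_le_card_fiber_of_mul_le_card_of_maps_to` or similar). Two rows in the same
fibre are proportional: fix `ρ₀ ∈ R'`; every `ρ ∈ R'` is `μ ρ₀` with `μ = μ(ρ) ∈ k⟮lam⟯`, `μ ≠ 0`, and
`ρ ↦ μ(ρ)` is injective. If `g, g₀` are words with bottom rows `ρ = μ ρ₀` and `ρ₀` then `b = g * g₀⁻¹` has
bottom row `(0, μ)` (the bottom row of `g * g₀⁻¹` is `μ` times the bottom row of `g₀ * g₀⁻¹`), hence
`b = !![μ⁻¹, β; 0, μ]`, and `b * uu x * b⁻¹ = uu (μ⁻² x)`; `b` is a word of length `≤ 4 r`.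
`A` = image of `R'` under `ρ ↦ μ(ρ)⁻²`; the map `μ ↦ μ⁻²` is at most 2-to-1, so `|R'| ≤ 2 |A|`.
So `N ≤ 2 (q+1) |A|`, and `q < |A|²` follows from `4 q (q+1)² < N²`, i.e.
`4 Q^r (Q^r+1)² < ((Q-1)^(2r-1) Q)²` for `Q ≥ 5, r ≥ 2`: induction on `r`; for `r = 2` it is
`2 (Q²+1) < (Q-1)³`; from `r` to `r + 1` the right side is multiplied by `(Q-1)⁴ ≥ Q³` and the left side by
at most `Q * Q²` since `Q^(r+1) + 1 ≤ Q (Q^r + 1)`.
-/

namespace Pool.Agent.Helper72.TV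

open Matrix Module IntermediateField

private lemma num_aux (P r : ℕ) (hP : 4 ≤ P) :
    4 * (P + 1) ^ (r + 2) * ((P + 1) ^ (r + 2) + 1) ^ 2 < (P ^ (2 * r + 3) * (P + 1)) ^ 2 := by
  induction r with
  | zero =>
    obtain ⟨t, rfl⟩ := Nat.exists_eq_add_of_le hP
    have h1 : 2 * ((4 + t + 1) ^ 2 + 1) < (4 + t) ^ 3 := by
      have : (4 + t) ^ 3 = 2 * ((4 + t + 1) ^ 2 + 1) + (12 + 28 * t + 10 * t ^ 2 + t ^ 3) := by ring
      rw [this]
      have : 0 < 12 + 28 * t + 10 * t ^ 2 + t ^ 3 := by positivity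
      omega
    have h2 : (2 * ((4 + t + 1) ^ 2 + 1)) ^ 2 < ((4 + t) ^ 3) ^ 2 := Nat.pow_lt_pow_left h1 (by norm_num)
    have h3 : 0 < (4 + t + 1) ^ 2 := by positivity
    calc 4 * (4 + t + 1) ^ (0 + 2) * ((4 + t + 1) ^ (0 + 2) + 1) ^ 2
        = (2 * ((4 + t + 1) ^ 2 + 1)) ^ 2 * (4 + t + 1) ^ 2 := by ring
      _ < ((4 + t) ^ 3) ^ 2 * (4 + t + 1) ^ 2 := Nat.mul_lt_mul_of_pos_right h2 h3
      _ = ((4 + t) ^ (2 * 0 + 3) * (4 + t + 1)) ^ 2 := by ring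
  | succ r ih =>
    have hQ : (P + 1) ^ 3 ≤ P ^ 4 := by
      obtain ⟨t, rfl⟩ := Nat.exists_eq_add_of_le hP
      have : (4 + t) ^ 4 = (4 + t + 1) ^ 3 + (131 + 181 * t + 81 * t ^ 2 + 15 * t ^ 3 + t ^ 4) := by ring
      rw [this]
      exact Nat.le_add_right _ _
    have h1 : (P + 1) ^ (r + 1 + 2) + 1 ≤ (P + 1) * ((P + 1) ^ (r + 2) + 1) := by
      have : (P + 1) * ((P + 1) ^ (r + 2) + 1) = (P + 1) ^ (r + 1 + 2) + 1 + P := by ring
      rw [this]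
      exact Nat.le_add_right _ _
    have h2 : ((P + 1) ^ (r + 1 + 2) + 1) ^ 2 ≤ ((P + 1) * ((P + 1) ^ (r + 2) + 1)) ^ 2 :=
      Nat.pow_le_pow_left h1 2
    have h0 : 0 < P ^ 4 := by positivity
    calc 4 * (P + 1) ^ (r + 1 + 2) * ((P + 1) ^ (r + 1 + 2) + 1) ^ 2
        ≤ 4 * (P + 1) ^ (r + 1 + 2) * ((P + 1) * ((P + 1) ^ (r + 2) + 1)) ^ 2 :=
          Nat.mul_le_mul_left _ h2
      _ = (4 * (P + 1) ^ (r + 2) * ((P + 1) ^ (r + 2) + 1) ^ 2) * (P + 1) ^ 3 := by ring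
      _ ≤ (4 * (P + 1) ^ (r + 2) * ((P + 1) ^ (r + 2) + 1) ^ 2) * P ^ 4 := Nat.mul_le_mul_left _ hQ
      _ < (P ^ (2 * r + 3) * (P + 1)) ^ 2 * P ^ 4 := Nat.mul_lt_mul_of_pos_right ih h0
      _ = (P ^ (2 * (r + 1) + 3) * (P + 1)) ^ 2 := by ring

private lemma num (Q r : ℕ) (hQ : 5 ≤ Q) (hr : 2 ≤ r) :
    4 * Q ^ r * (Q ^ r + 1) ^ 2 < ((Q - 1) ^ (2 * r - 1) * Q) ^ 2 := by
  obtain ⟨P, rfl⟩ : ∃ P, Q = P + 1 := ⟨Q - 1, by omega⟩
  obtain ⟨s, rfl⟩ : ∃ s, r = s + 2 := ⟨r - 2, by omega⟩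
  have e1 : P + 1 - 1 = P := by omega
  have e2 : 2 * (s + 2) - 1 = 2 * s + 3 := by omega
  rw [e1, e2]
  exact num_aux P s (by omega)

private lemma det_eq {K : Type*} [Field K] (g : Matrix.SpecialLinearGroup (Fin 2) K) :
    (g : Matrix (Fin 2) (Fin 2) K) 0 0 * (g : Matrix (Fin 2) (Fin 2) K) 1 1 -
      (g : Matrix (Fin 2) (Fin 2) K) 0 1 * (g : Matrix (Fin 2) (Fin 2) K) 1 0 = 1 := by
  rw [← Matrix.det_fin_two]
  exact g.det_coe

/-- a matrix with bottom row `(0, μ)` acts on the upper unipotent group by `μ⁻²`. -/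
private lemma conj_uu {K : Type*} [Field K] (b : Matrix.SpecialLinearGroup (Fin 2) K) (μ : K) (hμ : μ ≠ 0)
    (h0 : (b : Matrix (Fin 2) (Fin 2) K) 1 0 = 0) (h1 : (b : Matrix (Fin 2) (Fin 2) K) 1 1 = μ) (x : K) :
    b * uu x * b⁻¹ = uu ((μ⁻¹) ^ 2 * x) := by
  have hd := det_eq b
  rw [h0, h1, mul_zero, sub_zero] at hd
  have h00 : (b : Matrix (Fin 2) (Fin 2) K) 0 0 = μ⁻¹ := eq_inv_of_mul_eq_one_left hd
  rw [mul_inv_eq_iff_eq_mul]
  apply Matrix.SpecialLinearGroup.ext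
  intro i j
  rw [Matrix.SpecialLinearGroup.coe_mul, Matrix.SpecialLinearGroup.coe_mul, uu_coe, uu_coe]
  fin_cases i <;> fin_cases j <;>
    simp [Matrix.mul_apply, Fin.sum_univ_two, h0, h1, h00]
  field_simp
  ring

private lemma bottom_row {K : Type*} [Field K] (g g₀ : Matrix.SpecialLinearGroup (Fin 2) K) (μ : K)
    (h0 : (g : Matrix (Fin 2) (Fin 2) K) 1 0 = μ * (g₀ : Matrix (Fin 2) (Fin 2) K) 1 0)
    (h1 : (g : Matrix (Fin 2) (Fin 2) K) 1 1 = μ * (g₀ : Matrix (Fin 2) (Fin 2) K) 1 1) :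
    ((g * g₀⁻¹ : Matrix.SpecialLinearGroup (Fin 2) K) : Matrix (Fin 2) (Fin 2) K) 1 0 = 0 ∧
    ((g * g₀⁻¹ : Matrix.SpecialLinearGroup (Fin 2) K) : Matrix (Fin 2) (Fin 2) K) 1 1 = μ := by
  have hd := det_eq g₀
  rw [Matrix.SpecialLinearGroup.coe_mul, Matrix.SpecialLinearGroup.coe_inv, Matrix.adjugate_fin_two]
  constructor
  · simp only [Matrix.mul_apply, Fin.sum_univ_two, Matrix.of_apply, Matrix.cons_val', Matrix.cons_val_zero,
      Matrix.cons_val_one, Matrix.cons_val_fin_one]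
    rw [h0, h1]
    ring
  · simp only [Matrix.mul_apply, Fin.sum_univ_two, Matrix.of_apply, Matrix.cons_val', Matrix.cons_val_zero,
      Matrix.cons_val_one, Matrix.cons_val_fin_one]
    rw [h0, h1]
    linear_combination μ * hd

theorem oneStepA {k K : Type*} [Field k] [Fintype k] [Field K] [Algebra k K]
    [FiniteDimensional k K] (hk : 5 ≤ Fintype.card k) (lam : K) (hlam : lam ≠ 0)
    (hr : 2 ≤ finrank k k⟮lam⟯) :
    ∃ A : Finset K, Nat.card k⟮lam⟯ < A.card ^ 2 ∧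
      ∀ a ∈ A, a ∈ k⟮lam⟯ ∧
        ∃ b ∈ Words (Letters k lam) (4 * finrank k k⟮lam⟯), ∀ x : K, b * uu x * b⁻¹ = uu (a * x) := by
  classical
  obtain ⟨R, hRc, hR⟩ := count (k := k) lam hlam
  set r := finrank k k⟮lam⟯ with hrdef
  set Q := Fintype.card k with hQdef
  have hfin : Finite k⟮lam⟯ := Module.finite_of_finite k
  have hq : Nat.card k⟮lam⟯ = Q ^ r := by
    rw [Module.natCard_eq_pow_finrank (K := k), Nat.card_eq_fintype_card]
  set q := Nat.card k⟮lam⟯ with hqdef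
  set Fs : Finset K := (Set.toFinite (k⟮lam⟯ : Set K)).toFinset with hFs
  have hFmem : ∀ x, x ∈ Fs ↔ x ∈ k⟮lam⟯ := by
    intro x
    rw [hFs, Set.Finite.mem_toFinset]
    rfl
  have hFcard : Fs.card = q := by
    rw [hFs, ← Set.ncard_eq_toFinset_card _ (Set.toFinite _)]
    rfl
  -- the fibres
  set f : K × K → Option K := fun ρ => if ρ.1 = 0 then none else some (ρ.2 / ρ.1) with hf
  set T : Finset (Option K) := insert none (Fs.image some) with hT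
  have hTcard : T.card ≤ q + 1 := by
    rw [hT]
    refine (Finset.card_insert_le _ _).trans ?_
    have := Finset.card_image_le (s := Fs) (f := (some : K → Option K))
    omega
  have hmaps : ∀ ρ ∈ R, f ρ ∈ T := by
    intro ρ hρ
    obtain ⟨h1, h2, -⟩ := hR ρ hρ
    rw [hf, hT]
    by_cases h0 : ρ.1 = 0
    · simp [h0]
    · simp only [if_neg h0, Finset.mem_insert, Finset.mem_image]
      exact Or.inr ⟨ρ.2 / ρ.1, (hFmem _).2 (div_mem h2 h1), rfl⟩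
  obtain ⟨y, hy, hyc⟩ : ∃ y ∈ T, R.card ≤ (q + 1) * (R.filter (fun ρ => f ρ = y)).card := by
    by_contra hcon
    push Not at hcon
    have hTne : T.Nonempty := ⟨none, by rw [hT]; exact Finset.mem_insert_self _ _⟩
    have h1 : ∑ y ∈ T, (q + 1) * (R.filter (fun ρ => f ρ = y)).card < ∑ y ∈ T, R.card :=
      Finset.sum_lt_sum_of_nonempty hTne hcon
    rw [← Finset.mul_sum, ← Finset.card_eq_sum_card_fiberwise hmaps, Finset.sum_const, smul_eq_mul] at h1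
    have h2 : T.card * R.card ≤ (q + 1) * R.card := Nat.mul_le_mul_right _ hTcard
    omega
  set R' := R.filter (fun ρ => f ρ = y) with hR'
  have hNpos : 0 < R.card := by
    rw [hRc]
    have h1 : 0 < Q - 1 := by omega
    have h2 : 0 < Q := by omega
    positivity
  have hR'ne : R'.Nonempty := by
    rw [← Finset.card_pos]
    by_contra hcon
    have : R'.card = 0 := by omega
    rw [this, mul_zero] at hyc
    omega
  obtain ⟨ρ₀, hρ₀⟩ := hR'ne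
  have hρ₀R : ρ₀ ∈ R := (Finset.mem_filter.1 hρ₀).1
  obtain ⟨hc0, hd0, g₀, hg₀, hg₀c, hg₀d⟩ := hR ρ₀ hρ₀R
  -- the multiplier
  set μ : K × K → K := fun ρ => if ρ₀.1 = 0 then ρ.2 / ρ₀.2 else ρ.1 / ρ₀.1 with hμ
  have hnz : ∀ ρ ∈ R, ρ.1 = 0 → ρ.2 ≠ 0 := by
    intro ρ hρ h1 h2
    obtain ⟨-, -, g, -, hgc, hgd⟩ := hR ρ hρ
    have hd := det_eq g
    rw [hgc, hgd, h1, h2] at hd
    simp at hd
  have hprop : ∀ ρ ∈ R', ρ.1 = μ ρ * ρ₀.1 ∧ ρ.2 = μ ρ * ρ₀.2 ∧ μ ρ ≠ 0 ∧ μ ρ ∈ k⟮lam⟯ := by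
    intro ρ hρ
    have hρR : ρ ∈ R := (Finset.mem_filter.1 hρ).1
    obtain ⟨h1, h2, -⟩ := hR ρ hρR
    have he : f ρ = f ρ₀ := (Finset.mem_filter.1 hρ).2.trans (Finset.mem_filter.1 hρ₀).2.symm
    by_cases h0 : ρ₀.1 = 0
    · have h3 : ρ.1 = 0 := by
        by_contra h4
        rw [hf] at he
        simp [h0, h4] at he
      have h5 := hnz ρ₀ hρ₀R h0
      have h6 := hnz ρ hρR h3
      have e : μ ρ = ρ.2 / ρ₀.2 := by rw [hμ]; simp [h0]
      rw [e]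
      refine ⟨by rw [h3, h0, mul_zero], (div_mul_cancel₀ _ h5).symm, div_ne_zero h6 h5, div_mem h2 hd0⟩
    · have h3 : ρ.1 ≠ 0 := by
        intro h4
        rw [hf] at he
        simp [h0, h4] at he
      have h7 : ρ.2 / ρ.1 = ρ₀.2 / ρ₀.1 := by
        rw [hf] at he
        simpa [h0, h3] using he
      have e : μ ρ = ρ.1 / ρ₀.1 := by rw [hμ]; simp [h0]
      rw [e]
      refine ⟨(div_mul_cancel₀ _ h0).symm, ?_, div_ne_zero h3 h0, div_mem h1 hc0⟩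
      rw [div_eq_div_iff h3 h0] at h7
      rw [div_mul_eq_mul_div, eq_div_iff h0]
      linear_combination h7
  have hinj : Set.InjOn μ R' := by
    intro ρ hρ σ hσ h
    obtain ⟨a1, a2, -⟩ := hprop ρ hρ
    obtain ⟨b1, b2, -⟩ := hprop σ hσ
    refine Prod.ext ?_ ?_
    · rw [a1, b1, h]
    · rw [a2, b2, h]
  set M : Finset K := R'.image μ with hM
  have hMcard : M.card = R'.card := Finset.card_image_of_injOn hinj
  set A : Finset K := M.image (fun m => (m⁻¹) ^ 2) with hA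
  have hMA : M.card ≤ 2 * A.card := by
    refine Finset.card_le_mul_card_image M 2 fun a ha => ?_
    obtain ⟨m₁, hm₁, hm₁a⟩ := Finset.mem_image.1 ha
    have hsub : M.filter (fun m => (m⁻¹) ^ 2 = a) ⊆ {m₁, -m₁} := by
      intro m hm
      have h1 := (Finset.mem_filter.1 hm).2
      rw [← hm₁a] at h1
      rw [Finset.mem_insert, Finset.mem_singleton]
      rcases sq_eq_sq_iff_eq_or_eq_neg.1 h1 with h | h
      · left
        exact inv_injective h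
      · right
        rw [← inv_neg] at h
        exact inv_injective h
    exact (Finset.card_le_card hsub).trans Finset.card_le_two
  refine ⟨A, ?_, ?_⟩
  · by_contra hcon
    push Not at hcon
    have h1 : R.card ≤ 2 * (q + 1) * A.card := by
      calc R.card ≤ (q + 1) * R'.card := hyc
        _ = (q + 1) * M.card := by rw [hMcard]
        _ ≤ (q + 1) * (2 * A.card) := Nat.mul_le_mul_left _ hMA
        _ = 2 * (q + 1) * A.card := by ring
    have h2 : R.card ^ 2 ≤ 4 * q * (q + 1) ^ 2 := by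
      calc R.card ^ 2 ≤ (2 * (q + 1) * A.card) ^ 2 := Nat.pow_le_pow_left h1 2
        _ = 4 * (q + 1) ^ 2 * A.card ^ 2 := by ring
        _ ≤ 4 * (q + 1) ^ 2 * q := Nat.mul_le_mul_left _ hcon
        _ = 4 * q * (q + 1) ^ 2 := by ring
    have h3 := num Q r hk hr
    rw [hRc, hq] at h2
    omega
  · intro a ha
    obtain ⟨m, hm, rfl⟩ := Finset.mem_image.1 ha
    obtain ⟨ρ, hρ, rfl⟩ := Finset.mem_image.1 hm
    obtain ⟨a1, a2, a3, a4⟩ := hprop ρ hρ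
    obtain ⟨-, -, g, hg, hgc, hgd⟩ := hR ρ (Finset.mem_filter.1 hρ).1
    refine ⟨pow_mem (inv_mem a4) 2, g * g₀⁻¹, ?_, fun x => ?_⟩
    · refine words_mono ?_ (mul_mem_words hg (inv_mem_words hg₀))
      omega
    · obtain ⟨b1, b2⟩ := bottom_row g g₀ (μ ρ) (by rw [hgc, hg₀c, a1]) (by rw [hgd, hg₀d, a2])
      exact conj_uu (g * g₀⁻¹) (μ ρ) a3 b1 b2 x

end Pool.Agent.Helper72.TV
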