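import Mathlib

/-! # TV-SumProd

If `|A|² > |F|` then every element of the finite field `F` is a sum of 8 terms `± a b`.

Plan. `q = |F|`, `n = |A|`, `q < n²`.
(1) For every `ξ : F` the map `A × A → F, (a, b) ↦ a + ξ b` is not injective, so there are
`(a, b) ≠ (a', b')` in `A²` with `a + ξ b = a' + ξ b'`; then `b ≠ b'`.
(2) Counting: for `ξ : F` let `E ξ` be the number of quadruples `(a, b, a', b') ∈ A⁴` with
`a + ξ b = a' + ξ b'`. A quadruple with `b = b'` must have `a = a'`: there are `n²` of these for each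
`ξ`; a quadruple with `b ≠ b'` belongs to exactly one `ξ`. So `Σ ξ, E ξ ≤ q n² + n⁴ - n³ ≤ q n² + n⁴`,
and some `ξ` has `q * E ξ ≤ q n² + n⁴`. By Cauchy-Schwarz `n⁴ ≤ |B| * E ξ` with
`B = image (a + ξ b)` (e.g. `Finset.card_eq_sum_card_fiberwise`, `inner_mul_le_norm_mul_norm` /
`sq_sum_le_card_mul_sum_sq`). Hence `q n⁴ ≤ |B| (q n² + n⁴)`, and `n² > q` gives `2 |B| > q`.
(3) `2 |B| > q`: for every `z : F` the sets `B` and `z - B` meet, so `z = β + β'` with
`β, β' ∈ B`.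
(4) With `(a, b, a', b')` from (1) for the `ξ` of (2): put `δ = b' - b ≠ 0`, `ξ δ = a - a'`. Given `x`,
write `x / δ = (a₁ + ξ a₂) + (a₃ + ξ a₄)` by (3); then
`x = δ a₁ + (a - a') a₂ + δ a₃ + (a - a') a₄
   = b' a₁ - b a₁ + a a₂ - a' a₂ + b' a₃ - b a₃ + a a₄ - a' a₄`,
alternating signs: take the vectors `![b', b, a, a', b', b, a, a']` and
`![a₁, a₁, a₂, a₂, a₃, a₃, a₄, a₄]`.
-/

namespace Pool.Agent.Helper72.TV

open Finset in
private theorem energy_sum {F : Type*} [Field F] [Fintype F] [DecidableEq F] (A : Finset F) :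
    ∑ ξ : F, (((A ×ˢ A) ×ˢ (A ×ˢ A)).filter
      (fun P => P.1.1 + ξ * P.1.2 = P.2.1 + ξ * P.2.2)).card ≤
      Fintype.card F * A.card ^ 2 + A.card ^ 4 := by
  have h1 : ∀ ξ : F, (((A ×ˢ A) ×ˢ (A ×ˢ A)).filter
      (fun P => P.1.1 + ξ * P.1.2 = P.2.1 + ξ * P.2.2)).card =
      ∑ P ∈ (A ×ˢ A) ×ˢ (A ×ˢ A), if P.1.1 + ξ * P.1.2 = P.2.1 + ξ * P.2.2 then 1 else 0 :=
    fun ξ => by rw [Finset.card_filter]
  rw [Finset.sum_congr rfl fun ξ _ => h1 ξ, Finset.sum_comm]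
  have h2 : ∀ P ∈ (A ×ˢ A) ×ˢ (A ×ˢ A),
      (∑ ξ : F, if P.1.1 + ξ * P.1.2 = P.2.1 + ξ * P.2.2 then 1 else 0) ≤
        (if P.1 = P.2 then Fintype.card F else 0) + 1 := by
    intro P _
    rw [← Finset.card_filter]
    by_cases hP : P.1 = P.2
    · rw [if_pos hP]
      exact (Finset.card_le_univ _).trans (Nat.le_succ _)
    · rw [if_neg hP, zero_add]
      refine Finset.card_le_one.2 fun ξ hξ ξ' hξ' => ?_
      rw [Finset.mem_filter] at hξ hξ'
      have e1 := hξ.2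
      have e2 := hξ'.2
      by_contra hne
      have e3 : (ξ - ξ') * (P.1.2 - P.2.2) = 0 := by linear_combination e1 - e2
      rcases mul_eq_zero.1 e3 with h | h
      · exact hne (sub_eq_zero.1 h)
      · have h4 : P.1.2 = P.2.2 := sub_eq_zero.1 h
        rw [h4] at e1
        exact hP (Prod.ext (add_right_cancel e1) h4)
  refine (Finset.sum_le_sum h2).trans (le_of_eq ?_)
  rw [Finset.sum_add_distrib, Finset.sum_const, smul_eq_mul, mul_one, Finset.card_product,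
    Finset.card_product, Finset.sum_product]
  have h3 : ∀ x ∈ A ×ˢ A, (∑ y ∈ A ×ˢ A, if x = y then Fintype.card F else 0) =
      Fintype.card F := fun x hx => by
    rw [Finset.sum_ite_eq, if_pos hx]
  rw [Finset.sum_congr rfl h3, Finset.sum_const, smul_eq_mul, Finset.card_product]
  ring

open Finset in
private theorem cauchy {F : Type*} [Field F] [DecidableEq F] (A : Finset F) (ξ : F) :
    A.card ^ 4 ≤ ((A ×ˢ A).image (fun p => p.1 + ξ * p.2)).card *
      (((A ×ˢ A) ×ˢ (A ×ˢ A)).filter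
        (fun P => P.1.1 + ξ * P.1.2 = P.2.1 + ξ * P.2.2)).card := by
  obtain ⟨f, hf⟩ : ∃ f : F × F → F, f = fun p => p.1 + ξ * p.2 := ⟨_, rfl⟩
  have e0 : (((A ×ˢ A) ×ˢ (A ×ˢ A)).filter
        (fun P => P.1.1 + ξ * P.1.2 = P.2.1 + ξ * P.2.2)) =
      (((A ×ˢ A) ×ˢ (A ×ˢ A)).filter (fun P => f P.1 = f P.2)) := by
    rw [hf]
  rw [e0, ← hf]
  have h1 : (A ×ˢ A).card = ∑ z ∈ (A ×ˢ A).image f, ((A ×ˢ A).filter (fun p => f p = z)).card :=
    Finset.card_eq_sum_card_image f (A ×ˢ A)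
  have h2 : (((A ×ˢ A) ×ˢ (A ×ˢ A)).filter (fun P => f P.1 = f P.2)).card =
      ∑ z ∈ (A ×ˢ A).image f, ((A ×ˢ A).filter (fun p => f p = z)).card ^ 2 := by
    rw [Finset.card_eq_sum_card_fiberwise (f := fun P : (F × F) × (F × F) => f P.1)
      (t := (A ×ˢ A).image f)]
    · refine Finset.sum_congr rfl fun z _ => ?_
      rw [sq, ← Finset.card_product]
      congr 1
      ext P
      simp only [Finset.mem_filter, Finset.mem_product]
      constructor
      · rintro ⟨⟨⟨a, b⟩, c⟩, e⟩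
        exact ⟨⟨a, e⟩, b, c ▸ e⟩
      · rintro ⟨⟨a, e⟩, b, c⟩
        exact ⟨⟨⟨a, b⟩, e.trans c.symm⟩, e⟩
    · intro P hP
      rw [Finset.mem_coe, Finset.mem_filter, Finset.mem_product] at hP
      exact Finset.mem_coe.2 (Finset.mem_image_of_mem f hP.1.1)
  have h3 := sq_sum_le_card_mul_sum_sq (s := (A ×ˢ A).image f)
    (f := fun z => ((A ×ˢ A).filter (fun p => f p = z)).card)
  rw [← h1, ← h2, Finset.card_product] at h3
  calc A.card ^ 4 = (A.card * A.card) ^ 2 := by ring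
    _ ≤ _ := h3

private theorem exists_xi {F : Type*} [Field F] [Fintype F] [DecidableEq F] (A : Finset F)
    (hA : Fintype.card F < A.card ^ 2) :
    ∃ ξ : F, Fintype.card F < 2 * ((A ×ˢ A).image (fun p => p.1 + ξ * p.2)).card := by
  by_contra hcon
  push Not at hcon
  have hq : 0 < Fintype.card F := Fintype.card_pos
  have h1 : ∀ ξ : F, 2 * A.card ^ 4 ≤ Fintype.card F *
      (((A ×ˢ A) ×ˢ (A ×ˢ A)).filter
        (fun P => P.1.1 + ξ * P.1.2 = P.2.1 + ξ * P.2.2)).card := fun ξ => by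
    have h2 := cauchy A ξ
    have h3 := hcon ξ
    calc 2 * A.card ^ 4 ≤ 2 * (((A ×ˢ A).image (fun p => p.1 + ξ * p.2)).card *
      (((A ×ˢ A) ×ˢ (A ×ˢ A)).filter
        (fun P => P.1.1 + ξ * P.1.2 = P.2.1 + ξ * P.2.2)).card) := Nat.mul_le_mul_left _ h2
      _ = (2 * ((A ×ˢ A).image (fun p => p.1 + ξ * p.2)).card) *
      (((A ×ˢ A) ×ˢ (A ×ˢ A)).filter
        (fun P => P.1.1 + ξ * P.1.2 = P.2.1 + ξ * P.2.2)).card := by ring
      _ ≤ _ := Nat.mul_le_mul_right _ h3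
  have h4 := energy_sum A
  have h5 : Fintype.card F * (2 * A.card ^ 4) ≤ Fintype.card F *
      ∑ ξ : F, (((A ×ˢ A) ×ˢ (A ×ˢ A)).filter
        (fun P => P.1.1 + ξ * P.1.2 = P.2.1 + ξ * P.2.2)).card := by
    rw [Finset.mul_sum]
    have h6 := Finset.sum_le_sum (s := (Finset.univ : Finset F)) fun ξ _ => h1 ξ
    rw [Finset.sum_const, smul_eq_mul, Finset.card_univ] at h6
    exact h6
  have h7 := Nat.le_of_mul_le_mul_left h5 hq
  have h8 := h7.trans h4
  have h9 : Fintype.card F * A.card ^ 2 < A.card ^ 2 * A.card ^ 2 :=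
    Nat.mul_lt_mul_of_pos_right hA (by omega)
  have h10 : A.card ^ 2 * A.card ^ 2 = A.card ^ 4 := by ring
  omega

private theorem two_sum {F : Type*} [Field F] [Fintype F] [DecidableEq F] (B : Finset F)
    (hB : Fintype.card F < 2 * B.card) (z : F) : ∃ β ∈ B, ∃ β' ∈ B, z = β + β' := by
  by_contra hcon
  push Not at hcon
  have h1 : Disjoint B (B.image fun y => z - y) := by
    rw [Finset.disjoint_left]
    intro β hβ hβ'
    rw [Finset.mem_image] at hβ'
    obtain ⟨y, hy, e⟩ := hβ'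
    exact hcon β hβ y hy (by rw [← e]; ring)
  have h2 : (B.image fun y => z - y).card = B.card :=
    Finset.card_image_of_injective _ fun a b h => by
      have h' : z - a = z - b := h
      exact sub_right_injective h'
  have h3 := Finset.card_union_of_disjoint h1
  have h4 := Finset.card_le_univ (B ∪ B.image fun y => z - y)
  rw [h3, h2] at h4
  omega

theorem sumProd {F : Type*} [Field F] [Fintype F] [DecidableEq F] (A : Finset F)
    (hA : Fintype.card F < A.card ^ 2) (x : F) :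
    ∃ a b : Fin 8 → F, (∀ i, a i ∈ A) ∧ (∀ i, b i ∈ A) ∧
      x = ∑ i : Fin 8, (-1) ^ (i : ℕ) * (a i * b i) := by
  obtain ⟨ξ, hξ⟩ := exists_xi A hA
  have h1 : ∃ p ∈ A ×ˢ A, ∃ p' ∈ A ×ˢ A, p ≠ p' ∧
      (fun p : F × F => p.1 + ξ * p.2) p = (fun p : F × F => p.1 + ξ * p.2) p' := by
    refine Finset.exists_ne_map_eq_of_card_lt_of_maps_to (t := Finset.univ) ?_
      (fun _ _ => Finset.mem_coe.2 (Finset.mem_univ _))
    rw [Finset.card_univ, Finset.card_product, ← sq]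
    exact hA
  obtain ⟨⟨a, b⟩, hp, ⟨a', b'⟩, hp', hne, he⟩ := h1
  rw [Finset.mem_product] at hp hp'
  obtain ⟨ha, hb⟩ := hp
  obtain ⟨ha', hb'⟩ := hp'
  simp only at he ha hb ha' hb'
  have hbb : b' - b ≠ 0 := by
    intro h
    have h2 : b' = b := sub_eq_zero.1 h
    rw [h2] at he
    exact hne (Prod.ext (add_right_cancel he) h2.symm)
  obtain ⟨β, hβ, β', hβ', hz⟩ := two_sum _ hξ (x / (b' - b))
  rw [Finset.mem_image] at hβ hβ'
  obtain ⟨⟨a₁, a₂⟩, hm, hβe⟩ := hβ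
  obtain ⟨⟨a₃, a₄⟩, hm', hβe'⟩ := hβ'
  rw [Finset.mem_product] at hm hm'
  simp only at hβe hβe' hm hm'
  refine ⟨![b', b, a, a', b', b, a, a'], ![a₁, a₁, a₂, a₂, a₃, a₃, a₄, a₄], ?_, ?_, ?_⟩
  · intro i
    fin_cases i <;> simp [ha, hb, ha', hb']
  · intro i
    fin_cases i <;> simp [hm.1, hm.2, hm'.1, hm'.2]
  · have hx : x = (b' - b) * ((a₁ + ξ * a₂) + (a₃ + ξ * a₄)) := by
      rw [hβe, hβe', ← hz]
      field_simp
    simp [Fin.sum_univ_succ]
    rw [hx]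
    linear_combination -(a₂ + a₄) * he

end Pool.Agent.Helper72.TV
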