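import Pool.Agent.Helper72.TV.OneStepA
import Pool.Agent.Helper72.TV.SumProd

/-! # TV-OneStepB

All upper unipotents over `k⟮lam⟯` are words of length at most `136 r` in the letters.

Plan. `r = finrank k k⟮lam⟯`. If `r = 1` then `k⟮lam⟯ = ⊥` (`IntermediateField.finrank_eq_one_iff`), so `uu x` is a
letter. If `r ≥ 2` take `A` from `oneStepA` (may be still sorried); move it to a finset `A'` of the
finite field `k⟮lam⟯` (subtype) and apply `sumProd` (may be still sorried):
`x = Σ i, (-1)^i a_i b_i`. `uu 1` is a letter (`x = 1`), `uu (a b) = β_a * (β_b * uu 1 * β_b⁻¹) * β_a⁻¹`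
where `β_a` is the word of length `≤ 4 r` for `a ∈ A`: length `≤ 16 r + 1` (`conj_mem_words` twice);
`uu (-z) = (uu z)⁻¹`. The sum of 8 terms is the product (`uu_add`): `8 (16 r + 1) ≤ 136 r`.
-/

namespace Pool.Agent.Helper72.TV

open Matrix Module IntermediateField

private lemma uu_zero' {K : Type*} [Field K] : uu (0 : K) = 1 := by
  apply Matrix.SpecialLinearGroup.ext
  intro i j
  rw [uu_coe, Matrix.SpecialLinearGroup.coe_one]
  fin_cases i <;> fin_cases j <;> simp

private lemma uu_neg' {K : Type*} [Field K] (z : K) : uu (-z) = (uu z)⁻¹ := by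
  rw [eq_inv_iff_mul_eq_one, ← uu_add, neg_add_cancel, uu_zero']

private lemma uu_sum_mem {K ι : Type*} [Field K] {S : Set (Matrix.SpecialLinearGroup (Fin 2) K)}
    (s : Finset ι) (f : ι → K) (L : ℕ) (h : ∀ i ∈ s, uu (f i) ∈ Words S L) :
    uu (∑ i ∈ s, f i) ∈ Words S (s.card * L) := by
  classical
  induction s using Finset.induction_on with
  | empty =>
    rw [Finset.sum_empty, uu_zero']
    exact one_mem_words _
  | insert a s ha ih =>
    rw [Finset.sum_insert ha, uu_add, Finset.card_insert_of_notMem ha]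
    refine words_mono ?_ (mul_mem_words (h a (Finset.mem_insert_self a s))
      (ih fun i hi => h i (Finset.mem_insert_of_mem hi)))
    rw [Nat.succ_mul]
    omega

theorem oneStepB {k K : Type*} [Field k] [Fintype k] [Field K] [Algebra k K]
    [FiniteDimensional k K] (hk : 5 ≤ Fintype.card k) (lam : K) (hlam : lam ≠ 0)
    (x : K) (hx : x ∈ k⟮lam⟯) :
    uu x ∈ Words (Letters k lam) (136 * finrank k k⟮lam⟯) := by
  classical
  have hr1 : 1 ≤ finrank k k⟮lam⟯ := Module.finrank_pos
  rcases Nat.lt_or_ge (finrank k k⟮lam⟯) 2 with hr | hr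
  · have h1 : finrank k k⟮lam⟯ = 1 := by omega
    have h2 : k⟮lam⟯ = ⊥ := IntermediateField.finrank_eq_one_iff.1 h1
    rw [h2, IntermediateField.mem_bot] at hx
    obtain ⟨y, rfl⟩ := hx
    have h3 : uu (algebraMap k K y) ∈ Letters k lam := Or.inl ⟨y, rfl⟩
    exact words_mono (by omega) (mem_words_one h3)
  · obtain ⟨A, hAc, hA⟩ := oneStepA hk lam hlam hr
    have hfin : Finite k⟮lam⟯ := Module.finite_of_finite k
    let _ : Fintype k⟮lam⟯ := Fintype.ofFinite _
    let A' : Finset k⟮lam⟯ := A.subtype (fun y => y ∈ k⟮lam⟯)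
    have hA'c : A'.card = A.card := by
      rw [Finset.card_subtype, Finset.filter_true_of_mem fun a ha => (hA a ha).1]
    have hA'm : ∀ a : k⟮lam⟯, a ∈ A' → (a : K) ∈ A := fun a ha => Finset.mem_subtype.1 ha
    have hcard : Fintype.card k⟮lam⟯ < A'.card ^ 2 := by
      rw [hA'c, ← Nat.card_eq_fintype_card]
      exact hAc
    obtain ⟨a, b, ha, hb, hxe⟩ := sumProd A' hcard ⟨x, hx⟩
    have hxe' : x = ∑ i : Fin 8, (-1) ^ (i : ℕ) * ((a i : K) * (b i : K)) := by
      have h := congrArg (fun z : k⟮lam⟯ => (z : K)) hxe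
      simp only at h
      rw [h]
      push_cast
      rfl
    set r := finrank k k⟮lam⟯ with hrdef
    have h1w : uu (1 : K) ∈ Words (Letters k lam) 1 :=
      mem_words_one (Or.inl ⟨1, by rw [map_one]⟩)
    have hab : ∀ i : Fin 8, uu ((a i : K) * (b i : K)) ∈ Words (Letters k lam) (16 * r + 1) := by
      intro i
      obtain ⟨-, βa, hβa, ea⟩ := hA _ (hA'm _ (ha i))
      obtain ⟨-, βb, hβb, eb⟩ := hA _ (hA'm _ (hb i))
      have h3 := conj_mem_words hβa (conj_mem_words hβb h1w)
      rw [eb, ea, mul_one] at h3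
      exact words_mono (by omega) h3
    have hterm : ∀ i ∈ (Finset.univ : Finset (Fin 8)),
        uu ((-1) ^ (i : ℕ) * ((a i : K) * (b i : K))) ∈ Words (Letters k lam) (16 * r + 1) := by
      intro i _
      rcases neg_one_pow_eq_or K (i : ℕ) with h | h
      · rw [h, one_mul]
        exact hab i
      · rw [h, neg_one_mul, uu_neg']
        exact inv_mem_words (hab i)
    have hfinal := uu_sum_mem Finset.univ _ _ hterm
    rw [← hxe', Finset.card_univ, Fintype.card_fin] at hfinal
    exact words_mono (by omega) hfinal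

end Pool.Agent.Helper72.TV
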