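import Pool.Agent.Helper72.TV.Torus
import Pool.Agent.Helper72.TV.MuField
import Pool.Agent.Helper72.TV.Embed

/-! # TV-PairStep

From a transvection and a conjugate of it to a root group over the field of the parameter.

Plan. `v' = w *ᵥ v`, `φ' = φ ᵥ* w⁻¹`, so `φ' ⬝ᵥ v' = φ ⬝ᵥ v = 0`, `φ' ⬝ᵥ v = φ ⬝ᵥ (w⁻¹ *ᵥ v)` and
`(φ ⬝ᵥ v') (φ' ⬝ᵥ v) = par v φ w = lam`. Let `ι` be the homomorphism of `embed` (may be still sorried).
Every letter `z ∈ Letters k lam` has `ι z ∈ Words S (L + 2 m)`: for `z = uu x`, `x ∈ k`, use `hL` (the element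
`g` given by `hL` has the same matrix as `ι z`, so it is `ι z`: `Subtype.ext`); for `z = vv (lam y)`, `y ∈ k`,
`ι z` has the matrix `1 + y • vecMulVec v' φ' = w * (1 + y • vecMulVec v φ) * w⁻¹`, so `ι z = w * g * w⁻¹` with `g` from
`hL`: `conj_mem_words`. Hence `ι` maps `Words (Letters k lam) n` into `Words S (n * (L + 2 m))` (`map_mem_words`).
First part: `oneStepB` (may be still sorried). Second part: `μ` from `muField` (may be still
sorried), `θ = μ^2`, `h = ι h₀` with `h₀` from `torus` (may be still sorried): apply `ι` to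
`h₀ * uu x * h₀⁻¹ = uu (μ^2 x)` and take matrices.
-/

namespace Pool.Agent.Helper72.TV

open Matrix Module IntermediateField

theorem pairStep {k K : Type*} [Field k] [Fintype k] [Field K] [Algebra k K]
    [FiniteDimensional k K] (hk : 5 ≤ Fintype.card k) {d : ℕ}
    (S : Set (Matrix.SpecialLinearGroup (Fin d) K)) (v φ : Fin d → K) (hφv : φ ⬝ᵥ v = 0)
    (L m : ℕ) (hL : TW S L (Set.range (algebraMap k K)) v φ)
    (w : Matrix.SpecialLinearGroup (Fin d) K) (hw : w ∈ Words S m)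
    (lam : K) (h : par v φ w = lam) (hlam : lam ≠ 0) :
    TW S (136 * finrank k k⟮lam⟯ * (L + 2 * m)) (k⟮lam⟯ : Set K) v φ ∧
    ∃ θ : K, k⟮θ⟯ = k⟮lam⟯ ∧ ∃ h ∈ Words S (680 * finrank k k⟮lam⟯ * (L + 2 * m)),
      ∀ x : K, (h : Matrix (Fin d) (Fin d) K) * (1 + x • Matrix.vecMulVec v φ) *
        ((h⁻¹ : Matrix.SpecialLinearGroup (Fin d) K) : Matrix (Fin d) (Fin d) K) =
          1 + (θ * x) • Matrix.vecMulVec v φ := by
  obtain ⟨W, hW⟩ : ∃ W : Matrix (Fin d) (Fin d) K, W = (w : Matrix (Fin d) (Fin d) K) := ⟨_, rfl⟩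
  obtain ⟨V, hV⟩ : ∃ V : Matrix (Fin d) (Fin d) K,
      V = ((w⁻¹ : Matrix.SpecialLinearGroup (Fin d) K) : Matrix (Fin d) (Fin d) K) := ⟨_, rfl⟩
  have hVW : V * W = 1 := by
    rw [hV, hW, ← Matrix.SpecialLinearGroup.coe_mul, inv_mul_cancel,
      Matrix.SpecialLinearGroup.coe_one]
  have hWV : W * V = 1 := by
    rw [hV, hW, ← Matrix.SpecialLinearGroup.coe_mul, mul_inv_cancel,
      Matrix.SpecialLinearGroup.coe_one]
  have h1 : (φ ᵥ* V) ⬝ᵥ (W *ᵥ v) = 0 := by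
    rw [← Matrix.dotProduct_mulVec, Matrix.mulVec_mulVec, hVW, Matrix.one_mulVec, hφv]
  have h2 : (φ ⬝ᵥ (W *ᵥ v)) * ((φ ᵥ* V) ⬝ᵥ v) = lam := by
    rw [← Matrix.dotProduct_mulVec, ← h, hW, hV]
    rfl
  obtain ⟨ι, hu, hv⟩ := embed v φ (W *ᵥ v) (φ ᵥ* V) hφv h1 lam h2 hlam
  have hvv : Matrix.vecMulVec (W *ᵥ v) (φ ᵥ* V) = W * Matrix.vecMulVec v φ * V := by
    rw [Matrix.mul_vecMulVec, Matrix.vecMulVec_mul]
  have hlet : ∀ z ∈ Letters k lam, ι z ∈ Words S (L + 2 * m) := by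
    rintro z (⟨x, rfl⟩ | ⟨y, rfl⟩)
    · obtain ⟨g, hg, hg1⟩ := hL (algebraMap k K x) ⟨x, rfl⟩
      have e : ι (uu (algebraMap k K x)) = g := Subtype.ext (by rw [hu, hg1])
      rw [e]
      exact words_mono (by omega) hg
    · obtain ⟨g, hg, hg1⟩ := hL (algebraMap k K y) ⟨y, rfl⟩
      have e : ι (vv (lam * algebraMap k K y)) = w * g * w⁻¹ := by
        apply Subtype.ext
        rw [hv, mul_div_cancel_left₀ _ hlam, hvv, Matrix.SpecialLinearGroup.coe_mul,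
          Matrix.SpecialLinearGroup.coe_mul, ← hW, ← hV, hg1, Matrix.mul_add, Matrix.add_mul,
          Matrix.mul_one, hWV, Matrix.mul_smul, Matrix.smul_mul]
      rw [e]
      exact conj_mem_words hw hg
  refine ⟨?_, ?_⟩
  · intro x hx
    exact ⟨ι (uu x), map_mem_words ι hlet (oneStepB hk lam hlam x hx), hu x⟩
  · obtain ⟨μ, hμ, hμ0, hμ2⟩ := muField (k := k) lam
    obtain ⟨h₀, hh, hh1⟩ := torus hk lam hlam μ hμ hμ0
    refine ⟨μ ^ 2, hμ2, ι h₀, map_mem_words ι hlet hh, fun x => ?_⟩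
    have e := congrArg (fun z => (ι z : Matrix (Fin d) (Fin d) K)) (hh1 x)
    simp only [map_mul, map_inv, Matrix.SpecialLinearGroup.coe_mul] at e
    rw [hu, hu] at e
    exact e

end Pool.Agent.Helper72.TV
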