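import Pool.Agent.Helper72.TV.Defs

/-! # TV-Swap

The automorphism exchanging `u(x)` and `v(lam x)`.

Plan. Conjugation by `J = !![0, 1; lam, 0]` (`J⁻¹ = !![0, lam⁻¹; 1, 0]`) maps `uu x` to `vv (lam x)` and
`vv (lam y)` to `uu y`. Define the map `f : SL₂(K) →* SL₂(K)` by
`f !![a, b; c, d] = !![d, c * lam⁻¹; lam * b, a]` (check `MonoidHom` axioms by `ext`, `fin_cases`, `simp`,
`field_simp`, `ring`); it maps letters to letters: `f (uu x) = vv (lam x)`, `f (vv (lam y)) = uu y`.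
Then use `map_mem_words` with `ℓ = 1`, `mem_words_one`.
-/

namespace Pool.Agent.Helper72.TV

open Matrix Module IntermediateField

private noncomputable def swapHom {K : Type*} [Field K] (lam : K) (hlam : lam ≠ 0) :
    Matrix.SpecialLinearGroup (Fin 2) K →* Matrix.SpecialLinearGroup (Fin 2) K :=
  MonoidHom.mk' (fun g => ⟨!![g.1 1 1, g.1 1 0 * lam⁻¹; lam * g.1 0 1, g.1 0 0], by
    have h := g.2
    rw [Matrix.det_fin_two] at h
    rw [Matrix.det_fin_two_of]
    have h2 : g.1 1 0 * lam⁻¹ * (lam * g.1 0 1) = g.1 1 0 * g.1 0 1 := by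
      field_simp
    rw [h2]
    linear_combination h⟩) (by
    intro a b
    apply Matrix.SpecialLinearGroup.ext
    intro i j
    change (!![(a.1 * b.1) 1 1, (a.1 * b.1) 1 0 * lam⁻¹; lam * (a.1 * b.1) 0 1, (a.1 * b.1) 0 0] :
      Matrix (Fin 2) (Fin 2) K) i j =
      (!![a.1 1 1, a.1 1 0 * lam⁻¹; lam * a.1 0 1, a.1 0 0] *
        !![b.1 1 1, b.1 1 0 * lam⁻¹; lam * b.1 0 1, b.1 0 0]) i j
    simp only [Matrix.mul_apply, Fin.sum_univ_two]
    fin_cases i <;> fin_cases j <;> simp <;> field_simp <;> ring)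

private theorem swapHom_uu {K : Type*} [Field K] (lam : K) (hlam : lam ≠ 0) (x : K) :
    swapHom lam hlam (uu x) = vv (lam * x) := by
  apply Matrix.SpecialLinearGroup.ext
  intro i j
  change (!![(uu x).1 1 1, (uu x).1 1 0 * lam⁻¹; lam * (uu x).1 0 1, (uu x).1 0 0] :
    Matrix (Fin 2) (Fin 2) K) i j = (vv (lam * x) : Matrix (Fin 2) (Fin 2) K) i j
  rw [vv_coe]
  have h : (uu x).1 = !![1, x; 0, 1] := rfl
  rw [h]
  fin_cases i <;> fin_cases j <;> simp

private theorem swapHom_vv {K : Type*} [Field K] (lam : K) (hlam : lam ≠ 0) (y : K) :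
    swapHom lam hlam (vv (lam * y)) = uu y := by
  apply Matrix.SpecialLinearGroup.ext
  intro i j
  change (!![(vv (lam * y)).1 1 1, (vv (lam * y)).1 1 0 * lam⁻¹; lam * (vv (lam * y)).1 0 1,
    (vv (lam * y)).1 0 0] : Matrix (Fin 2) (Fin 2) K) i j = (uu y : Matrix (Fin 2) (Fin 2) K) i j
  rw [uu_coe]
  have h : (vv (lam * y)).1 = !![1, 0; lam * y, 1] := rfl
  rw [h]
  fin_cases i <;> fin_cases j <;> simp
  field_simp

theorem swap {k K : Type*} [Field k] [Field K] [Algebra k K] (lam : K) (hlam : lam ≠ 0)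
    (x : K) (n : ℕ) (h : uu x ∈ Words (Letters k lam) n) :
    vv (lam * x) ∈ Words (Letters k lam) n := by
  have h1 := map_mem_words (S := Letters k lam) (swapHom lam hlam) (Z := Letters k lam) (ℓ := 1) (by
    rintro z (⟨y, rfl⟩ | ⟨y, rfl⟩)
    · rw [swapHom_uu]
      exact mem_words_one (Or.inr ⟨y, rfl⟩)
    · rw [swapHom_vv]
      exact mem_words_one (Or.inl ⟨y, rfl⟩)) h
  rw [swapHom_uu, Nat.mul_one] at h1
  exact h1

end Pool.Agent.Helper72.TV
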