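import Pool.Agent.Helper72.TV.OneStepB
import Pool.Agent.Helper72.TV.Swap

/-! # TV-Torus

Torus elements over `k⟮lam⟯` are short words.

Plan. For `μ ≠ 0`: `diag(μ, μ⁻¹) = uu μ * vv (-μ⁻¹) * uu (μ - 1) * vv 1 * uu (-1)` (check by `ext`). By `oneStepB`
and `swap` (both may be still sorried) each of the five factors is a word of length
`≤ 136 r`: `vv (-μ⁻¹) = vv (lam * (-(lam μ)⁻¹))`, `vv 1 = vv (lam * lam⁻¹)` with parameters in `k⟮lam⟯`.
So `h = diag(μ, μ⁻¹) ∈ Words _ (5 * (136 * r))` and `h * uu x * h⁻¹ = uu (μ^2 * x)`.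
-/

namespace Pool.Agent.Helper72.TV

open Matrix Module IntermediateField

private theorem torus_coe {K : Type*} [Field K] (μ : K) (hμ0 : μ ≠ 0) :
    ((uu μ * vv (-μ⁻¹) * uu (μ - 1) * vv 1 * uu (-1) : Matrix.SpecialLinearGroup (Fin 2) K) :
      Matrix (Fin 2) (Fin 2) K) = !![μ, 0; 0, μ⁻¹] := by
  simp only [Matrix.SpecialLinearGroup.coe_mul, uu_coe, vv_coe]
  ext i j
  fin_cases i <;> fin_cases j <;> simp [Matrix.mul_apply, Fin.sum_univ_two] <;> field_simp <;> ring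

private theorem torus_aux {K : Type*} [Field K] (μ : K) (hμ0 : μ ≠ 0) (x : K)
    (h : Matrix.SpecialLinearGroup (Fin 2) K)
    (h1 : (h : Matrix (Fin 2) (Fin 2) K) = !![μ, 0; 0, μ⁻¹]) :
    h * uu x = uu (μ ^ 2 * x) * h := by
  apply Subtype.ext
  rw [Matrix.SpecialLinearGroup.coe_mul, Matrix.SpecialLinearGroup.coe_mul, h1, uu_coe, uu_coe]
  ext i j
  fin_cases i <;> fin_cases j <;> simp [Matrix.mul_apply, Fin.sum_univ_two] <;> field_simp

theorem torus {k K : Type*} [Field k] [Fintype k] [Field K] [Algebra k K]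
    [FiniteDimensional k K] (hk : 5 ≤ Fintype.card k) (lam : K) (hlam : lam ≠ 0)
    (μ : K) (hμ : μ ∈ k⟮lam⟯) (hμ0 : μ ≠ 0) :
    ∃ h ∈ Words (Letters k lam) (680 * finrank k k⟮lam⟯), ∀ x : K, h * uu x * h⁻¹ = uu (μ ^ 2 * x) := by
  set r := finrank k k⟮lam⟯ with hr
  have hlm : lam ∈ k⟮lam⟯ := IntermediateField.mem_adjoin_simple_self k lam
  have hU : ∀ y ∈ k⟮lam⟯, uu y ∈ Words (Letters k lam) (136 * r) := fun y hy =>
    oneStepB hk lam hlam y hy
  have hV : ∀ y ∈ k⟮lam⟯, vv y ∈ Words (Letters k lam) (136 * r) := by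
    intro y hy
    have h1 := swap (k := k) lam hlam (lam⁻¹ * y) (136 * r)
      (hU _ (mul_mem (inv_mem hlm) hy))
    rwa [mul_inv_cancel_left₀ hlam] at h1
  refine ⟨uu μ * vv (-μ⁻¹) * uu (μ - 1) * vv 1 * uu (-1), ?_, ?_⟩
  · have h1 := mul_mem_words (mul_mem_words (mul_mem_words (mul_mem_words (hU μ hμ)
      (hV (-μ⁻¹) (neg_mem (inv_mem hμ)))) (hU (μ - 1) (sub_mem hμ (one_mem _))))
      (hV 1 (one_mem _))) (hU (-1) (neg_mem (one_mem _)))
    refine words_mono ?_ h1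
    omega
  · intro x
    rw [torus_aux μ hμ0 x _ (torus_coe μ hμ0), mul_inv_cancel_right]

end Pool.Agent.Helper72.TV
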