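import Pool.Agent.Helper72.TV.Escape

/-! # TV-Twist

Galois twists of matrix coefficients: if a ring endomorphism `σ` of `K` fixes the parameter
`par v φ w` for all words of length at most `2 d²`, it fixes it on the whole group.

Plan. `par v φ g = φ ⬝ᵥ ((g * vecMulVec v φ * g⁻¹) *ᵥ v)`. Representation of `SL_d(K)` on
`W = Matrix (Fin d) (Fin d) K × Matrix (Fin d) (Fin d) K` (finrank `2 * d^2`):
`ρ g (M, N) = (g * M * g⁻¹, σ(g) * N * σ(g)⁻¹)`, with `σ(g) = Matrix.SpecialLinearGroup.map σ g`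
(entrywise; it is K-linear in `(M, N)` although `g ↦ σ(g)` is only a group homomorphism).
`x = (vecMulVec v φ, vecMulVec (σ ∘ v) (σ ∘ φ))`,
`ψ (M, N) = φ ⬝ᵥ (M *ᵥ v) - (σ ∘ φ) ⬝ᵥ (N *ᵥ (σ ∘ v))`. Then
`ψ (ρ g x) = par v φ g - σ (par v φ g)` for every `g`. Now use the contrapositive of `escape`
(module Escape, may be still sorried).

For `par_ne` use the representation `ρ g M = g * M * g⁻¹` on matrices (finrank `d^2 ≤ 2 d^2`) and
`x = vecMulVec v φ`, `ψ M = φ ⬝ᵥ (M *ᵥ v)`, and `words_mono`.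
-/

namespace Pool.Agent.Helper72.TV

open Matrix Module

private lemma vmv {K : Type*} [Field K] {d : ℕ} (v φ z : Fin d → K) :
    vecMulVec v φ *ᵥ z = (φ ⬝ᵥ z) • v := by
  ext i
  simp only [mulVec, dotProduct, vecMulVec_apply, Pi.smul_apply, smul_eq_mul, Finset.sum_mul]
  exact Finset.sum_congr rfl fun j _ => by ring

/-- conjugation on matrices -/
private def cjRep (K : Type*) [Field K] (d : ℕ) :
    Matrix.SpecialLinearGroup (Fin d) K →* Module.End K (Matrix (Fin d) (Fin d) K) where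
  toFun g := LinearMap.mulLeftRight K ((g : Matrix (Fin d) (Fin d) K),
    ((g⁻¹ : Matrix.SpecialLinearGroup (Fin d) K) : Matrix (Fin d) (Fin d) K))
  map_one' := by
    apply LinearMap.ext
    intro M
    rw [LinearMap.mulLeftRight_apply, inv_one, Matrix.SpecialLinearGroup.coe_one, one_mul, mul_one]
    rfl
  map_mul' g h := by
    apply LinearMap.ext
    intro M
    rw [Module.End.mul_apply, LinearMap.mulLeftRight_apply, LinearMap.mulLeftRight_apply,
      LinearMap.mulLeftRight_apply, _root_.mul_inv_rev, Matrix.SpecialLinearGroup.coe_mul,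
      Matrix.SpecialLinearGroup.coe_mul]
    simp only [mul_assoc]

private lemma cjRep_apply {K : Type*} [Field K] {d : ℕ} (g : Matrix.SpecialLinearGroup (Fin d) K)
    (M : Matrix (Fin d) (Fin d) K) :
    cjRep K d g M = (g : Matrix (Fin d) (Fin d) K) * M *
      ((g⁻¹ : Matrix.SpecialLinearGroup (Fin d) K) : Matrix (Fin d) (Fin d) K) :=
  LinearMap.mulLeftRight_apply _ _ _

private lemma par_cj {K : Type*} [Field K] {d : ℕ} (v φ : Fin d → K)
    (g : Matrix.SpecialLinearGroup (Fin d) K) :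
    φ ⬝ᵥ ((cjRep K d g (vecMulVec v φ)) *ᵥ v) = par v φ g := by
  rw [cjRep_apply, ← mulVec_mulVec, ← mulVec_mulVec, vmv, mulVec_smul, dotProduct_smul, smul_eq_mul,
    par, mul_comm]

private lemma par_map {K : Type*} [Field K] {d : ℕ} (σ : K →+* K) (v φ : Fin d → K)
    (g : Matrix.SpecialLinearGroup (Fin d) K) :
    par (σ ∘ v) (σ ∘ φ) (Matrix.SpecialLinearGroup.map σ g) = σ (par v φ g) := by
  have key : ∀ h : Matrix.SpecialLinearGroup (Fin d) K,
      (σ ∘ φ) ⬝ᵥ (((Matrix.SpecialLinearGroup.map σ h : Matrix.SpecialLinearGroup (Fin d) K) :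
        Matrix (Fin d) (Fin d) K) *ᵥ (σ ∘ v)) =
      σ (φ ⬝ᵥ ((h : Matrix (Fin d) (Fin d) K) *ᵥ v)) := by
    intro h
    rw [RingHom.map_dotProduct]
    congr 1
    ext i
    rw [Function.comp_apply, RingHom.map_mulVec]
    rfl
  simp only [par]
  rw [← map_inv, key, key, map_mul]

theorem twist {K : Type*} [Field K] {d : ℕ} (σ : K →+* K)
    (S : Set (Matrix.SpecialLinearGroup (Fin d) K)) (v φ : Fin d → K)
    (h : ∀ w ∈ Words S (2 * d ^ 2), σ (par v φ w) = par v φ w) :
    ∀ g ∈ Subgroup.closure S, σ (par v φ g) = par v φ g := by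
  intro g hg
  by_contra hne
  let ρ : Matrix.SpecialLinearGroup (Fin d) K →*
      Module.End K (Matrix (Fin d) (Fin d) K × Matrix (Fin d) (Fin d) K) :=
    { toFun := fun g => LinearMap.prodMap (cjRep K d g)
        (cjRep K d (Matrix.SpecialLinearGroup.map σ g))
      map_one' := by
        apply LinearMap.ext
        intro M
        rw [map_one, map_one, map_one]
        rfl
      map_mul' := fun g h => by
        apply LinearMap.ext
        intro M
        rw [map_mul, map_mul, map_mul]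
        rfl }
  let ψ : (Matrix (Fin d) (Fin d) K × Matrix (Fin d) (Fin d) K) →ₗ[K] K :=
    { toFun := fun p => φ ⬝ᵥ (p.1 *ᵥ v) - (σ ∘ φ) ⬝ᵥ (p.2 *ᵥ (σ ∘ v))
      map_add' := fun p q => by
        simp only [Prod.fst_add, Prod.snd_add, add_mulVec, dotProduct_add]
        ring
      map_smul' := fun c p => by
        simp only [Prod.smul_fst, Prod.smul_snd, smul_mulVec, dotProduct_smul, smul_eq_mul,
          RingHom.id_apply]
        ring }
  have hψ : ∀ g, ψ (ρ g (vecMulVec v φ, vecMulVec (σ ∘ v) (σ ∘ φ))) =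
      par v φ g - σ (par v φ g) := by
    intro g
    change φ ⬝ᵥ ((cjRep K d g (vecMulVec v φ)) *ᵥ v) -
      (σ ∘ φ) ⬝ᵥ ((cjRep K d (Matrix.SpecialLinearGroup.map σ g) (vecMulVec (σ ∘ v) (σ ∘ φ))) *ᵥ
        (σ ∘ v)) = _
    rw [par_cj, par_cj, par_map]
  have hgne : ψ (ρ g (vecMulVec v φ, vecMulVec (σ ∘ v) (σ ∘ φ))) ≠ 0 := by
    rw [hψ]
    intro h0
    exact hne (sub_eq_zero.1 h0).symm
  obtain ⟨w, hw, hwne⟩ := escape ρ S _ ψ g hg hgne
  have hfr : Module.finrank K (Matrix (Fin d) (Fin d) K × Matrix (Fin d) (Fin d) K) =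
      2 * d ^ 2 := by
    rw [Module.finrank_prod, Module.finrank_matrix, Module.finrank_self, Fintype.card_fin]
    ring
  rw [hfr] at hw
  apply hwne
  rw [hψ, h w hw, sub_self]

theorem par_ne {K : Type*} [Field K] {d : ℕ}
    (S : Set (Matrix.SpecialLinearGroup (Fin d) K)) (v φ : Fin d → K)
    (g : Matrix.SpecialLinearGroup (Fin d) K) (hg : g ∈ Subgroup.closure S)
    (h : par v φ g ≠ 0) :
    ∃ w ∈ Words S (2 * d ^ 2), par v φ w ≠ 0 := by
  let ψ : Matrix (Fin d) (Fin d) K →ₗ[K] K :=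
    { toFun := fun p => φ ⬝ᵥ (p *ᵥ v)
      map_add' := fun p q => by
        simp only [add_mulVec, dotProduct_add]
      map_smul' := fun c p => by
        simp only [smul_mulVec, dotProduct_smul, smul_eq_mul, RingHom.id_apply] }
  have hψ : ∀ g, ψ (cjRep K d g (vecMulVec v φ)) = par v φ g := fun g => par_cj v φ g
  obtain ⟨w, hw, hwne⟩ := escape (cjRep K d) S (vecMulVec v φ) ψ g hg (by rw [hψ]; exact h)
  have hfr : Module.finrank K (Matrix (Fin d) (Fin d) K) ≤ 2 * d ^ 2 := by
    rw [Module.finrank_matrix, Module.finrank_self, Fintype.card_fin]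
    nlinarith
  exact ⟨w, words_mono hfr hw, by rwa [hψ] at hwne⟩

end Pool.Agent.Helper72.TV
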